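import Pool.Agent.H37.TE.Defs

/-! # [H37 TE CZR] Common zeros of two bivariate polynomials

`res_deg`: the resultant is the determinant of the Sylvester matrix of size `m + n ≤ e1 + e2`, all entries are zero or coefficients of `f` or `g`, of degree `≤ d` (`Polynomial.sylvester`, `Polynomial.resultant` in `Mathlib/RingTheory/Polynomial/Resultant/Basic.lean`); `Matrix.det_apply`, `natDegree_sum_le_of_forall_le`, `natDegree_prod_le`.
`res_ne`: `R` a UFD, `f` irreducible of degree `≥ 1`, hence primitive (`Irreducible.isPrimitive`), `f` does not divide `g`. Over `K = FractionRing R` the image of `f` is irreducible (`IsPrimitive.irreducible_iff_irreducible_map_fraction_map`, needs a `NormalizedGCDMonoid`, take it by `Classical`) and does not divide the image of `g` (`IsPrimitive.dvd_of_fraction_map_dvd_fraction_map` needs `g` primitive; write `g = C c * g.primPart`, `c ≠ 0` a unit of `K`), so they are coprime over `K`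
(`Irreducible.coprime_iff_not_dvd`), `resultant_ne_zero` over `K`, `resultant_map_map`, `natDegree_map_eq_of_injective`. (`g ≠ 0` since `f` does not divide it.)
`common_zeros`: `r = resultant R1 G1`, `p * R1 + q * G1 = C r` (`exists_mul_add_mul_eq_C_resultant`), so `r.eval u = 0` for `u ∈ S`, `S.card ≤ r.natDegree` (`card_roots'`), `r ≠ 0`. -/

namespace Pool.Agent.H37.TE

open Finset Polynomial

private theorem syl_deg {R : Type*} [CommRing R] (f g : R[X][X]) (d m n : ℕ)
    (hf : ∀ j, (f.coeff j).natDegree ≤ d) (hg : ∀ j, (g.coeff j).natDegree ≤ d)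
    (i j : Fin (m + n)) : (sylvester f g m n i j).natDegree ≤ d := by
  unfold sylvester
  rw [Matrix.of_apply]
  induction j using Fin.addCases with
  | left j =>
    rw [Fin.addCases_left]
    split_ifs
    · exact hg _
    · rw [natDegree_zero]; exact Nat.zero_le _
  | right j =>
    rw [Fin.addCases_right]
    split_ifs
    · exact hf _
    · rw [natDegree_zero]; exact Nat.zero_le _

theorem res_deg {R : Type*} [CommRing R] [IsDomain R] (f g : R[X][X]) (d e1 e2 : ℕ)
    (hf : BD d e1 f) (hg : BD d e2 g) : (resultant f g).natDegree ≤ (e1 + e2) * d := by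
  have h1 : (resultant f g).natDegree ≤ (f.natDegree + g.natDegree) * d := by
    unfold resultant
    rw [Matrix.det_apply']
    refine natDegree_sum_le_of_forall_le _ _ fun σ _ => ?_
    refine natDegree_mul_le.trans ?_
    rw [natDegree_intCast, zero_add]
    refine (natDegree_prod_le _ _).trans ?_
    refine (Finset.sum_le_card_nsmul _ _ d fun i _ => syl_deg f g d _ _ hf.2 hg.2 _ _).trans ?_
    rw [Finset.card_univ, Fintype.card_fin, smul_eq_mul]
  exact h1.trans (Nat.mul_le_mul_right _ (Nat.add_le_add hf.1 hg.1))

theorem res_ne {R : Type*} [CommRing R] [IsDomain R] [UniqueFactorizationMonoid R] (f g : R[X])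
    (hf : Irreducible f) (h1 : 1 ≤ f.natDegree) (hg : ¬ f ∣ g) : resultant f g ≠ 0 := by
  intro h0
  have hprim : f.IsPrimitive := hf.isPrimitive (by omega)
  have hinj : Function.Injective (algebraMap R (FractionRing R)) := IsFractionRing.injective _ _
  have hirr : Irreducible (f.map (algebraMap R (FractionRing R))) :=
    hprim.irreducible_iff_irreducible_map_fraction_map.1 hf
  have h2 := resultant_map_map f g f.natDegree g.natDegree (algebraMap R (FractionRing R))
  have h3 : resultant f g f.natDegree g.natDegree = 0 := h0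
  rw [h3, map_zero] at h2
  have h4 : resultant (f.map (algebraMap R (FractionRing R))) (g.map (algebraMap R (FractionRing R))) = 0 := by
    have e1 := natDegree_map_eq_of_injective hinj f
    have e2 := natDegree_map_eq_of_injective hinj g
    rw [e1, e2]
    exact h2
  rw [resultant_eq_zero_iff] at h4
  apply h4.2
  rw [hirr.coprime_iff_not_dvd]
  intro h5
  exact hg (hprim.dvd_of_fraction_map_dvd_fraction_map h5)

theorem common_zeros {d e1 e2 : ℕ} {R1 G1 : ℚ[X][X]} (hR : Irreducible R1)
    (h1 : 1 ≤ R1.natDegree) (hG : ¬ R1 ∣ G1) (b1 : BD d e1 R1) (b2 : BD d e2 G1) (S : Finset ℚ)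
    (hS : ∀ u ∈ S, ∃ x : ℚ, evalEval u x R1 = 0 ∧ evalEval u x G1 = 0) :
    S.card ≤ (e1 + e2) * d := by
  have h2 := res_ne R1 G1 hR h1 hG
  have h3 := res_deg R1 G1 d e1 e2 b1 b2
  obtain ⟨p, q, -, -, hpq⟩ := exists_mul_add_mul_eq_C_resultant R1 G1 (le_refl _) (le_refl _)
    (Or.inl (by omega : R1.natDegree ≠ 0))
  refine le_trans ?_ h3
  refine card_le_degree_of_subset_roots ?_
  intro u hu
  rw [Finset.mem_val] at hu
  rw [mem_roots h2, IsRoot.def]
  obtain ⟨x, hx1, hx2⟩ := hS u hu
  have h4 := congrArg (evalEvalRingHom u x) hpq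
  rw [map_add, map_mul, map_mul] at h4
  have e1 : evalEvalRingHom u x R1 = 0 := hx1
  have e2 : evalEvalRingHom u x G1 = 0 := hx2
  have e3 : evalEvalRingHom u x (C (resultant R1 G1)) = (resultant R1 G1).eval u :=
    evalEval_C u x _
  rw [e1, e2, e3, zero_mul, zero_mul, add_zero] at h4
  exact h4.symm

end Pool.Agent.H37.TE
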