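import Pool.Agent.H37.TE.Defs

/-! # [H37 TE REL] Linear relations from vanishing determinants, small relations

`rel_rat`: let `W` be the span over `ℚ` of the vectors `(f l s)_l`, `s ∈ S`, in `ι → ℚ`. If `W = ⊤`, then a basis of `ι → ℚ` can be chosen among these vectors (`exists_linearIndependent`, or `Module.Basis` from a spanning set, `finrank = card ι`), indexed by `ι`, so a determinant does not vanish (`LinearIndependent` rows iff `det ≠ 0`: `Matrix.linearIndependent_rows_iff_isUnit`,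
`Matrix.exists_vecMul_eq_zero_iff` / `exists_mulVec_eq_zero_iff`), contradiction (the determinant over `ℚ` is the image of the integral one). If `W ≠ ⊤`: `Submodule.exists_le_ker_of_lt_top` gives a nonzero linear form vanishing on `W`.
`small_kernel`: choose linearly independent vectors among the `(f l s)_l` with the same span (`exists_linearIndependent`), a finite set `b` with `card b < card ι` (the nonzero vector `v` is orthogonal to all, so the span is not everything: `card b = finrank (span)`).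
If `b` is empty: `c = Pi.single l0 1` (`ι` is nonempty since `v ≠ 0`). Otherwise Siegel's lemma `Int.Matrix.exists_ne_zero_int_vec_norm_le` (or `..._le'`) for the matrix with rows `b`: `c ≠ 0` integral, orthogonal to `b`, hence to all `(f l s)_l`, `‖c‖ ≤ (card ι * B)^(m/(n-m))`, `m = card b`, `n = card ι`, exponent `≤ m ≤ card ι`, `1 ≤ card ι * B`. -/

namespace Pool.Agent.H37.TE

open Finset Polynomial

/-- the linear form with coefficients `v` -/
private noncomputable def relForm {ι : Type*} [Fintype ι] (v : ι → ℚ) : (ι → ℚ) →ₗ[ℚ] ℚ where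
  toFun x := ∑ l, v l * x l
  map_add' x y := by
    simp only [Pi.add_apply, mul_add, Finset.sum_add_distrib]
  map_smul' c x := by
    simp only [Pi.smul_apply, smul_eq_mul, RingHom.id_apply, Finset.mul_sum]
    refine Finset.sum_congr rfl fun l _ => by ring

private theorem relForm_apply {ι : Type*} [Fintype ι] (v x : ι → ℚ) : relForm v x = ∑ l, v l * x l := rfl

private theorem relForm_vanish {ι κ σ : Type*} [Fintype ι] (v : ι → ℚ) (g : σ → (ι → ℚ)) (a : κ → σ)
    (hspan : Submodule.span ℚ (Set.range (g ∘ a)) = Submodule.span ℚ (Set.range g))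
    (h : ∀ k, ∑ l, v l * g (a k) l = 0) (s : σ) : ∑ l, v l * g s l = 0 := by
  have h1 : Submodule.span ℚ (Set.range g) ≤ LinearMap.ker (relForm v) := by
    rw [← hspan, Submodule.span_le]
    rintro _ ⟨k, rfl⟩
    exact h k
  exact h1 (Submodule.subset_span ⟨s, rfl⟩)

theorem rel_rat {ι α : Type*} [Fintype ι] [DecidableEq ι] (f : ι → α → ℤ) (S : Set α)
    (h : ∀ P : ι → α, (∀ i, P i ∈ S) → (Matrix.of fun i l => f l (P i)).det = 0) :
    ∃ v : ι → ℚ, v ≠ 0 ∧ ∀ s ∈ S, ∑ l, v l * (f l s : ℚ) = 0 := by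
  classical
  obtain ⟨g, hg⟩ : ∃ g : S → (ι → ℚ), g = fun s => fun l => (f l s.1 : ℚ) := ⟨_, rfl⟩
  obtain ⟨κ, a, hinj, hspan, hli⟩ := exists_linearIndependent' ℚ g
  by_cases htop : Submodule.span ℚ (Set.range g) = ⊤
  · exfalso
    have hb : ⊤ ≤ Submodule.span ℚ (Set.range (g ∘ a)) := by rw [hspan, htop]
    obtain ⟨b, hbd⟩ : ∃ b : Module.Basis κ ℚ (ι → ℚ), ∀ k, b k = (g ∘ a) k :=
      ⟨Module.Basis.mk hli hb, fun k => Module.Basis.mk_apply hli hb k⟩
    have e : ι ≃ κ := (Pi.basisFun ℚ ι).indexEquiv b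
    have hdet := h (fun i => (a (e i)).1) (fun i => (a (e i)).2)
    have hli2 : LinearIndependent ℚ (Matrix.of fun i l => (f l (a (e i)).1 : ℚ)).row := by
      have h1 := hli.comp e e.injective
      have h2 : (g ∘ a) ∘ e = (Matrix.of fun i l => (f l (a (e i)).1 : ℚ)).row := by
        funext i l
        rw [hg]
        rfl
      rw [← h2]
      exact h1
    rw [Matrix.linearIndependent_rows_iff_isUnit, Matrix.isUnit_iff_isUnit_det] at hli2
    refine hli2.ne_zero ?_
    have h3 := congrArg (Int.castRingHom ℚ) hdet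
    rw [RingHom.map_det, map_zero] at h3
    rw [← h3]
    congr 1
  · obtain ⟨φ, hφ, hker⟩ := Submodule.exists_le_ker_of_lt_top _ (lt_top_iff_ne_top.2 htop)
    have hrep : ∀ x : ι → ℚ, φ x = ∑ l, φ (Pi.single l 1) * x l := by
      intro x
      have h1 : x = ∑ l, x l • (Pi.single l (1 : ℚ) : ι → ℚ) := by
        funext j
        simp [Finset.sum_apply, Pi.single_apply]
      conv_lhs => rw [h1, map_sum]
      refine Finset.sum_congr rfl fun l _ => ?_
      rw [map_smul, smul_eq_mul, mul_comm]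
    refine ⟨fun l => φ (Pi.single l 1), ?_, fun s hs => ?_⟩
    · intro h0
      apply hφ
      ext x
      simp only [LinearMap.comp_apply, LinearMap.coe_single, LinearMap.zero_apply]
      exact congrFun h0 x
    · have h1 : φ (g ⟨s, hs⟩) = 0 := hker (Submodule.subset_span ⟨⟨s, hs⟩, rfl⟩)
      rw [hrep, hg] at h1
      exact h1

theorem small_kernel {ι α : Type*} [Fintype ι] (f : ι → α → ℤ) (S : Set α) (B : ℕ) (hB1 : 1 ≤ B)
    (hB : ∀ l, ∀ s ∈ S, |f l s| ≤ (B : ℤ)) (v : ι → ℚ) (hv : v ≠ 0)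
    (hker : ∀ s ∈ S, ∑ l, v l * (f l s : ℚ) = 0) : ∃ c : ι → ℤ, c ≠ 0 ∧
      (∀ s ∈ S, ∑ l, c l * f l s = 0) ∧
      ∀ l, |c l| ≤ (((Fintype.card ι * B) ^ Fintype.card ι : ℕ) : ℤ) := by
  classical
  have hne : Nonempty ι := by
    by_contra hne
    rw [not_nonempty_iff] at hne
    exact hv (Subsingleton.elim _ _)
  have hcard : 1 ≤ Fintype.card ι := Fintype.card_pos
  obtain ⟨g, hg⟩ : ∃ g : S → (ι → ℚ), g = fun s => fun l => (f l s.1 : ℚ) := ⟨_, rfl⟩
  obtain ⟨κ, a, hinj, hspan, hli⟩ := exists_linearIndependent' ℚ g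
  have hfin : Finite κ := hli.finite
  have hft : Fintype κ := Fintype.ofFinite κ
  have hlt : Fintype.card κ < Fintype.card ι := by
    have h1 : Fintype.card κ ≤ Module.finrank ℚ (ι → ℚ) := hli.fintype_card_le_finrank
    rw [Module.finrank_fintype_fun_eq_card] at h1
    refine lt_of_le_of_ne h1 fun h2 => hv ?_
    have h3 : Submodule.span ℚ (Set.range (g ∘ a)) = ⊤ :=
      hli.span_eq_top_of_card_eq_finrank' (by rw [Module.finrank_fintype_fun_eq_card]; exact h2)
    have h4 : (⊤ : Submodule ℚ (ι → ℚ)) ≤ LinearMap.ker (relForm v) := by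
      rw [← h3, Submodule.span_le]
      rintro _ ⟨k, rfl⟩
      have h5 := hker (a k).1 (a k).2
      show relForm v ((g ∘ a) k) = 0
      rw [relForm_apply, hg]
      exact h5
    funext l
    have h6 : relForm v (Pi.single l 1) = 0 := h4 (Submodule.mem_top)
    rw [relForm_apply] at h6
    simpa [Pi.single_apply] using h6
  have hS : ∀ c : ι → ℤ, (∀ k, ∑ l, (c l : ℚ) * g (a k) l = 0) → ∀ s ∈ S, ∑ l, c l * f l s = 0 := by
    intro c hc s hs
    have h1 := relForm_vanish (fun l => (c l : ℚ)) g a hspan hc ⟨s, hs⟩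
    rw [hg] at h1
    have h2 : ((∑ l, c l * f l s : ℤ) : ℚ) = 0 := by
      push_cast
      exact h1
    exact_mod_cast h2
  have hone : 1 ≤ Fintype.card ι * B := Nat.mul_pos hcard hB1
  rcases Nat.eq_zero_or_pos (Fintype.card κ) with h0 | hpos
  · have hem : IsEmpty κ := Fintype.card_eq_zero_iff.1 h0
    refine ⟨fun _ => 1, ?_, hS _ (fun k => (hem.false k).elim), fun l => ?_⟩
    · intro h1
      have h2 := congrFun h1 hne.some
      simp at h2
    · have h3 : 1 ≤ (Fintype.card ι * B) ^ Fintype.card ι := Nat.one_le_pow _ _ hone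
      simp only [abs_one]
      exact_mod_cast h3
  · obtain ⟨A, hA⟩ : ∃ A : Matrix κ ι ℤ, A = Matrix.of fun k l => f l (a k).1 := ⟨_, rfl⟩
    obtain ⟨t, ht0, ht1, ht2⟩ := Int.Matrix.exists_ne_zero_int_vec_norm_le A hlt hpos
    refine ⟨t, ht0, hS _ (fun k => ?_), fun l => ?_⟩
    · have h1 := congrFun ht1 k
      rw [hA] at h1
      have h2 : ∑ l, f l (a k).1 * t l = 0 := h1
      have h3 : ((∑ l, f l (a k).1 * t l : ℤ) : ℚ) = 0 := by rw [h2, Int.cast_zero]
      push_cast at h3
      rw [← h3, hg]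
      refine Finset.sum_congr rfl fun l _ => by ring
    · have hBr : (1 : ℝ) ≤ (B : ℝ) := by exact_mod_cast hB1
      have hAn : @norm _ (@SeminormedAddCommGroup.toNorm _ (Matrix.seminormedAddCommGroup)) A ≤ (B : ℝ) := by
        letI := @Matrix.seminormedAddCommGroup κ ι ℤ _ _ _
        rw [Matrix.norm_le_iff (by linarith)]
        intro k l
        rw [hA, Int.norm_eq_abs]
        have h1 := hB l (a k).1 (a k).2
        have h2 : (((|f l (a k).1| : ℤ)) : ℝ) ≤ (((B : ℤ)) : ℝ) := by exact_mod_cast h1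
        push_cast at h2
        exact h2
      have hnr : (1 : ℝ) ≤ (Fintype.card ι : ℝ) := by exact_mod_cast hcard
      have hmr : (0 : ℝ) ≤ (Fintype.card κ : ℝ) := Nat.cast_nonneg _
      have hlr : (Fintype.card κ : ℝ) + 1 ≤ (Fintype.card ι : ℝ) := by exact_mod_cast hlt
      have hex : (Fintype.card κ : ℝ) / ((Fintype.card ι : ℝ) - Fintype.card κ) ≤ (Fintype.card ι : ℝ) := by
        rw [div_le_iff₀ (by linarith)]
        nlinarith
      have hex0 : 0 ≤ (Fintype.card κ : ℝ) / ((Fintype.card ι : ℝ) - Fintype.card κ) :=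
        div_nonneg hmr (by linarith)
      have hbase : (1 : ℝ) ≤ (Fintype.card ι : ℝ) * B := by nlinarith
      have h1 : ‖t‖ ≤ ((Fintype.card ι : ℝ) * B) ^ (Fintype.card ι : ℝ) := by
        refine ht2.trans ?_
        refine (Real.rpow_le_rpow ?_ ?_ hex0).trans (Real.rpow_le_rpow_of_exponent_le hbase hex)
        · exact mul_nonneg (by linarith) (zero_le_one.trans (le_max_left _ _))
        · exact mul_le_mul_of_nonneg_left (max_le hBr hAn) (by linarith)
      rw [Real.rpow_natCast] at h1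
      have h2 : ‖t l‖ ≤ ‖t‖ := norm_le_pi_norm t l
      rw [Int.norm_eq_abs] at h2
      have h3 : (|(t l : ℝ)|) ≤ ((Fintype.card ι : ℝ) * B) ^ Fintype.card ι := h2.trans h1
      have h4 : ((|t l| : ℤ) : ℝ) ≤ ((((Fintype.card ι * B) ^ Fintype.card ι : ℕ) : ℤ) : ℝ) := by
        push_cast
        exact h3
      exact_mod_cast h4

/-- the integral form of `rel_rat` -/
theorem rel_int {ι α : Type*} [Fintype ι] [DecidableEq ι] (f : ι → α → ℤ) (S : Set α)
    (h : ∀ P : ι → α, (∀ i, P i ∈ S) → (Matrix.of fun i l => f l (P i)).det = 0) :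
    ∃ c : ι → ℤ, c ≠ 0 ∧ ∀ s ∈ S, ∑ l, c l * f l s = 0 := by
  classical
  obtain ⟨v, hv, hker⟩ := rel_rat f S h
  obtain ⟨b, hb⟩ := IsLocalization.exist_integer_multiples_of_finite (nonZeroDivisors ℤ) v
  have hb0 : ((b : ℤ) : ℚ) ≠ 0 := by
    exact_mod_cast nonZeroDivisors.coe_ne_zero b
  choose c hc using hb
  have hc' : ∀ l, (c l : ℚ) = (b : ℤ) * v l := by
    intro l
    have h1 := hc l
    rw [eq_intCast, zsmul_eq_mul] at h1
    exact h1
  refine ⟨c, ?_, fun s hs => ?_⟩
  · intro h0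
    apply hv
    funext l
    have h1 := hc' l
    rw [h0] at h1
    simp only [Pi.zero_apply, Int.cast_zero] at h1
    exact (mul_eq_zero.1 h1.symm).resolve_left hb0
  · have h1 : ((∑ l, c l * f l s : ℤ) : ℚ) = 0 := by
      push_cast
      have h2 : ∑ l, (c l : ℚ) * (f l s : ℚ) = (b : ℤ) * ∑ l, v l * (f l s : ℚ) := by
        rw [Finset.mul_sum]
        refine Finset.sum_congr rfl fun l _ => ?_
        rw [hc' l]
        ring
      rw [h2, hker s hs, mul_zero]
    exact_mod_cast h1

end Pool.Agent.H37.TE
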