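import Pool.Agent.H37.TE.Pdt
import Pool.Agent.H37.TE.Rel
import Pool.Agent.H37.TE.Czr

/-! # [H37 TE CLP] The points in one class modulo a prime

`ι = Fin I × Fin e`, `N = I * e`, functions `g (i,j) = C (X^i) * X^j ∈ ℤ[X][X]`, `evalEval u x g = u^i x^j`. For `P : ι → ℤ × ℤ` with values in `T` the determinant is divisible by `p^(N(N-1)/2)` (`padic_det`, reindex by `ι ≃ Fin N`, `Matrix.det_submatrix_equiv_self`),
its absolute value is at most `N! ∏_(i,j) U^i B^j = N! U^(e I(I-1)/2) B^(I e(e-1)/2)` (`Matrix.det_apply`, `Finset.abs_sum_le_sum_abs`; column `(i,j)` is at most `U^i B^j`), which is smaller (`hbig`), so it is zero (`Int.eq_zero_of_abs_lt_dvd`). `rel_rat`: `v`, `G1 = ∑ C (C v_ij * X^i) * X^j ∈ ℚ[X][X]`, `G1 ≠ 0`, `BD (d+I) e G1`, degree `< e`,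
`evalEval u x G1 = 0` on `T`. `qP R2` does not divide `G1` (degree `e`). `common_zeros` for the set of the `u` (cast to `ℚ`). -/

namespace Pool.Agent.H37.TE

open Finset Polynomial

private theorem clp_mon {S : Type*} [CommRing S] (a x : S) (i j : ℕ) :
    evalEval a x (C (X ^ i) * X ^ j : S[X][X]) = a ^ i * x ^ j := by
  rw [evalEval, eval_mul, eval_C, eval_pow, eval_X, eval_mul, eval_pow, eval_pow, eval_X, eval_C]

private theorem clp_det {I e U B : ℕ} (P : Fin I × Fin e → ℤ × ℤ)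
    (hP : ∀ l, 0 ≤ (P l).1 ∧ (P l).1 ≤ U ∧ |(P l).2| ≤ B) :
    |(Matrix.of fun (i l : Fin I × Fin e) => (P i).1 ^ (l.1 : ℕ) * (P i).2 ^ (l.2 : ℕ)).det| ≤
      (((I * e).factorial * (U ^ (e * (I * (I - 1) / 2)) * B ^ (I * (e * (e - 1) / 2))) : ℕ) : ℤ) := by
  classical
  rw [Matrix.det_apply]
  refine (abs_sum_le_sum_abs _ _).trans ?_
  have h1 : ∀ σ ∈ (univ : Finset (Equiv.Perm (Fin I × Fin e))),
      |Equiv.Perm.sign σ • ∏ l, (Matrix.of fun (i l : Fin I × Fin e) =>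
        (P i).1 ^ (l.1 : ℕ) * (P i).2 ^ (l.2 : ℕ)) (σ l) l| ≤
      ((U ^ (e * (I * (I - 1) / 2)) * B ^ (I * (e * (e - 1) / 2)) : ℕ) : ℤ) := by
    intro σ _
    have h2 : |Equiv.Perm.sign σ • ∏ l, (Matrix.of fun (i l : Fin I × Fin e) =>
        (P i).1 ^ (l.1 : ℕ) * (P i).2 ^ (l.2 : ℕ)) (σ l) l| =
        ∏ l : Fin I × Fin e, |(P (σ l)).1 ^ (l.1 : ℕ) * (P (σ l)).2 ^ (l.2 : ℕ)| := by
      rw [Units.smul_def, zsmul_eq_mul, abs_mul, abs_prod]
      rcases Int.units_eq_one_or (Equiv.Perm.sign σ) with h | h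
      · rw [h]
        simp
      · rw [h]
        simp
    rw [h2]
    have h3 : ∏ l : Fin I × Fin e, |(P (σ l)).1 ^ (l.1 : ℕ) * (P (σ l)).2 ^ (l.2 : ℕ)| ≤
        ∏ l : Fin I × Fin e, ((U : ℤ) ^ (l.1 : ℕ) * (B : ℤ) ^ (l.2 : ℕ)) := by
      refine prod_le_prod (fun l _ => abs_nonneg _) fun l _ => ?_
      rw [abs_mul, abs_pow, abs_pow, abs_of_nonneg (hP (σ l)).1]
      exact mul_le_mul (pow_le_pow_left₀ (hP (σ l)).1 (hP (σ l)).2.1 _)
        (pow_le_pow_left₀ (abs_nonneg _) (hP (σ l)).2.2 _) (by positivity) (by positivity)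
    refine h3.trans (le_of_eq ?_)
    have hs : ∀ n : ℕ, ∑ i : Fin n, (i : ℕ) = n * (n - 1) / 2 := by
      intro n
      rw [Fin.sum_univ_eq_sum_range (fun i => i) n, sum_range_id]
    rw [Fintype.prod_prod_type]
    have h4 : ∀ i : Fin I, ∏ j : Fin e, ((U : ℤ) ^ (i : ℕ) * (B : ℤ) ^ (j : ℕ)) =
        ((U : ℤ) ^ e) ^ (i : ℕ) * (B : ℤ) ^ (e * (e - 1) / 2) := by
      intro i
      rw [prod_mul_distrib, prod_const, card_univ, Fintype.card_fin, prod_pow_eq_pow_sum, hs,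
        ← pow_mul, ← pow_mul, mul_comm (i : ℕ) e]
    rw [prod_congr rfl fun i _ => h4 i, prod_mul_distrib, prod_pow_eq_pow_sum, hs, prod_const,
      card_univ, Fintype.card_fin, ← pow_mul, ← pow_mul, mul_comm (e * (e - 1) / 2) I]
    push_cast
    rfl
  refine (sum_le_sum h1).trans ?_
  rw [sum_const, card_univ, Fintype.card_perm, Fintype.card_prod, Fintype.card_fin,
    Fintype.card_fin, nsmul_eq_mul]
  push_cast
  exact le_rfl

theorem class_bound {d e I : ℕ} (hI : 1 ≤ I) {R2 : ℤ[X][X]} (hirr : Irreducible (qP R2))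
    (he : R2.natDegree = e) (he1 : 1 ≤ e) (hb : BD d e R2) {p : ℕ} (hp : p.Prime) (U B : ℕ)
    (hbig : (I * e).factorial * (U ^ (e * (I * (I - 1) / 2)) * B ^ (I * (e * (e - 1) / 2))) <
      p ^ ((I * e) * (I * e - 1) / 2)) (a0 x0 : ℤ)
    (h0 : ¬ (p : ℤ) ∣ evalEval a0 x0 (derivative R2)) (T : Finset (ℤ × ℤ))
    (hT : ∀ t ∈ T, 0 ≤ t.1 ∧ t.1 ≤ U ∧ |t.2| ≤ B ∧ evalEval t.1 t.2 R2 = 0 ∧
      (p : ℤ) ∣ t.1 - a0 ∧ (p : ℤ) ∣ t.2 - x0) :
    (T.image Prod.fst).card ≤ (e + e) * (d + I) := by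
  classical
  obtain ⟨v, hv, hker⟩ := rel_rat (ι := Fin I × Fin e) (α := ℤ × ℤ)
    (fun l s => s.1 ^ (l.1 : ℕ) * s.2 ^ (l.2 : ℕ)) (T : Set (ℤ × ℤ)) (by
      intro P hP
      have hP' : ∀ l, P l ∈ T := fun l => Finset.mem_coe.1 (hP l)
      refine Int.eq_zero_of_abs_lt_dvd (m := (p : ℤ) ^ ((I * e) * (I * e - 1) / 2)) ?_ ?_
      · have h1 := padic_det hp R2 (N := I * e) (fun i => (P (finProdFinEquiv.symm i)).1)
          (fun i => (P (finProdFinEquiv.symm i)).2) a0 x0 h0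
          (fun i => (hT _ (hP' _)).2.2.2.1) (fun i => (hT _ (hP' _)).2.2.2.2.1)
          (fun i => (hT _ (hP' _)).2.2.2.2.2)
          (fun l => C (X ^ ((finProdFinEquiv.symm l : Fin I × Fin e).1 : ℕ)) *
            X ^ ((finProdFinEquiv.symm l : Fin I × Fin e).2 : ℕ))
        have h2 : (Matrix.of fun (i l : Fin (I * e)) => evalEval (P (finProdFinEquiv.symm i)).1
            (P (finProdFinEquiv.symm i)).2
            (C (X ^ ((finProdFinEquiv.symm l : Fin I × Fin e).1 : ℕ)) *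
              X ^ ((finProdFinEquiv.symm l : Fin I × Fin e).2 : ℕ) : ℤ[X][X])) =
            (Matrix.of fun (i l : Fin I × Fin e) =>
              (P i).1 ^ (l.1 : ℕ) * (P i).2 ^ (l.2 : ℕ)).submatrix finProdFinEquiv.symm
              finProdFinEquiv.symm := by
          ext i l
          rw [Matrix.submatrix_apply, Matrix.of_apply, Matrix.of_apply, clp_mon]
        rw [h2, Matrix.det_submatrix_equiv_self] at h1
        exact h1
      · refine (clp_det P fun l => ⟨(hT _ (hP' l)).1, (hT _ (hP' l)).2.1,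
          (hT _ (hP' l)).2.2.1⟩).trans_lt ?_
        exact_mod_cast hbig)
  obtain ⟨G1, hG1⟩ : ∃ G1 : ℚ[X][X], G1 = ∑ l : Fin I × Fin e,
    C (C (v l) * X ^ (l.1 : ℕ)) * X ^ (l.2 : ℕ) := ⟨_, rfl⟩
  have hcoef : ∀ j, G1.coeff j = ∑ l : Fin I × Fin e,
      if j = (l.2 : ℕ) then C (v l) * X ^ (l.1 : ℕ) else 0 := by
    intro j
    rw [hG1, finsetSum_coeff]
    refine sum_congr rfl fun l _ => ?_
    rw [coeff_C_mul, coeff_X_pow]
    split_ifs
    · rw [mul_one]
    · rw [mul_zero]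
  have hdeg : G1.natDegree ≤ e - 1 := by
    rw [hG1]
    refine natDegree_sum_le_of_forall_le _ _ fun l _ => ?_
    refine (natDegree_C_mul_X_pow_le _ _).trans ?_
    have := l.2.2
    omega
  have hdegc : ∀ j, (G1.coeff j).natDegree ≤ d + I := by
    intro j
    rw [hcoef]
    refine natDegree_sum_le_of_forall_le _ _ fun l _ => ?_
    split_ifs
    · refine (natDegree_C_mul_X_pow_le _ _).trans ?_
      have := l.1.2
      omega
    · rw [natDegree_zero]
      exact Nat.zero_le _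
  have hG0 : G1 ≠ 0 := by
    intro h
    apply hv
    funext l0
    have h1 := hcoef (l0.2 : ℕ)
    rw [h, coeff_zero] at h1
    have h2 := congrArg (fun q : ℚ[X] => q.coeff (l0.1 : ℕ)) h1
    simp only [coeff_zero, finsetSum_coeff] at h2
    rw [sum_eq_single l0] at h2
    · rw [if_pos rfl, coeff_C_mul, coeff_X_pow, if_pos rfl, mul_one] at h2
      exact h2.symm
    · intro l _ hl
      by_cases hj : (l0.2 : ℕ) = (l.2 : ℕ)
      · rw [if_pos hj, coeff_C_mul, coeff_X_pow, if_neg, mul_zero]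
        intro hi
        exact hl (Prod.ext (Fin.ext hi.symm) (Fin.ext hj.symm))
      · rw [if_neg hj, coeff_zero]
    · intro hh
      exact absurd (mem_univ _) hh
  have hinj : Function.Injective (mapRingHom (Int.castRingHom ℚ)) :=
    map_injective _ (RingHom.injective_int _)
  have hqdeg : (qP R2).natDegree = e := by
    unfold qP
    rw [natDegree_map_eq_of_injective hinj, he]
  have hndvd : ¬ qP R2 ∣ G1 := by
    intro h
    have h1 := natDegree_le_of_dvd h hG0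
    rw [hqdeg] at h1
    omega
  have hb1 : BD (d + I) e (qP R2) := by
    refine ⟨le_of_eq hqdeg, fun j => ?_⟩
    unfold qP
    rw [coeff_map]
    refine natDegree_map_le.trans ?_
    have := hb.2 j
    omega
  have hb2 : BD (d + I) e G1 := ⟨by omega, hdegc⟩
  have hzero : ∀ t ∈ T, evalEval (t.1 : ℚ) (t.2 : ℚ) G1 = 0 := by
    intro t ht
    have h1 := hker t (Finset.mem_coe.2 ht)
    rw [← h1, hG1, evalEval, eval_finsetSum, eval_finsetSum]
    refine sum_congr rfl fun l _ => ?_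
    rw [eval_mul, eval_C, eval_pow, eval_X, eval_mul, eval_mul, eval_C, eval_pow, eval_X, eval_pow,
      eval_C]
    push_cast
    ring
  have hfin := common_zeros hirr (by rw [hqdeg]; exact he1) hndvd hb1 hb2
    ((T.image Prod.fst).image (fun u : ℤ => (u : ℚ))) (by
      intro u hu
      obtain ⟨a, ha, rfl⟩ := Finset.mem_image.1 hu
      obtain ⟨t, ht, rfl⟩ := Finset.mem_image.1 ha
      refine ⟨(t.2 : ℚ), ?_, hzero t ht⟩
      have h1 := map_mapRingHom_evalEval (p := R2) (Int.castRingHom ℚ) t.1 t.2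
      rw [(hT t ht).2.2.2.1, map_zero] at h1
      exact h1)
  rw [Finset.card_image_of_injective _ Int.cast_injective] at hfin
  exact hfin

end Pool.Agent.H37.TE
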