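import Pool.Agent.H37.TE.Clp

/-! # [H37 TE CLS] All points with a prime not dividing the derivative

The set `T` is divided by the classes of `(t.1, t.2)` modulo `p` (map to `ZMod p × ZMod p`): for `a ∈ ZMod p` the classes `(a, z)` which occur satisfy: `z` is a root of the polynomial `R2(a, ·) ∈ (ZMod p)[X]`, which is not zero (its derivative does not vanish at `z`) and has degree `≤ e` (`Polynomial.card_roots'`, `Multiset.toFinset_card_le`), so there are at most `e` of them,
together at most `p * e` classes (`Finset.card_biUnion_le`, `Finset.card_le_mul_card_image` or `card_eq_sum_card_fiberwise`). In each class `class_bound` with `(a0, x0)` a point of the class. -/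

namespace Pool.Agent.H37.TE

open Finset Polynomial

theorem prime_bound {d e I : ℕ} (hI : 1 ≤ I) {R2 : ℤ[X][X]} (hirr : Irreducible (qP R2))
    (he : R2.natDegree = e) (he1 : 1 ≤ e) (hb : BD d e R2) {p : ℕ} (hp : p.Prime) (U B : ℕ)
    (hbig : (I * e).factorial * (U ^ (e * (I * (I - 1) / 2)) * B ^ (I * (e * (e - 1) / 2))) <
      p ^ ((I * e) * (I * e - 1) / 2)) (T : Finset (ℤ × ℤ))
    (hT : ∀ t ∈ T, 0 ≤ t.1 ∧ t.1 ≤ U ∧ |t.2| ≤ B ∧ evalEval t.1 t.2 R2 = 0 ∧
      ¬ (p : ℤ) ∣ evalEval t.1 t.2 (derivative R2)) :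
    (T.image Prod.fst).card ≤ p * e * ((e + e) * (d + I)) := by
  classical
  have := Fact.mk hp
  obtain ⟨κ, hκ⟩ : ∃ κ : ℤ × ℤ → ZMod p × ZMod p, ∀ t, κ t = ((t.1 : ZMod p), (t.2 : ZMod p)) :=
    ⟨_, fun _ => rfl⟩
  -- one class
  have hcls : ∀ c ∈ T.image κ, ((T.filter fun t => κ t = c).image Prod.fst).card ≤
      (e + e) * (d + I) := by
    intro c hc
    obtain ⟨t0, ht0, rfl⟩ := Finset.mem_image.1 hc
    refine class_bound hI hirr he he1 hb hp U B hbig t0.1 t0.2 (hT t0 ht0).2.2.2.2 _ ?_
    intro t ht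
    rw [Finset.mem_filter, hκ, hκ] at ht
    obtain ⟨ht1, ht2⟩ := ht
    have h2 := Prod.mk.inj ht2
    obtain ⟨g1, g2, g3, g4, -⟩ := hT t ht1
    refine ⟨g1, g2, g3, g4, ?_, ?_⟩
    · exact (ZMod.intCast_eq_intCast_iff_dvd_sub _ _ _).1 h2.1.symm
    · exact (ZMod.intCast_eq_intCast_iff_dvd_sub _ _ _).1 h2.2.symm
  -- the number of classes
  have hnum : (T.image κ).card ≤ e * p := by
    refine (Finset.card_le_mul_card_image (f := Prod.fst) (T.image κ) e ?_).trans ?_
    · intro a ha
      obtain ⟨f, hf⟩ : ∃ f : (ZMod p)[X], f = (R2.map (mapRingHom (Int.castRingHom (ZMod p)))).map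
        (evalRingHom a) := ⟨_, rfl⟩
      have hval : ∀ t ∈ T, (t.1 : ZMod p) = a → f.eval (t.2 : ZMod p) = 0 ∧
          f.derivative.eval (t.2 : ZMod p) ≠ 0 := by
        intro t ht hta
        constructor
        · rw [hf, map_evalRingHom_eval, ← hta]
          have h1 := map_mapRingHom_evalEval (p := R2) (Int.castRingHom (ZMod p)) t.1 t.2
          rw [(hT t ht).2.2.2.1, map_zero] at h1
          exact h1
        · rw [hf, derivative_map, derivative_map, map_evalRingHom_eval, ← hta]
          have h1 := map_mapRingHom_evalEval (p := derivative R2) (Int.castRingHom (ZMod p)) t.1 t.2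
          intro h2
          apply (hT t ht).2.2.2.2
          rw [← ZMod.intCast_zmod_eq_zero_iff_dvd]
          exact h1.symm.trans h2
      have hfdeg : f.natDegree ≤ e := by
        rw [hf]
        exact natDegree_map_le.trans (natDegree_map_le.trans (le_of_eq he))
      have hf0 : f ≠ 0 := by
        obtain ⟨c, hc, hca⟩ := Finset.mem_image.1 ha
        obtain ⟨t, ht, htc⟩ := Finset.mem_image.1 hc
        rw [← htc, hκ] at hca
        intro h
        apply (hval t ht hca).2
        rw [h, derivative_zero, eval_zero]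
      refine le_trans ?_ ((Multiset.toFinset_card_le f.roots).trans ((card_roots' f).trans hfdeg))
      refine Finset.card_le_card_of_injOn Prod.snd ?_ ?_
      · intro c hc
        obtain ⟨hc1, hc2⟩ := Finset.mem_filter.1 (Finset.mem_coe.1 hc)
        obtain ⟨t, ht, htc⟩ := Finset.mem_image.1 hc1
        rw [hκ] at htc
        rw [← htc] at hc2 ⊢
        refine Finset.mem_coe.2 ?_
        rw [Multiset.mem_toFinset, mem_roots hf0]
        exact (hval t ht hc2).1
      · intro c hc c' hc' hcc
        have h1 := (Finset.mem_filter.1 (Finset.mem_coe.1 hc)).2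
        have h2 := (Finset.mem_filter.1 (Finset.mem_coe.1 hc')).2
        exact Prod.ext (h1.trans h2.symm) hcc
    · refine Nat.mul_le_mul_left _ ?_
      exact (Finset.card_le_univ _).trans (le_of_eq (ZMod.card p))
  have hsub : T.image Prod.fst ⊆ (T.image κ).biUnion fun c =>
      (T.filter fun t => κ t = c).image Prod.fst := by
    intro u hu
    obtain ⟨t, ht, rfl⟩ := Finset.mem_image.1 hu
    rw [Finset.mem_biUnion]
    exact ⟨κ t, Finset.mem_image_of_mem κ ht, Finset.mem_image_of_mem _
      (Finset.mem_filter.2 ⟨ht, rfl⟩)⟩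
  calc (T.image Prod.fst).card ≤ _ := Finset.card_le_card hsub
    _ ≤ (T.image κ).card * ((e + e) * (d + I)) := Finset.card_biUnion_le_card_mul _ _ _ hcls
    _ ≤ (e * p) * ((e + e) * (d + I)) := Nat.mul_le_mul_right _ hnum
    _ = p * e * ((e + e) * (d + I)) := by rw [mul_comm e p]

end Pool.Agent.H37.TE
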