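import Pool.Agent.H37.TE.Rel
import Pool.Agent.H37.TE.Czr

/-! # [H37 TE HGT] An irreducible polynomial with many small integral points has a small multiple

`ι = Fin (d+1) × Fin (e+1)`, `f (i,j) (u,x) = u^i x^j`, `v (i,j) = (R1.coeff j).coeff i` (`∑ v f = evalEval u x R1`), `v ≠ 0`. `small_kernel` with the bound `U^d B^e`: `c`. `R2 = ∑_(i,j) C (C c_ij * X^i) * X^j ∈ ℤ[X][X]`, `BD d e R2`, `evalEval u x R2 = 0` on `T`, `R2 ≠ 0`.
`R1 ∣ qP R2`: otherwise `common_zeros` bounds the number of the `u` by `(e + e) d`. So `qP R2 = R1 * Q`. `Q ≠ 0`, `Q.natDegree = 0` (`e = R1.natDegree`, `natDegree_mul`), `Q = C q`, `R2.coeff j = R1.coeff j * q` with `natDegree (R1.coeff j0) = d` for some `j0`, `q ≠ 0`, so `natDegree q = 0`, `q = C c`, `c ≠ 0`. -/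

namespace Pool.Agent.H37.TE

open Finset Polynomial

/-- the value of a bivariate polynomial -/
private theorem hgt_eval {R : Type*} [CommRing R] {d e : ℕ} {P : R[X][X]} (hP : BD d e P)
    (u x : R) : evalEval u x P = ∑ p : Fin (d + 1) × Fin (e + 1),
      (P.coeff p.2).coeff p.1 * (u ^ (p.1 : ℕ) * x ^ (p.2 : ℕ)) := by
  have h1 : P.eval (C x) = ∑ j ∈ range (e + 1), P.coeff j * (C x) ^ j :=
    eval_eq_sum_range' (Nat.lt_succ_of_le hP.1) _
  have h2 : ∀ j, (P.coeff j).eval u = ∑ i ∈ range (d + 1), (P.coeff j).coeff i * u ^ i :=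
    fun j => eval_eq_sum_range' (Nat.lt_succ_of_le (hP.2 j)) _
  unfold evalEval
  rw [h1, eval_finsetSum, Fintype.sum_prod_type, sum_comm]
  rw [← Fin.sum_univ_eq_sum_range (fun j => (P.coeff j * (C x) ^ j).eval u) (e + 1)]
  refine sum_congr rfl fun j _ => ?_
  rw [eval_mul, eval_pow, eval_C, h2, sum_mul,
    ← Fin.sum_univ_eq_sum_range (fun i => (P.coeff j).coeff i * u ^ i * x ^ (j : ℕ)) (d + 1)]
  refine sum_congr rfl fun i _ => ?_
  ring

/-- the polynomial with given coefficients -/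
private noncomputable def mkP {d e : ℕ} (c : Fin (d + 1) × Fin (e + 1) → ℤ) : ℤ[X][X] :=
  ∑ p : Fin (d + 1) × Fin (e + 1), C (C (c p) * X ^ (p.1 : ℕ)) * X ^ (p.2 : ℕ)

private theorem mkP_coeff {d e : ℕ} (c : Fin (d + 1) × Fin (e + 1) → ℤ) (i j : ℕ) :
    ((mkP c).coeff j).coeff i = ∑ p : Fin (d + 1) × Fin (e + 1),
      if j = (p.2 : ℕ) then (if i = (p.1 : ℕ) then c p else 0) else 0 := by
  unfold mkP
  rw [finsetSum_coeff, finsetSum_coeff]
  refine sum_congr rfl fun p _ => ?_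
  rw [coeff_C_mul_X_pow]
  split_ifs with h1 h2
  · rw [coeff_C_mul_X_pow, if_pos h2]
  · rw [coeff_C_mul_X_pow, if_neg h2]
  · rw [coeff_zero]

private theorem mkP_coeff_in {d e : ℕ} (c : Fin (d + 1) × Fin (e + 1) → ℤ)
    (p : Fin (d + 1) × Fin (e + 1)) : ((mkP c).coeff p.2).coeff p.1 = c p := by
  rw [mkP_coeff, sum_eq_single p]
  · rw [if_pos rfl, if_pos rfl]
  · intro b _ hb
    by_cases h1 : (p.2 : ℕ) = b.2
    · rw [if_pos h1]
      by_cases h2 : (p.1 : ℕ) = b.1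
      · exact absurd (Prod.ext (Fin.ext h2.symm) (Fin.ext h1.symm)) hb
      · rw [if_neg h2]
    · rw [if_neg h1]
  · intro h
    exact absurd (mem_univ _) h

private theorem mkP_bd {d e : ℕ} (c : Fin (d + 1) × Fin (e + 1) → ℤ) : BD d e (mkP c) := by
  constructor
  · unfold mkP
    refine natDegree_sum_le_of_forall_le _ _ fun p _ => ?_
    exact (natDegree_C_mul_X_pow_le _ _).trans (Nat.lt_succ_iff.1 p.2.2)
  · intro j
    rw [natDegree_le_iff_coeff_eq_zero]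
    intro N hN
    rw [mkP_coeff]
    refine sum_eq_zero fun p _ => ?_
    have h1 := p.1.2
    rw [if_neg (show ¬ N = (p.1 : ℕ) by omega), ite_self]

private theorem qP_coeff (R : ℤ[X][X]) (i j : ℕ) :
    ((qP R).coeff j).coeff i = (((R.coeff j).coeff i : ℤ) : ℚ) := by
  unfold qP
  rw [coeff_map, coe_mapRingHom, coeff_map]
  rfl

private theorem qP_bd {d e : ℕ} {R : ℤ[X][X]} (h : BD d e R) : BD d e (qP R) := by
  constructor
  · exact natDegree_map_le.trans h.1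
  · intro j
    unfold qP
    rw [coeff_map, coe_mapRingHom]
    exact natDegree_map_le.trans (h.2 j)

private theorem bd_zero {R : Type*} [CommRing R] {d e : ℕ} {P : R[X][X]} (hP : BD d e P)
    (h : ∀ p : Fin (d + 1) × Fin (e + 1), (P.coeff p.2).coeff p.1 = 0) : P = 0 := by
  ext j i
  rw [coeff_zero, coeff_zero]
  by_cases hj : j ≤ e
  · by_cases hi : i ≤ d
    · exact h (⟨i, Nat.lt_succ_of_le hi⟩, ⟨j, Nat.lt_succ_of_le hj⟩)
    · exact coeff_eq_zero_of_natDegree_lt ((hP.2 j).trans_lt (not_le.1 hi))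
  · rw [coeff_eq_zero_of_natDegree_lt (hP.1.trans_lt (not_le.1 hj)), coeff_zero]

theorem int_height {d e : ℕ} {R1 : ℚ[X][X]} (hR : Irreducible R1) (he : R1.natDegree = e)
    (he1 : 1 ≤ e) (hd : ∃ j, (R1.coeff j).natDegree = d) (hb : BD d e R1) (U B : ℕ) (hU : 1 ≤ U)
    (hB : 1 ≤ B) (T : Finset (ℤ × ℤ))
    (hT : ∀ t ∈ T, 0 ≤ t.1 ∧ t.1 ≤ U ∧ |t.2| ≤ B ∧ evalEval (t.1 : ℚ) (t.2 : ℚ) R1 = 0)
    (hc : (e + e) * d < (T.image Prod.fst).card) :
    ∃ (R2 : ℤ[X][X]) (c : ℚ), c ≠ 0 ∧ qP R2 = C (C c) * R1 ∧ R2.natDegree = e ∧ BD d e R2 ∧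
      ∀ i j, |(R2.coeff j).coeff i| ≤
        ((((d + 1) * (e + 1) * (U ^ d * B ^ e)) ^ ((d + 1) * (e + 1)) : ℕ) : ℤ) := by
  have hR0 : R1 ≠ 0 := hR.ne_zero
  obtain ⟨f, hf⟩ : ∃ f : Fin (d + 1) × Fin (e + 1) → ℤ × ℤ → ℤ,
    f = fun p t => t.1 ^ (p.1 : ℕ) * t.2 ^ (p.2 : ℕ) := ⟨_, rfl⟩
  obtain ⟨v, hv⟩ : ∃ v : Fin (d + 1) × Fin (e + 1) → ℚ,
    v = fun p => (R1.coeff p.2).coeff p.1 := ⟨_, rfl⟩
  have hv0 : v ≠ 0 := by
    intro h
    apply hR0
    apply bd_zero hb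
    intro p
    have := congrFun h p
    rw [hv] at this
    exact this
  have hB1 : 1 ≤ U ^ d * B ^ e := Nat.one_le_iff_ne_zero.2 (by positivity)
  have hUc : (1 : ℤ) ≤ U := by exact_mod_cast hU
  have hBc : (1 : ℤ) ≤ B := by exact_mod_cast hB
  obtain ⟨c, hc0, hcS, hcb⟩ := small_kernel f (↑T : Set (ℤ × ℤ)) (U ^ d * B ^ e) hB1 (by
      intro l s hs
      obtain ⟨h1, h2, h3, -⟩ := hT s hs
      rw [hf]
      simp only
      rw [abs_mul, abs_pow, abs_pow]
      push_cast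
      have h4 : |s.1| ≤ (U : ℤ) := by
        rw [abs_of_nonneg h1]
        exact h2
      refine mul_le_mul ?_ ?_ (by positivity) (by positivity)
      · exact (pow_le_pow_left₀ (abs_nonneg _) h4 _).trans
          (pow_le_pow_right₀ hUc (Nat.lt_succ_iff.1 l.1.2))
      · exact (pow_le_pow_left₀ (abs_nonneg _) h3 _).trans
          (pow_le_pow_right₀ hBc (Nat.lt_succ_iff.1 l.2.2))) v hv0 (by
      intro s hs
      obtain ⟨-, -, -, h4⟩ := hT s hs
      rw [hgt_eval hb] at h4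
      rw [← h4, hv, hf]
      refine sum_congr rfl fun p _ => ?_
      push_cast
      rfl)
  have hcard : Fintype.card (Fin (d + 1) × Fin (e + 1)) = (d + 1) * (e + 1) := by
    rw [Fintype.card_prod, Fintype.card_fin, Fintype.card_fin]
  rw [hcard] at hcb
  have hb2 : BD d e (mkP c) := mkP_bd c
  have hb2q : BD d e (qP (mkP c)) := qP_bd hb2
  have hq0 : qP (mkP c) ≠ 0 := by
    intro h
    apply hc0
    funext p
    have h1 := qP_coeff (mkP c) p.1 p.2
    rw [h, coeff_zero, coeff_zero, mkP_coeff_in] at h1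
    exact_mod_cast h1.symm
  have hev : ∀ t ∈ T, evalEval (t.1 : ℚ) (t.2 : ℚ) (qP (mkP c)) = 0 := by
    intro t ht
    rw [hgt_eval hb2q]
    have h1 := hcS t ht
    rw [hf] at h1
    have h2 := congrArg (fun z : ℤ => (z : ℚ)) h1
    simp only [Int.cast_sum, Int.cast_mul, Int.cast_pow, Int.cast_zero] at h2
    rw [← h2]
    refine sum_congr rfl fun p _ => ?_
    rw [qP_coeff, mkP_coeff_in]
  have hdvd : R1 ∣ qP (mkP c) := by
    by_contra hG
    have h1 := common_zeros hR (by omega) hG hb hb2q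
      ((T.image Prod.fst).image (fun z : ℤ => (z : ℚ))) (by
        intro u hu
        obtain ⟨z, hz, rfl⟩ := Finset.mem_image.1 hu
        obtain ⟨t, ht, rfl⟩ := Finset.mem_image.1 hz
        exact ⟨t.2, (hT t ht).2.2.2, hev t ht⟩)
    rw [card_image_of_injective _ Int.cast_injective] at h1
    omega
  obtain ⟨Q, hQ⟩ := hdvd
  have hQ0 : Q ≠ 0 := by
    rintro rfl
    rw [mul_zero] at hQ
    exact hq0 hQ
  have hQd : Q.natDegree = 0 := by
    have h1 := hb2q.1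
    rw [hQ, natDegree_mul hR0 hQ0] at h1
    omega
  obtain ⟨q, rfl⟩ : ∃ q, Q = C q := ⟨_, eq_C_of_natDegree_eq_zero hQd⟩
  have hqq0 : q ≠ 0 := by
    rintro rfl
    exact hQ0 (by rw [map_zero])
  obtain ⟨j0, hj0, hj0'⟩ : ∃ j, (R1.coeff j).natDegree = d ∧ R1.coeff j ≠ 0 := by
    obtain ⟨j, hj⟩ := hd
    by_cases h : R1.coeff j = 0
    · rw [h, natDegree_zero] at hj
      refine ⟨R1.natDegree, ?_, ?_⟩
      · have := hb.2 R1.natDegree
        omega
      · intro h1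
        exact hR0 (leadingCoeff_eq_zero.1 h1)
    · exact ⟨j, hj, h⟩
  have hqd : q.natDegree = 0 := by
    have h1 := hb2q.2 j0
    rw [hQ, coeff_mul_C, natDegree_mul hj0' hqq0] at h1
    omega
  obtain ⟨c1, rfl⟩ : ∃ c1, q = C c1 := ⟨_, eq_C_of_natDegree_eq_zero hqd⟩
  refine ⟨mkP c, c1, ?_, ?_, ?_, hb2, ?_⟩
  · rintro rfl
    exact hqq0 (by rw [map_zero])
  · rw [hQ, mul_comm]
  · have h1 : (qP (mkP c)).natDegree = (mkP c).natDegree := by
      unfold qP
      refine natDegree_map_eq_of_injective ?_ _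
      exact Polynomial.map_injective _ Int.cast_injective
    rw [← h1, hQ, natDegree_mul hR0 hQ0, hQd, he, add_zero]
  · intro i j
    by_cases hj : j ≤ e
    · by_cases hi : i ≤ d
      · have h1 := mkP_coeff_in c (⟨i, Nat.lt_succ_of_le hi⟩, ⟨j, Nat.lt_succ_of_le hj⟩)
        have h2 : ((mkP c).coeff j).coeff i =
            c (⟨i, Nat.lt_succ_of_le hi⟩, ⟨j, Nat.lt_succ_of_le hj⟩) := h1
        rw [h2]
        exact hcb _
      · rw [coeff_eq_zero_of_natDegree_lt ((hb2.2 j).trans_lt (not_le.1 hi)), abs_zero]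
        exact Int.natCast_nonneg _
    · rw [coeff_eq_zero_of_natDegree_lt (hb2.1.trans_lt (not_le.1 hj)), coeff_zero, abs_zero]
      exact Int.natCast_nonneg _

end Pool.Agent.H37.TE
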