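import Pool.Agent.H37.TE.Cls
import Pool.Agent.H37.TE.Hgt

/-! # [H37 TE CNT] Lemma 4: integral points on irreducible curves of degree at least two in `x`

`I = 8 κ + 8`, `N = I e`, `B = U^κ`, `E1 = e (I(I-1)/2) + κ (I (e(e-1)/2))`, `E2 = N(N-1)/2`; `5 E2 ≥ 8 E1 + 8` (`e ≥ 2`). If `U ≤ N!` the number is at most `U + 1 ≤ N! + 1 ≤ c P` (`1 ≤ P`). If `N! < U`: for every `p ≥ P`: `(N! U^E1)^8 < U^8 U^(8 E1) ≤ U^(5 E2) ≤ P^(8 E2) ≤ (p^E2)^8`, so `N! U^E1 < p^E2` (`lt_of_pow_lt_pow_left₀`), which is `hbig` of `prime_bound`.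
`R2` from `int_height` (if `(T.image fst).card ≤ 2 e d` nothing to prove), `H` the bound of its coefficients. `|evalEval u x (derivative R2)| ≤ (d+1)(e+1) e H U^d B^e ≤ c1 U^κ1` for explicit `c1, κ1` dependent on `d, e, κ` only. `K0` with `8 (κ1 + 2) ≤ 5 K0`. If `U ≤ c1` (or `U ≤ 1`) trivial as above. Otherwise `c1 U^κ1 < U^(κ1+2)`, `(P^K0)^8 ≥ U^(5 K0) ≥ (U^(κ1+2))^8`, so `|R2_x| < P^K0`.
Primes `p_j ∈ (4^j P, 2 * 4^j P]`, `j < K0` (`Nat.exists_prime_lt_and_le_two_mul`), different. Points with `R2_x ≠ 0`: some `p_j` does not divide `R2_x(t)` (`Finset.prod_primes_dvd`, the product is `≥ P^K0`), `prime_bound`: at most `p_j e (2e (d+I))` values of `u`. Points with `R2_x = 0`: `common_zeros` with `G1 = derivative R1 ≠ 0`: at most `2 e d`.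
Sum: `≤ c P`. -/

namespace Pool.Agent.H37.TE

open Finset Polynomial

private theorem cnt_sum {R : Type*} [CommRing R] (Q : R[X][X]) (u x : R) :
    evalEval u x Q = ∑ j ∈ range (Q.natDegree + 1), (Q.coeff j).eval u * x ^ j := by
  have h1 : eval (C x) Q = ∑ j ∈ range (Q.natDegree + 1), Q.coeff j * (C x) ^ j :=
    eval_eq_sum_range _
  rw [evalEval, h1, eval_finsetSum]
  refine Finset.sum_congr rfl fun j _ => ?_
  rw [eval_mul, eval_pow, eval_C]

private theorem cnt_qP (R : ℤ[X][X]) (u x : ℤ) :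
    evalEval (u : ℚ) (x : ℚ) (qP R) = ((evalEval u x R : ℤ) : ℚ) := by
  have h1 := map_mapRingHom_evalEval (Int.castRingHom ℚ) R u x
  simpa [qP] using h1

/-- the size of a value -/
private theorem cnt_size {d e : ℕ} (Q : ℤ[X][X]) (hb : BD d e Q) (H : ℕ)
    (hH : ∀ i j, |(Q.coeff j).coeff i| ≤ (H : ℤ)) (U B : ℕ) (hU : 1 ≤ U) (hB : 1 ≤ B) (u x : ℤ)
    (hu : |u| ≤ U) (hx : |x| ≤ B) :
    |evalEval u x Q| ≤ (((d + 1) * (e + 1) * (H * (U ^ d * B ^ e)) : ℕ) : ℤ) := by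
  have h1 : ∀ j, |(Q.coeff j).eval u| ≤ ((d + 1) * (H * U ^ d) : ℤ) := by
    intro j
    rw [eval_eq_sum_range' (Nat.lt_succ_of_le (hb.2 j))]
    refine (Finset.abs_sum_le_sum_abs _ _).trans ?_
    have h2 : ∀ i ∈ range (d + 1), |(Q.coeff j).coeff i * u ^ i| ≤ (H * U ^ d : ℤ) := by
      intro i hi
      rw [mem_range] at hi
      rw [abs_mul, abs_pow]
      have h3 : |u| ^ i ≤ (U : ℤ) ^ d := by
        calc |u| ^ i ≤ (U : ℤ) ^ i := pow_le_pow_left₀ (abs_nonneg _) hu i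
          _ ≤ (U : ℤ) ^ d := pow_le_pow_right₀ (by exact_mod_cast hU) (by omega)
      exact mul_le_mul (hH i j) h3 (by positivity) (by positivity)
    refine (Finset.sum_le_sum h2).trans ?_
    rw [Finset.sum_const, card_range, nsmul_eq_mul]
    push_cast
    exact le_rfl
  have h0 : evalEval u x Q = ∑ j ∈ range (e + 1), (Q.coeff j).eval u * x ^ j := by
    have h4 : eval (C x) Q = ∑ j ∈ range (e + 1), Q.coeff j * (C x) ^ j :=
      eval_eq_sum_range' (Nat.lt_succ_of_le hb.1) _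
    rw [evalEval, h4, eval_finsetSum]
    refine Finset.sum_congr rfl fun j _ => ?_
    rw [eval_mul, eval_pow, eval_C]
  rw [h0]
  refine (Finset.abs_sum_le_sum_abs _ _).trans ?_
  have h2 : ∀ j ∈ range (e + 1), |(Q.coeff j).eval u * x ^ j| ≤
      ((d + 1) * (H * U ^ d) * B ^ e : ℤ) := by
    intro j hj
    rw [mem_range] at hj
    rw [abs_mul, abs_pow]
    have h3 : |x| ^ j ≤ (B : ℤ) ^ e := by
      calc |x| ^ j ≤ (B : ℤ) ^ j := pow_le_pow_left₀ (abs_nonneg _) hx j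
        _ ≤ (B : ℤ) ^ e := pow_le_pow_right₀ (by exact_mod_cast hB) (by omega)
    exact mul_le_mul (h1 j) h3 (by positivity) (by positivity)
  refine (Finset.sum_le_sum h2).trans ?_
  rw [Finset.sum_const, card_range, nsmul_eq_mul]
  push_cast
  apply le_of_eq
  ring

/-- the trivial bound -/
private theorem cnt_triv (U : ℕ) (T : Finset (ℤ × ℤ)) (hT : ∀ t ∈ T, 0 ≤ t.1 ∧ t.1 ≤ (U : ℤ)) :
    (T.image Prod.fst).card ≤ U + 1 := by
  have h1 : T.image Prod.fst ⊆ Finset.Icc (0 : ℤ) U := by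
    intro u hu
    rw [mem_image] at hu
    obtain ⟨t, ht, rfl⟩ := hu
    rw [Finset.mem_Icc]
    exact hT t ht
  refine (Finset.card_le_card h1).trans ?_
  rw [Int.card_Icc]
  omega

/-- the choice of the parameter `I` -/
private theorem cnt_exp (e κ : ℕ) (he : 2 ≤ e) :
    8 * (e * ((8 * κ + 8) * (8 * κ + 8 - 1) / 2) + κ * ((8 * κ + 8) * (e * (e - 1) / 2))) + 8 ≤
      5 * ((8 * κ + 8) * e * ((8 * κ + 8) * e - 1) / 2) := by
  obtain ⟨I, hI⟩ : ∃ I, I = 8 * κ + 8 := ⟨_, rfl⟩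
  rw [← hI]
  have hI8 : 8 ≤ I := by omega
  obtain ⟨a, ha⟩ : ∃ a, I * (I - 1) / 2 = a := ⟨_, rfl⟩
  obtain ⟨b, hb⟩ : ∃ b, e * (e - 1) / 2 = b := ⟨_, rfl⟩
  obtain ⟨c, hc⟩ : ∃ c, I * e * (I * e - 1) / 2 = c := ⟨_, rfl⟩
  rw [ha, hb, hc]
  have ha2 : 2 * a = I * (I - 1) := by
    rw [← ha]
    exact Nat.mul_div_cancel' (Nat.even_mul_pred_self I).two_dvd
  have hb2 : 2 * b = e * (e - 1) := by
    rw [← hb]
    exact Nat.mul_div_cancel' (Nat.even_mul_pred_self e).two_dvd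
  have hc2 : 2 * c = I * e * (I * e - 1) := by
    rw [← hc]
    exact Nat.mul_div_cancel' (Nat.even_mul_pred_self (I * e)).two_dvd
  have hIe : 16 ≤ I * e := by nlinarith
  have key : 8 * (2 * (e * a) + 2 * (κ * (I * b))) + 16 ≤ 5 * (2 * c) := by
    have e1 : 2 * (e * a) = e * (I * (I - 1)) := by rw [← ha2]; ring
    have e2 : 2 * (κ * (I * b)) = κ * (I * (e * (e - 1))) := by rw [← hb2]; ring
    rw [e1, e2, hc2]
    zify [(by omega : 1 ≤ I), (by omega : 1 ≤ e), (by omega : 1 ≤ I * e)]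
    have h1 : (I : ℤ) = 8 * κ + 8 := by rw [hI]; push_cast; ring
    have h2 : (16 : ℤ) ≤ I * e := by exact_mod_cast hIe
    have h3 : (2 : ℤ) ≤ e := by exact_mod_cast he
    have h4 : (0 : ℤ) ≤ κ := by positivity
    have h5 : (0 : ℤ) < I := by exact_mod_cast (by omega : 0 < I)
    -- divide by `I e`
    have h6 : 8 * ((I : ℤ) - 1) + 8 * κ * (e - 1) + 1 ≤ 5 * (I * e - 1) := by
      have h7 : (I : ℤ) * (5 * e - 8) ≥ I * e := by nlinarith
      have h8 : (I : ℤ) * e = 8 * κ * e + 8 * e := by rw [h1]; ring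
      nlinarith
    have h9 := mul_le_mul_of_nonneg_left h6 (by positivity : (0 : ℤ) ≤ I * e)
    nlinarith
  omega

/-- the condition on the prime -/
private theorem cnt_big (e κ U P p : ℕ) (he : 2 ≤ e) (hUP : U ^ 5 ≤ P ^ 8) (hp : P ≤ p)
    (hU : ((8 * κ + 8) * e).factorial < U) :
    ((8 * κ + 8) * e).factorial * (U ^ (e * ((8 * κ + 8) * (8 * κ + 8 - 1) / 2)) *
      (U ^ κ) ^ ((8 * κ + 8) * (e * (e - 1) / 2))) <
      p ^ (((8 * κ + 8) * e) * ((8 * κ + 8) * e - 1) / 2) := by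
  have hexp := cnt_exp e κ he
  obtain ⟨E1, hE1⟩ : ∃ E1, E1 = e * ((8 * κ + 8) * (8 * κ + 8 - 1) / 2) +
      κ * ((8 * κ + 8) * (e * (e - 1) / 2)) := ⟨_, rfl⟩
  obtain ⟨E2, hE2⟩ : ∃ E2, E2 = ((8 * κ + 8) * e) * ((8 * κ + 8) * e - 1) / 2 := ⟨_, rfl⟩
  rw [← hE1, ← hE2] at hexp
  rw [← hE2]
  obtain ⟨F, hF⟩ : ∃ F, F = ((8 * κ + 8) * e).factorial := ⟨_, rfl⟩
  rw [← hF] at hU ⊢
  have hU1 : 1 ≤ U := by omega
  have h1 : U ^ (e * ((8 * κ + 8) * (8 * κ + 8 - 1) / 2)) *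
      (U ^ κ) ^ ((8 * κ + 8) * (e * (e - 1) / 2)) = U ^ E1 := by
    rw [← pow_mul, ← pow_add, hE1]
  rw [h1]
  refine lt_of_pow_lt_pow_left₀ 8 (Nat.zero_le _) ?_
  calc (F * U ^ E1) ^ 8 = F ^ 8 * U ^ (E1 * 8) := by rw [mul_pow, ← pow_mul]
    _ < U ^ 8 * U ^ (E1 * 8) := by
        apply Nat.mul_lt_mul_of_pos_right (Nat.pow_lt_pow_left hU (by norm_num))
        positivity
    _ = U ^ (8 * E1 + 8) := by rw [← pow_add]; congr 1; ring
    _ ≤ U ^ (5 * E2) := Nat.pow_le_pow_right hU1 hexp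
    _ = (U ^ 5) ^ E2 := by rw [← pow_mul]
    _ ≤ (P ^ 8) ^ E2 := Nat.pow_le_pow_left hUP _
    _ ≤ (p ^ 8) ^ E2 := Nat.pow_le_pow_left (Nat.pow_le_pow_left hp _) _
    _ = (p ^ E2) ^ 8 := by rw [← pow_mul, ← pow_mul, mul_comm]

/-- the primes -/
private theorem cnt_primes (P K : ℕ) (hP : 1 ≤ P) : ∃ q : ℕ → ℕ, (∀ j, (q j).Prime) ∧
    (∀ j, P ≤ q j) ∧ (∀ j < K, q j ≤ 2 * 4 ^ K * P) ∧ Function.Injective q := by
  have h1 : ∀ j : ℕ, ∃ q : ℕ, q.Prime ∧ 4 ^ j * P < q ∧ q ≤ 2 * (4 ^ j * P) := by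
    intro j
    exact Nat.exists_prime_lt_and_le_two_mul (4 ^ j * P) (by positivity)
  choose q hq1 hq2 hq3 using h1
  have hlow : ∀ j, P ≤ 4 ^ j * P := fun j => Nat.le_mul_of_pos_left _ (by positivity)
  refine ⟨q, hq1, fun j => (hlow j).trans (hq2 j).le, ?_, ?_⟩
  · intro j hj
    refine (hq3 j).trans ?_
    rw [← mul_assoc]
    exact Nat.mul_le_mul_right _ (Nat.mul_le_mul_left _ (Nat.pow_le_pow_right (by norm_num) hj.le))
  · have hmono : StrictMono q := by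
      refine strictMono_nat_of_lt_succ fun j => ?_
      refine lt_of_le_of_lt (hq3 j) (lt_of_le_of_lt ?_ (hq2 (j + 1)))
      rw [pow_succ]
      nlinarith [Nat.zero_le (4 ^ j * P)]
    exact hmono.injective

/-- a prime which does not divide -/
private theorem cnt_exists (P K : ℕ) (q : ℕ → ℕ) (hq : ∀ j, (q j).Prime) (hP : ∀ j, P ≤ q j)
    (hinj : Function.Injective q) (n : ℤ) (hn : n ≠ 0) (hlt : n.natAbs < P ^ K) :
    ∃ j < K, ¬ (q j : ℤ) ∣ n := by
  by_contra hcon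
  push Not at hcon
  have h1 : ∏ p ∈ (range K).image q, p ∣ n.natAbs := by
    refine Finset.prod_primes_dvd _ ?_ ?_
    · intro p hp
      rw [mem_image] at hp
      obtain ⟨j, -, rfl⟩ := hp
      exact (hq j).prime
    · intro p hp
      rw [mem_image] at hp
      obtain ⟨j, hj, rfl⟩ := hp
      rw [mem_range] at hj
      exact Int.natCast_dvd.1 (hcon j hj)
  have h2 : P ^ K ≤ ∏ p ∈ (range K).image q, p := by
    rw [Finset.prod_image (fun a _ b _ hab => hinj hab)]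
    calc P ^ K = ∏ _j ∈ range K, P := by rw [Finset.prod_const, card_range]
      _ ≤ ∏ j ∈ range K, q j := Finset.prod_le_prod' fun j _ => hP j
  have h3 := Nat.le_of_dvd (Int.natAbs_pos.2 hn) h1
  omega

theorem count_irr (d e κ : ℕ) (he : 2 ≤ e) : ∃ c : ℕ, ∀ U P : ℕ, Cpl U P → ∀ R1 : ℚ[X][X],
    Irreducible R1 → R1.natDegree = e → (∃ j, (R1.coeff j).natDegree = d) → BD d e R1 →
    ∀ T : Finset (ℤ × ℤ), (∀ t ∈ T, 0 ≤ t.1 ∧ t.1 ≤ U ∧ |t.2| ≤ ((U ^ κ : ℕ) : ℤ) ∧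
      evalEval (t.1 : ℚ) (t.2 : ℚ) R1 = 0) → (T.image Prod.fst).card ≤ c * P := by
  classical
  obtain ⟨I, hI⟩ : ∃ I, I = 8 * κ + 8 := ⟨_, rfl⟩
  obtain ⟨F, hF⟩ : ∃ F, F = (I * e).factorial := ⟨_, rfl⟩
  obtain ⟨M, hM⟩ : ∃ M, M = (d + 1) * (e + 1) := ⟨_, rfl⟩
  have hM1 : 1 ≤ M := by rw [hM]; exact Nat.mul_pos (by omega) (by omega)
  obtain ⟨c1, hc1⟩ : ∃ c1, c1 = M * (e * M ^ M) := ⟨_, rfl⟩
  obtain ⟨κ1, hκ1⟩ : ∃ κ1, κ1 = (d + κ * e) * (M + 1) := ⟨_, rfl⟩
  obtain ⟨K, hK⟩ : ∃ K, K = 2 * (κ1 + 2) := ⟨_, rfl⟩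
  obtain ⟨U0, hU0⟩ : ∃ U0, U0 = F + c1 + 1 := ⟨_, rfl⟩
  obtain ⟨c2, hc2⟩ : ∃ c2, c2 = K * (2 * 4 ^ K * (e * ((e + e) * (d + I)))) := ⟨_, rfl⟩
  refine ⟨U0 + 1 + (e + e) * d + (e + e) * d + c2, ?_⟩
  intro U P hUP R1 hR he' hd hb T hT
  obtain ⟨hU1, hUP5⟩ := hUP
  have hP1 : 1 ≤ P := by
    rcases Nat.eq_zero_or_pos P with h | h
    · rw [h] at hUP5
      have : 1 ≤ U ^ 5 := Nat.one_le_pow _ _ hU1
      norm_num at hUP5
      omega
    · exact h
  by_cases hsmall : U ≤ U0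
  · have h1 := cnt_triv U T fun t ht => ⟨(hT t ht).1, (hT t ht).2.1⟩
    calc (T.image Prod.fst).card ≤ U0 + 1 := by omega
      _ ≤ (U0 + 1 + (e + e) * d + (e + e) * d + c2) * 1 := by omega
      _ ≤ _ := Nat.mul_le_mul_left _ hP1
  push Not at hsmall
  by_cases hfew : (T.image Prod.fst).card ≤ (e + e) * d
  · calc (T.image Prod.fst).card ≤ (U0 + 1 + (e + e) * d + (e + e) * d + c2) * 1 := by omega
      _ ≤ _ := Nat.mul_le_mul_left _ hP1
  push Not at hfew
  have hB1 : 1 ≤ U ^ κ := Nat.one_le_pow _ _ hU1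
  obtain ⟨R2, c, hc0, hqP, hR2deg, hR2b, hR2H⟩ := int_height hR he' (by omega) hd hb U (U ^ κ) hU1
    hB1 T hT hfew
  -- the values of `R2`
  have hR2z : ∀ t ∈ T, evalEval t.1 t.2 R2 = 0 := by
    intro t ht
    have h1 := cnt_qP R2 t.1 t.2
    rw [hqP, evalEval_mul, (hT t ht).2.2.2, mul_zero] at h1
    exact_mod_cast h1.symm
  have hirr2 : Irreducible (qP R2) := by
    rw [hqP]
    have hu : IsUnit (C (C c) : ℚ[X][X]) := by
      rw [isUnit_C, isUnit_C]
      exact isUnit_iff_ne_zero.2 hc0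
    exact (associated_unit_mul_left R1 _ hu).symm.irreducible hR
  -- the derivative
  have hder : qP (derivative R2) = C (C c) * derivative R1 := by
    unfold qP at hqP ⊢
    rw [← derivative_map, hqP, derivative_C_mul]
  have hder0 : derivative R1 ≠ 0 := by
    intro h
    have := natDegree_eq_zero_of_derivative_eq_zero h
    omega
  have hderb : BD d e (derivative R1) := by
    refine ⟨(natDegree_derivative_le _).trans (by omega), fun j => ?_⟩
    rw [coeff_derivative]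
    have h1 : (((j : ℚ[X]) + 1)).natDegree = 0 := by
      have h2 : ((j : ℚ[X]) + 1) = C ((j : ℚ) + 1) := by simp
      rw [h2, natDegree_C]
    refine natDegree_mul_le.trans ?_
    rw [h1]
    have := hb.2 (j + 1)
    omega
  have hndvd : ¬ R1 ∣ derivative R1 := by
    intro h
    have h1 := natDegree_le_of_dvd h hder0
    have h2 := natDegree_derivative_le R1
    omega
  -- points where the derivative vanishes
  have hT1 : ((T.filter fun t => evalEval t.1 t.2 (derivative R2) = 0).image Prod.fst).card ≤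
      (e + e) * d := by
    have h1 := common_zeros (d := d) (e1 := e) (e2 := e) hR (by omega) hndvd hb hderb
      (((T.filter fun t => evalEval t.1 t.2 (derivative R2) = 0).image Prod.fst).image
        (fun a : ℤ => (a : ℚ))) (by
      intro u hu
      rw [mem_image] at hu
      obtain ⟨a, ha, rfl⟩ := hu
      rw [mem_image] at ha
      obtain ⟨t, ht, rfl⟩ := ha
      rw [mem_filter] at ht
      refine ⟨(t.2 : ℚ), (hT t ht.1).2.2.2, ?_⟩
      have h2 := cnt_qP (derivative R2) t.1 t.2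
      rw [hder, evalEval_mul, ht.2, Int.cast_zero, evalEval_C, eval_C] at h2
      exact (mul_eq_zero.1 h2).resolve_left hc0)
    rwa [Finset.card_image_of_injective _ Int.cast_injective] at h1
  -- the size of the derivative
  obtain ⟨H, hH⟩ : ∃ H, H = (M * (U ^ d * (U ^ κ) ^ e)) ^ M := ⟨_, rfl⟩
  have hcoef : ∀ i j, |((derivative R2).coeff j).coeff i| ≤ (((e + 0) * H : ℕ) : ℤ) := by
    intro i j
    rw [coeff_derivative]
    have h1 : (((j : ℤ[X]) + 1)) = C ((j : ℤ) + 1) := by simp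
    rw [h1, coeff_mul_C]
    by_cases hj : j + 1 ≤ e
    · rw [abs_mul]
      have h2 := hR2H i (j + 1)
      rw [← hM, ← hH] at h2
      have h3 : |((j : ℤ) + 1)| ≤ (e : ℤ) := by
        rw [abs_of_nonneg (by positivity)]
        exact_mod_cast hj
      push_cast
      rw [add_zero, mul_comm]
      exact mul_le_mul h3 h2 (abs_nonneg _) (by positivity)
    · have h2 : R2.coeff (j + 1) = 0 := coeff_eq_zero_of_natDegree_lt (by omega)
      rw [h2, coeff_zero, zero_mul, abs_zero]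
      positivity
  have hR2db : BD d e (derivative R2) := by
    refine ⟨(natDegree_derivative_le _).trans (by omega), fun j => ?_⟩
    rw [coeff_derivative]
    have h1 : (((j : ℤ[X]) + 1)).natDegree = 0 := by
      have h2 : ((j : ℤ[X]) + 1) = C ((j : ℤ) + 1) := by simp
      rw [h2, natDegree_C]
    refine natDegree_mul_le.trans ?_
    rw [h1]
    have := hR2b.2 (j + 1)
    omega
  have hsize : ∀ t ∈ T, (evalEval t.1 t.2 (derivative R2)).natAbs < P ^ K := by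
    intro t ht
    obtain ⟨t1, t2, t3, -⟩ := hT t ht
    have h1 := cnt_size (derivative R2) hR2db _ hcoef U (U ^ κ) hU1 hB1 t.1 t.2
      (by rw [abs_of_nonneg t1]; exact t2) t3
    have h2 : (evalEval t.1 t.2 (derivative R2)).natAbs ≤
        (d + 1) * (e + 1) * ((e + 0) * H * (U ^ d * (U ^ κ) ^ e)) := by
      have h3 : ((evalEval t.1 t.2 (derivative R2)).natAbs : ℤ) ≤
        (((d + 1) * (e + 1) * ((e + 0) * H * (U ^ d * (U ^ κ) ^ e)) : ℕ) : ℤ) := by
        rw [Int.natCast_natAbs]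
        exact h1
      exact_mod_cast h3
    have h4 : (d + 1) * (e + 1) * ((e + 0) * H * (U ^ d * (U ^ κ) ^ e)) = c1 * U ^ κ1 := by
      have h5 : U ^ d * (U ^ κ) ^ e = U ^ (d + κ * e) := by rw [← pow_mul, ← pow_add]
      rw [hH, h5, ← hM, hc1, hκ1, mul_pow, ← pow_mul, add_zero, mul_add, mul_one, pow_add]
      ring
    have h5 : c1 * U ^ κ1 < U ^ (κ1 + 1) := by
      rw [pow_succ, mul_comm]
      exact Nat.mul_lt_mul_of_pos_left (by omega) (by positivity)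
    have h6 : U ^ (κ1 + 1) ≤ P ^ K := by
      refine le_of_pow_le_pow_left₀ (n := 8) (by norm_num) (Nat.zero_le _) ?_
      calc (U ^ (κ1 + 1)) ^ 8 = U ^ ((κ1 + 1) * 8) := by rw [← pow_mul]
        _ ≤ U ^ (5 * K) := Nat.pow_le_pow_right hU1 (by omega)
        _ = (U ^ 5) ^ K := by rw [← pow_mul]
        _ ≤ (P ^ 8) ^ K := Nat.pow_le_pow_left hUP5 _
        _ = (P ^ K) ^ 8 := by rw [← pow_mul, ← pow_mul, mul_comm]
    omega
  obtain ⟨q, hq1, hq2, hq3, hqinj⟩ := cnt_primes P K hP1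
  have hT2 : ∀ j ∈ range K, ((T.filter fun t => ¬ (q j : ℤ) ∣
      evalEval t.1 t.2 (derivative R2)).image Prod.fst).card ≤
      2 * 4 ^ K * (e * ((e + e) * (d + I))) * P := by
    intro j hj
    rw [mem_range] at hj
    have hbig := cnt_big e κ U P (q j) he hUP5 (hq2 j) (by rw [← hI, ← hF]; omega)
    rw [← hI] at hbig
    have h1 := prime_bound (d := d) (e := e) (I := I) (by omega) hirr2 hR2deg (by omega) hR2b
      (hq1 j) U (U ^ κ) hbig
      (T.filter fun t => ¬ (q j : ℤ) ∣ evalEval t.1 t.2 (derivative R2)) (by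
        intro t ht
        rw [mem_filter] at ht
        obtain ⟨t1, t2, t3, -⟩ := hT t ht.1
        exact ⟨t1, t2, t3, hR2z t ht.1, ht.2⟩)
    refine h1.trans ?_
    calc q j * e * ((e + e) * (d + I)) = q j * (e * ((e + e) * (d + I))) := by ring
      _ ≤ 2 * 4 ^ K * P * (e * ((e + e) * (d + I))) := Nat.mul_le_mul_right _ (hq3 j hj)
      _ = _ := by ring
  have hcover : T.image Prod.fst ⊆
      ((T.filter fun t => evalEval t.1 t.2 (derivative R2) = 0).image Prod.fst) ∪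
        (range K).biUnion fun j => ((T.filter fun t => ¬ (q j : ℤ) ∣
          evalEval t.1 t.2 (derivative R2)).image Prod.fst) := by
    intro u hu
    rw [mem_image] at hu
    obtain ⟨t, ht, rfl⟩ := hu
    rw [mem_union]
    by_cases h0 : evalEval t.1 t.2 (derivative R2) = 0
    · left
      exact mem_image_of_mem _ (mem_filter.2 ⟨ht, h0⟩)
    · right
      obtain ⟨j, hj, hjd⟩ := cnt_exists P K q hq1 hq2 hqinj _ h0 (hsize t ht)
      rw [mem_biUnion]
      exact ⟨j, mem_range.2 hj, mem_image_of_mem _ (mem_filter.2 ⟨ht, hjd⟩)⟩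
  have hfin : (T.image Prod.fst).card ≤ (e + e) * d + c2 * P := by
    refine (Finset.card_le_card hcover).trans ((Finset.card_union_le _ _).trans ?_)
    refine Nat.add_le_add hT1 ?_
    refine Finset.card_biUnion_le.trans ((Finset.sum_le_sum hT2).trans ?_)
    rw [Finset.sum_const, card_range, smul_eq_mul, hc2]
    apply le_of_eq
    ring
  have h9 : (e + e) * d ≤ (e + e) * d * P := Nat.le_mul_of_pos_right _ hP1
  calc (T.image Prod.fst).card ≤ (e + e) * d + c2 * P := hfin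
    _ ≤ (e + e) * d * P + c2 * P := by omega
    _ ≤ _ := by
        rw [← add_mul]
        exact Nat.mul_le_mul_right _ (by omega)

end Pool.Agent.H37.TE
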