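import Pool.Agent.H37.TE.Spq

/-! # [H37 TE COR] Polynomial solutions are constant if the last form has no rational zero -/

namespace Pool.Agent.H37.TE

open Finset Polynomial

theorem ev3_sum {S : Type*} [CommRing S] (t x y : S) (F : ℤ[X][X][X]) (n : ℕ)
    (hdeg : ∀ a b, n < a + b → (F.coeff b).coeff a = 0) :
    ev3 t x y F = ∑ b ∈ range (n + 1), ∑ a ∈ range (n + 1),
      eval₂ (Int.castRingHom S) t ((F.coeff b).coeff a) * x ^ a * y ^ b := by
  have h1 : F.natDegree < n + 1 := by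
    refine Nat.lt_succ_of_le ?_
    rw [natDegree_le_iff_coeff_eq_zero]
    intro b hb
    ext1 a
    rw [hdeg a b (by omega), coeff_zero]
  unfold ev3
  rw [eval₂_eq_sum_range' _ h1]
  refine Finset.sum_congr rfl fun b _ => ?_
  have h2 : (F.coeff b).natDegree < n + 1 := by
    refine Nat.lt_succ_of_le ?_
    rw [natDegree_le_iff_coeff_eq_zero]
    intro a ha
    exact hdeg a b (by omega)
  rw [coe_eval₂RingHom, eval₂_eq_sum_range' _ h2, Finset.sum_mul]
  rfl

/-- polynomial solutions are constant -/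
theorem sol_const {n m : ℕ} (F : ℤ[X][X][X]) (hdeg : ∀ a b, n < a + b → (F.coeff b).coeff a = 0)
    (hm : ∀ a b, ((F.coeff b).coeff a).natDegree ≤ m)
    (hno : ∀ ρ1 ρ2 : ℚ, ∑ b ∈ range (n + 1),
      ((((F.coeff b).coeff (n - b)).coeff m : ℤ) : ℚ) * ρ1 ^ (n - b) * ρ2 ^ b = 0 →
      ρ1 = 0 ∧ ρ2 = 0) (r1 r2 : ℚ[X]) (h : ev3 X r1 r2 F = 0) :
    r1.natDegree = 0 ∧ r2.natDegree = 0 := by
  obtain ⟨d, hd⟩ : ∃ d, d = max r1.natDegree r2.natDegree := ⟨_, rfl⟩
  have hd1 : r1.natDegree ≤ d := by rw [hd]; exact le_max_left _ _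
  have hd2 : r2.natDegree ≤ d := by rw [hd]; exact le_max_right _ _
  by_cases hd0 : d = 0
  · omega
  exfalso
  have h1 := congrArg (fun q : ℚ[X] => q.coeff (m + n * d)) h
  simp only [coeff_zero] at h1
  rw [ev3_sum X r1 r2 F n hdeg, finsetSum_coeff] at h1
  have hq : ∀ a b, eval₂ (Int.castRingHom ℚ[X]) X ((F.coeff b).coeff a) =
      ((F.coeff b).coeff a).map (Int.castRingHom ℚ) := by
    intro a b
    show _ = eval₂ (C.comp (Int.castRingHom ℚ)) X _
    congr 1
  have hqd : ∀ a b, (((F.coeff b).coeff a).map (Int.castRingHom ℚ)).natDegree ≤ m :=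
    fun a b => natDegree_map_le.trans (hm a b)
  have h2 : ∀ b ∈ range (n + 1), (∑ a ∈ range (n + 1),
      eval₂ (Int.castRingHom ℚ[X]) X ((F.coeff b).coeff a) * r1 ^ a * r2 ^ b).coeff (m + n * d) =
      ((((F.coeff b).coeff (n - b)).coeff m : ℤ) : ℚ) * (r1.coeff d) ^ (n - b) *
        (r2.coeff d) ^ b := by
    intro b hb
    rw [mem_range] at hb
    rw [finsetSum_coeff, Finset.sum_eq_single (n - b)]
    · rw [hq]
      have e1 : m + n * d = m + (n - b) * d + b * d := by
        have : n = (n - b) + b := by omega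
        calc m + n * d = m + ((n - b) + b) * d := by rw [← this]
          _ = _ := by ring
      have p1 : (r1 ^ (n - b)).natDegree ≤ (n - b) * d :=
        natDegree_pow_le.trans (Nat.mul_le_mul_left _ hd1)
      have p2 : (r2 ^ b).natDegree ≤ b * d := natDegree_pow_le.trans (Nat.mul_le_mul_left _ hd2)
      rw [e1, coeff_mul_add_eq_of_natDegree_le (natDegree_mul_le_of_le (hqd _ _) p1) p2,
        coeff_mul_add_eq_of_natDegree_le (hqd _ _) p1, coeff_pow_of_natDegree_le hd1,
        coeff_pow_of_natDegree_le hd2, coeff_map]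
      rfl
    · intro a ha hne
      rw [mem_range] at ha
      by_cases hab : n < a + b
      · rw [hdeg a b hab, eval₂_zero, zero_mul, zero_mul, coeff_zero]
      · apply coeff_eq_zero_of_natDegree_lt
        rw [hq]
        have p1 : (r1 ^ a).natDegree ≤ a * d := natDegree_pow_le.trans (Nat.mul_le_mul_left _ hd1)
        have p2 : (r2 ^ b).natDegree ≤ b * d := natDegree_pow_le.trans (Nat.mul_le_mul_left _ hd2)
        have p3 := natDegree_mul_le_of_le (natDegree_mul_le_of_le (hqd a b) p1) p2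
        refine lt_of_le_of_lt p3 ?_
        have p4 : a * d + b * d + d ≤ n * d := by
          have : a + b + 1 ≤ n := by omega
          calc a * d + b * d + d = (a + b + 1) * d := by ring
            _ ≤ n * d := Nat.mul_le_mul_right _ this
        omega
    · intro hnot
      exact absurd (mem_range.2 (by omega)) hnot
  rw [Finset.sum_congr rfl h2] at h1
  obtain ⟨h3, h4⟩ := hno _ _ h1
  rcases le_total r1.natDegree r2.natDegree with h5 | h5
  · rw [max_eq_right h5] at hd
    rw [hd, coeff_natDegree, leadingCoeff_eq_zero] at h4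
    rw [h4, natDegree_zero] at hd
    omega
  · rw [max_eq_left h5] at hd
    rw [hd, coeff_natDegree, leadingCoeff_eq_zero] at h3
    rw [h3, natDegree_zero] at hd
    omega

/-- if the last form has no rational zero, the values of the polynomial solutions are the common
integral zeros -/
theorem sol_common {n m : ℕ} (F : ℤ[X][X][X])
    (hdeg : ∀ a b, n < a + b → (F.coeff b).coeff a = 0)
    (hm : ∀ a b, ((F.coeff b).coeff a).natDegree ≤ m)
    (hno : ∀ ρ1 ρ2 : ℚ, ∑ b ∈ range (n + 1),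
      ((((F.coeff b).coeff (n - b)).coeff m : ℤ) : ℚ) * ρ1 ^ (n - b) * ρ2 ^ b = 0 →
      ρ1 = 0 ∧ ρ2 = 0) (a x y : ℤ)
    (h : ∃ r1 r2 : ℚ[X], ev3 X r1 r2 F = 0 ∧ r1.eval (a : ℚ) = x ∧ r2.eval (a : ℚ) = y) :
    ev3 (X : ℤ[X]) (C x) (C y) F = 0 := by
  obtain ⟨r1, r2, h0, e1, e2⟩ := h
  obtain ⟨d1, d2⟩ := sol_const F hdeg hm hno r1 r2 h0
  rw [eq_C_of_natDegree_eq_zero d1, eval_C] at e1
  rw [eq_C_of_natDegree_eq_zero d2, eval_C] at e2
  rw [eq_C_of_natDegree_eq_zero d1, eq_C_of_natDegree_eq_zero d2, e1, e2] at h0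
  apply map_injective (Int.castRingHom ℚ) (RingHom.injective_int _)
  rw [Polynomial.map_zero]
  have h1 := ev3_hom (mapRingHom (Int.castRingHom ℚ)) (X : ℤ[X]) (C x) (C y) F
  rw [coe_mapRingHom, map_X, map_C, map_C] at h1
  rw [h1]
  exact h0

/-- evaluation of the coefficients -/
theorem ev3_eval (F : ℤ[X][X][X]) (a x y : ℤ) :
    (ev3 (X : ℤ[X]) (C x) (C y) F).eval a = ev3 a x y F := by
  have h1 := ev3_hom (evalRingHom a) (X : ℤ[X]) (C x) (C y) F
  rw [coe_evalRingHom, eval_X, eval_C, eval_C] at h1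
  exact h1

end Pool.Agent.H37.TE
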