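import Mathlib

/-! # [H37 TE] MP_821da1_nt, Theorem E (helper4, proofs 341): p-adic part, definitions

`BD d e P`: bivariate polynomial (inner variable `u`, outer variable `x`), degree at most `d` in `u`
and at most `e` in `x`. `TD d e f F`: three variables (inner `t`, middle `x`, outer `y`).
`ev3 t x y F`: the value of `F ∈ ℤ[t][x][y]` in any commutative ring. `qP R`: `R` over `ℚ`. -/

namespace Pool.Agent.H37.TE

open Finset Polynomial

/-- bidegree bounds: degree at most `d` in the inner variable, at most `e` in the outer variable -/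
def BD {R : Type*} [Semiring R] (d e : ℕ) (P : R[X][X]) : Prop :=
  P.natDegree ≤ e ∧ ∀ j, (P.coeff j).natDegree ≤ d

/-- degree bounds for three variables -/
def TD {R : Type*} [Semiring R] (d e f : ℕ) (F : R[X][X][X]) : Prop :=
  F.natDegree ≤ f ∧ ∀ k, BD d e (F.coeff k)

/-- the value of a polynomial in three variables -/
noncomputable def ev3 {S : Type*} [CommRing S] (t x y : S) (F : ℤ[X][X][X]) : S :=
  eval₂ (eval₂RingHom (eval₂RingHom (Int.castRingHom S) t) x) y F

/-- a bivariate integral polynomial over the rationals -/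
noncomputable def qP (R : ℤ[X][X]) : ℚ[X][X] := R.map (mapRingHom (Int.castRingHom ℚ))

/-- `P` and `U` are coupled: `P` is about `U^(5/8)` -/
def Cpl (U P : ℕ) : Prop := 1 ≤ U ∧ U ^ 5 ≤ P ^ 8

end Pool.Agent.H37.TE
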