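import Mathlib

/-! # [H37 TE DEX] The multilinear expansion of a determinant (real and p-adic part of Theorem E)

The determinant of the matrix `∑_k c l k * v k i` (row `i`, column `l`) is the sum over the INJECTIVE
maps `κ` of `∏_l c l (κ l) * det (v (κ l) i)`. -/

namespace Pool.Agent.H37.TE

open Finset Matrix

/-- multilinear expansion of a determinant; only injective maps contribute -/
theorem det_expand {R : Type*} [CommRing R] {ι K : Type*} [Fintype ι] [DecidableEq ι] [Fintype K]
    [DecidableEq K] (c : ι → K → R) (v : K → ι → R) :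
    (Matrix.of fun i l => ∑ k, c l k * v k i).det =
      ∑ κ ∈ (univ : Finset (ι → K)).filter Function.Injective,
        (∏ l, c l (κ l)) * (Matrix.of fun i l => v (κ l) i).det := by
  classical
  have h1 : (Matrix.of fun i l => ∑ k, c l k * v k i).det =
      Matrix.detRowAlternating (fun l => ∑ k, c l k • v k) := by
    rw [← Matrix.det_transpose]
    show Matrix.det _ = Matrix.det _
    congr 1
    ext l i
    simp [Matrix.transpose_apply, Finset.sum_apply]
  rw [h1]
  have h2 : (Matrix.detRowAlternating : (ι → R) [⋀^ι]→ₗ[R] R) (fun l => ∑ k, c l k • v k) =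
      ∑ κ : ι → K, Matrix.detRowAlternating (fun l => c l (κ l) • v (κ l)) := by
    exact (Matrix.detRowAlternating (n := ι) (R := R)).toMultilinearMap.map_sum
      (fun l k => c l k • v k)
  rw [h2, Finset.sum_filter]
  refine Finset.sum_congr rfl fun κ _ => ?_
  have h3 : Matrix.detRowAlternating (fun l => c l (κ l) • v (κ l)) =
      (∏ l, c l (κ l)) * Matrix.detRowAlternating (fun l => v (κ l)) := by
    exact (Matrix.detRowAlternating (n := ι) (R := R)).toMultilinearMap.map_smul_univ _ _
  rw [h3]
  by_cases hinj : Function.Injective κ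
  · rw [if_pos hinj]
    congr 1
    rw [← Matrix.det_transpose]
    rfl
  · rw [if_neg hinj]
    have h4 : Matrix.detRowAlternating (fun l => v (κ l)) = 0 := by
      rw [Function.Injective] at hinj
      push Not at hinj
      obtain ⟨a, b, hab, hne⟩ := hinj
      exact Matrix.det_zero_of_row_eq hne (by rw [hab])
    rw [h4, mul_zero]

theorem sum_set_ge (s : Finset ℕ) : ∑ i ∈ range s.card, i ≤ ∑ k ∈ s, k := by
  classical
  induction' hn : s.card with n ih generalizing s
  · simp
  · have hne : s.Nonempty := by
      rw [← Finset.card_pos]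
      omega
    obtain ⟨m, hm⟩ : ∃ m, m = s.max' hne := ⟨_, rfl⟩
    have hms : m ∈ s := by rw [hm]; exact Finset.max'_mem _ _
    have h1 : (s.erase m).card = n := by
      rw [Finset.card_erase_of_mem hms, hn]
      rfl
    have h2 := ih (s.erase m) h1
    have h3 : s ⊆ range (m + 1) := by
      intro k hk
      rw [mem_range, hm]
      exact Nat.lt_succ_of_le (Finset.le_max' _ _ hk)
    have h4 := Finset.card_le_card h3
    rw [card_range, hn] at h4
    rw [Finset.sum_range_succ, ← Finset.sum_erase_add _ _ hms]
    omega

/-- the sum of different natural numbers -/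
theorem sum_inj_ge {N : ℕ} (κ : Fin N → ℕ) (h : Function.Injective κ) :
    N * (N - 1) / 2 ≤ ∑ l, κ l := by
  classical
  have h1 : ∑ l, κ l = ∑ k ∈ univ.image κ, k := by
    rw [Finset.sum_image (fun a _ b _ hab => h hab)]
  have h2 : (univ.image κ).card = N := by
    rw [Finset.card_image_of_injective _ h, Finset.card_univ, Fintype.card_fin]
  rw [h1, ← Finset.sum_range_id]
  have h3 : ∑ i ∈ range (univ.image κ).card, i ≤ ∑ k ∈ univ.image κ, k := by
    exact sum_set_ge _
  rwa [h2] at h3

end Pool.Agent.H37.TE
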