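import Pool.Agent.H37.TE.Defs

/-! # [H37 TE FAC] Degrees and number of the irreducible factors

`ideg P = P.support.sup (fun j => (P.coeff j).natDegree)`, or `(Bivariate.swap P).natDegree`: show that `(∀ j, (P.coeff j).natDegree ≤ d) ↔ (Bivariate.swap P).natDegree ≤ d` (`Bivariate.swap_monomial`, coefficients: `((swap P).coeff i).coeff j = (P.coeff j).coeff i`). `swap` is a ring isomorphism, so the degree in the inner variable is additive for nonzero factors. `bd_of_dvd` follows.
`factors`: `WfDvdMonoid.exists_factors`: a multiset `f` of irreducible elements, `f.prod` associated to `R`. `∑_(g ∈ f) (g.natDegree + ideg g) = R.natDegree + ideg R ≤ 2 D` (associates have the same degrees) and every term is `≥ 1` (if both degrees are zero, `g` is a constant, so zero or a unit). `L = f.toFinset`. A point with `R = 0` is a zero of some factor. -/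

namespace Pool.Agent.H37.TE

open Finset Polynomial

theorem swap_coeff {R : Type*} [CommRing R] (P : R[X][X]) (i j : ℕ) :
    ((Bivariate.swap P).coeff i).coeff j = (P.coeff j).coeff i := by
  induction P using Polynomial.induction_on' with
  | add p q hp hq => rw [map_add, coeff_add, coeff_add, coeff_add, coeff_add, hp, hq]
  | monomial n a =>
    induction a using Polynomial.induction_on' with
    | add p q hp hq =>
      rw [map_add, map_add, coeff_add, coeff_add, hp, hq, coeff_add, coeff_add]
    | monomial m r =>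
      rw [Bivariate.swap_monomial_monomial, coeff_monomial, coeff_monomial]
      by_cases h1 : m = i
      · by_cases h2 : n = j
        · rw [if_pos h1, if_pos h2, coeff_monomial, coeff_monomial, if_pos h1, if_pos h2]
        · rw [if_pos h1, if_neg h2, coeff_monomial, if_neg h2, coeff_zero]
      · by_cases h2 : n = j
        · rw [if_neg h1, if_pos h2, coeff_monomial, if_neg h1, coeff_zero]
        · rw [if_neg h1, if_neg h2, coeff_zero, coeff_zero]

private theorem fac_bd {R : Type*} [CommRing R] {d e : ℕ} {P : R[X][X]} :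
    BD d e P ↔ P.natDegree ≤ e ∧ (Bivariate.swap P).natDegree ≤ d := by
  rw [BD]
  refine and_congr_right fun _ => ?_
  constructor
  · intro h
    rw [natDegree_le_iff_coeff_eq_zero]
    intro i hi
    ext j
    rw [swap_coeff, coeff_zero]
    exact coeff_eq_zero_of_natDegree_lt (lt_of_le_of_lt (h j) hi)
  · intro h j
    rw [natDegree_le_iff_coeff_eq_zero]
    intro i hi
    rw [← swap_coeff, coeff_eq_zero_of_natDegree_lt (lt_of_le_of_lt h hi), coeff_zero]

private theorem fac_ne {P : ℚ[X][X]} (h : P ≠ 0) : Bivariate.swap P ≠ 0 := by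
  intro h1
  exact h ((map_eq_zero_iff _ (Bivariate.swap (R := ℚ)).injective).1 h1)

theorem bd_of_dvd {d e : ℕ} {P Q : ℚ[X][X]} (hQ : Q ≠ 0) (h : P ∣ Q) (b : BD d e Q) : BD d e P := by
  obtain ⟨S, hS⟩ := h
  have hP : P ≠ 0 := by
    rintro rfl
    rw [zero_mul] at hS
    exact hQ hS
  have hS0 : S ≠ 0 := by
    rintro rfl
    rw [mul_zero] at hS
    exact hQ hS
  rw [fac_bd] at b ⊢
  have h1 : Q.natDegree = P.natDegree + S.natDegree := by
    rw [hS, natDegree_mul hP hS0]
  have h2 : (Bivariate.swap Q).natDegree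
      = (Bivariate.swap P).natDegree + (Bivariate.swap S).natDegree := by
    rw [hS, map_mul, natDegree_mul (fac_ne hP) (fac_ne hS0)]
  exact ⟨by omega, by omega⟩

private theorem fac_pos {g : ℚ[X][X]} (hg : Irreducible g) :
    1 ≤ g.natDegree + (Bivariate.swap g).natDegree := by
  by_contra hcon
  have h1 : g.natDegree = 0 := by omega
  have h2 : (Bivariate.swap g).natDegree = 0 := by omega
  have h3 : BD 0 0 g := fac_bd.2 ⟨h1.le, h2.le⟩
  have h4 : g = C (g.coeff 0) := eq_C_of_natDegree_eq_zero h1
  have h5 : g.coeff 0 = C ((g.coeff 0).coeff 0) :=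
    eq_C_of_natDegree_eq_zero (Nat.le_zero.1 (h3.2 0))
  have h6 : g = C (C ((g.coeff 0).coeff 0)) := by rw [← h5]; exact h4
  have h7 : (g.coeff 0).coeff 0 ≠ 0 := by
    intro h8
    rw [h8, C_0, C_0] at h6
    exact hg.ne_zero h6
  apply hg.not_isUnit
  rw [h6]
  exact isUnit_C.2 (isUnit_C.2 (isUnit_iff_ne_zero.2 h7))

theorem factors {D : ℕ} {R : ℚ[X][X]} (hR : R ≠ 0) (b : BD D D R) : ∃ L : Finset ℚ[X][X],
    L.card ≤ 2 * D ∧ (∀ g ∈ L, Irreducible g ∧ BD D D g) ∧
    ∀ u x : ℚ, evalEval u x R = 0 → ∃ g ∈ L, evalEval u x g = 0 := by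
  classical
  obtain ⟨f, hf, hprod⟩ := WfDvdMonoid.exists_factors R hR
  obtain ⟨u, hu⟩ := hprod
  have hdvd : ∀ g ∈ f, g ∣ R := fun g hg => by
    rw [← hu]
    exact (Multiset.dvd_prod hg).mul_right _
  have hsum : ∀ m : Multiset ℚ[X][X], (∀ g ∈ m, Irreducible g) →
      m.prod ≠ 0 ∧ m.card ≤ m.prod.natDegree + (Bivariate.swap m.prod).natDegree := by
    intro m
    induction m using Multiset.induction_on with
    | empty =>
      intro _
      simp
    | cons g m ih =>
      intro h
      have hg := h g (Multiset.mem_cons_self g m)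
      have hg0 : g ≠ 0 := hg.ne_zero
      obtain ⟨h1, h2⟩ := ih fun x hx => h x (Multiset.mem_cons_of_mem hx)
      have h3 := fac_pos hg
      rw [Multiset.prod_cons, Multiset.card_cons, map_mul, natDegree_mul hg0 h1,
        natDegree_mul (fac_ne hg0) (fac_ne h1)]
      exact ⟨mul_ne_zero hg0 h1, by omega⟩
  obtain ⟨h1, h2⟩ := hsum f hf
  have h3 : BD D D f.prod := by
    refine bd_of_dvd hR ?_ b
    rw [← hu]
    exact dvd_mul_right _ _
  rw [fac_bd] at h3
  refine ⟨f.toFinset, ?_, ?_, ?_⟩
  · have h4 := Multiset.toFinset_card_le f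
    omega
  · intro g hg
    rw [Multiset.mem_toFinset] at hg
    exact ⟨hf g hg, bd_of_dvd hR (hdvd g hg) b⟩
  · intro u' x hx
    have hu2 : evalEval u' x ((u : (ℚ[X][X])ˣ) : ℚ[X][X]) ≠ 0 := by
      have h5 : IsUnit (evalEval u' x ((u : (ℚ[X][X])ˣ) : ℚ[X][X])) := by
        rw [← coe_evalEvalRingHom]
        exact u.isUnit.map _
      exact h5.ne_zero
    rw [← hu, evalEval_mul] at hx
    have h5 := (mul_eq_zero.1 hx).resolve_right hu2
    rw [evalEval_multiset_prod, Multiset.prod_eq_zero_iff, Multiset.mem_map] at h5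
    obtain ⟨g, hg, hg2⟩ := h5
    exact ⟨g, Multiset.mem_toFinset.2 hg, hg2⟩

end Pool.Agent.H37.TE
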