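import Pool.Agent.H37.TE.Czr
import Pool.Agent.H37.TE.Fac

/-! # [H37 TE ELM] Elimination of `y` and of `x`

`R = resultant F G ∈ ℤ[X][X]`, `R' = resultant (swap F) (swap G)`. `bd_res`: the entries of the Sylvester matrix (size `≤ 2 D`) satisfy `BD D D`; sums of products of `m` such entries satisfy `BD (m D) (m D)` (lemmas: `BD` for sums, products: `BD d1 e1 P → BD d2 e2 Q → BD (d1+d2) (e1+e2) (P*Q)`).
`R ≠ 0`: let `φ = mapRingHom (algebraMap ℤ[X] K)`, `K = FractionRing ℤ[X]`, injective. `res_ne` over the UFD `K[X]` for `F.map φ` (irreducible) and `G.map φ ≠ 0`, which is not a multiple (smaller degree); `resultant_map_map`, `natDegree_map_eq_of_injective`. `R' ≠ 0`: `swap` commutes with `map φ` (`Bivariate.swap` for `ℤ[X]` and for `K`), is an isomorphism, so `swap (F.map φ)` is irreducible and does not divide `swap (G.map φ)`.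
Vanishing: `p * F + q * G = C R` (`exists_mul_add_mul_eq_C_resultant`), evaluate: `ev3 u x y (C R) = evalEval u x R`; `ev3 u x y (swap F) = ev3 u y x F`. `TD D D D (swap F)` by `swap_coeff`. -/

/-! # [H37 TE ELM] Elimination of `y` and of `x`

`R = resultant F G ∈ ℤ[X][X]`, `R' = resultant (swap F) (swap G)`. `bd_res`: the entries of the Sylvester matrix (size `≤ 2 D`) satisfy `BD D D`; sums of products of `m` such entries satisfy `BD (m D) (m D)` (lemmas: `BD` for sums, products: `BD d1 e1 P → BD d2 e2 Q → BD (d1+d2) (e1+e2) (P*Q)`).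
`R ≠ 0`: let `φ = mapRingHom (algebraMap ℤ[X] K)`, `K = FractionRing ℤ[X]`, injective. `res_ne` over the UFD `K[X]` for `F.map φ` (irreducible) and `G.map φ ≠ 0`, which is not a multiple (smaller degree); `resultant_map_map`, `natDegree_map_eq_of_injective`. `R' ≠ 0`: `swap` commutes with `map φ` (`Bivariate.swap` for `ℤ[X]` and for `K`), is an isomorphism, so `swap (F.map φ)` is irreducible and does not divide `swap (G.map φ)`.
Vanishing: `p * F + q * G = C R` (`exists_mul_add_mul_eq_C_resultant`), evaluate: `ev3 u x y (C R) = evalEval u x R`; `ev3 u x y (swap F) = ev3 u y x F`. `TD D D D (swap F)` by `swap_coeff`. -/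

namespace Pool.Agent.H37.TE

open Finset Polynomial

private theorem bd_mono {d e d' e' : ℕ} {P : ℤ[X][X]} (h : BD d e P) (hd : d ≤ d') (he : e ≤ e') : BD d' e' P :=
  ⟨h.1.trans he, fun j => (h.2 j).trans hd⟩

private theorem bd_zero (d e : ℕ) : BD d e (0 : ℤ[X][X]) := by
  refine ⟨by simp, fun j => by simp⟩

private theorem bd_one (d e : ℕ) : BD d e (1 : ℤ[X][X]) := by
  refine ⟨by simp, fun j => ?_⟩
  rw [coeff_one]
  split_ifs <;> simp

private theorem bd_neg {d e : ℕ} {P : ℤ[X][X]} (h : BD d e P) : BD d e (-P) := by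
  refine ⟨by rw [natDegree_neg]; exact h.1, fun j => ?_⟩
  rw [coeff_neg, natDegree_neg]
  exact h.2 j

private theorem bd_mul {d1 e1 d2 e2 : ℕ} {P Q : ℤ[X][X]} (h1 : BD d1 e1 P) (h2 : BD d2 e2 Q) : BD (d1 + d2) (e1 + e2) (P * Q) := by
  refine ⟨natDegree_mul_le.trans (Nat.add_le_add h1.1 h2.1), fun j => ?_⟩
  rw [coeff_mul]
  refine natDegree_sum_le_of_forall_le _ _ (fun x _ => ?_)
  exact natDegree_mul_le.trans (Nat.add_le_add (h1.2 _) (h2.2 _))

private theorem bd_sum {ι : Type} {d e : ℕ} (s : Finset ι) (f : ι → ℤ[X][X]) (h : ∀ i ∈ s, BD d e (f i)) : BD d e (∑ i ∈ s, f i) := by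
  refine ⟨natDegree_sum_le_of_forall_le _ _ (fun i hi => (h i hi).1), fun j => ?_⟩
  rw [finsetSum_coeff]
  exact natDegree_sum_le_of_forall_le _ _ (fun i hi => (h i hi).2 j)

private theorem bd_prod {ι : Type} {d e : ℕ} (s : Finset ι) (f : ι → ℤ[X][X]) (h : ∀ i ∈ s, BD d e (f i)) :
    BD (s.card * d) (s.card * e) (∏ i ∈ s, f i) := by
  classical
  induction s using Finset.induction_on with
  | empty => simpa using bd_one 0 0
  | insert a s ha ih =>
    rw [prod_insert ha, card_insert_of_notMem ha]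
    have h1 := bd_mul (h a (mem_insert_self _ _)) (ih (fun i hi => h i (mem_insert_of_mem hi)))
    refine bd_mono h1 (le_of_eq ?_) (le_of_eq ?_) <;> ring

theorem bd_res {D : ℕ} (f g : ℤ[X][X][X]) (hf : TD D D D f) (hg : TD D D D g) :
    BD (2 * D * D) (2 * D * D) (resultant f g) := by
  have hent : ∀ i j, BD D D (sylvester f g f.natDegree g.natDegree i j) := by
    intro i j
    unfold sylvester
    rw [Matrix.of_apply]
    induction j using Fin.addCases with
    | left j =>
      rw [Fin.addCases_left]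
      split_ifs
      · exact hg.2 _
      · exact bd_zero _ _
    | right j =>
      rw [Fin.addCases_right]
      split_ifs
      · exact hf.2 _
      · exact bd_zero _ _
  unfold resultant
  rw [Matrix.det_apply]
  refine bd_sum _ _ (fun σ _ => ?_)
  have h1 : BD (2 * D * D) (2 * D * D) (∏ i, sylvester f g f.natDegree g.natDegree (σ i) i) := by
    have h2 := bd_prod (univ : Finset (Fin (f.natDegree + g.natDegree)))
      (fun i => sylvester f g f.natDegree g.natDegree (σ i) i) (fun i _ => hent _ _)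
    rw [card_univ, Fintype.card_fin] at h2
    have h3 : f.natDegree + g.natDegree ≤ 2 * D := by
      have := hf.1
      have := hg.1
      omega
    exact bd_mono h2 (Nat.mul_le_mul_right _ h3) (Nat.mul_le_mul_right _ h3)
  rcases Int.units_eq_one_or (Equiv.Perm.sign σ) with h | h
  · rw [h, one_smul]
    exact h1
  · rw [h, Units.neg_smul, one_smul]
    exact bd_neg h1

private theorem td_swap {D : ℕ} {F : ℤ[X][X][X]} (hF : TD D D D F) : TD D D D (Bivariate.swap F) := by
  refine ⟨?_, fun k => ⟨?_, fun j => ?_⟩⟩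
  · rw [natDegree_le_iff_coeff_eq_zero]
    intro k hk
    ext1 j
    rw [swap_coeff, coeff_zero]
    exact coeff_eq_zero_of_natDegree_lt (((hF.2 j).1).trans_lt hk)
  · rw [natDegree_le_iff_coeff_eq_zero]
    intro j hj
    rw [swap_coeff, coeff_eq_zero_of_natDegree_lt (hF.1.trans_lt hj), coeff_zero]
  · rw [swap_coeff]
    exact (hF.2 j).2 k

private theorem swap_map {A B : Type} [CommRing A] [CommRing B] (f : A →+* B) (P : A[X][X]) :
    Bivariate.swap (P.map (mapRingHom f)) = (Bivariate.swap P).map (mapRingHom f) := by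
  ext i j
  rw [swap_coeff, coeff_map, coe_mapRingHom, coeff_map, coeff_map, coe_mapRingHom, coeff_map, swap_coeff]

private theorem ev3_swap (u x y : ℤ) (F : ℤ[X][X][X]) : ev3 u x y (Bivariate.swap F) = ev3 u y x F := by
  unfold ev3
  generalize eval₂RingHom (Int.castRingHom ℤ) u = ψ
  have h : (eval₂RingHom (eval₂RingHom ψ x) y).comp (Bivariate.swap (R := ℤ[X])).toRingEquiv.toRingHom =
      eval₂RingHom (eval₂RingHom ψ y) x := by
    refine Polynomial.ringHom_ext' (Polynomial.ringHom_ext' ?_ ?_) ?_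
    · ext a
      · simp
      · simp [Bivariate.swap_C_C]
    · simp
      rw [Bivariate.swap_X, eval₂_X]
    · simp
      rw [Bivariate.swap_Y, eval₂_C, coe_eval₂RingHom, eval₂_X]
  exact congrFun (congrArg DFunLike.coe h) F

private theorem ev3_C (u x y : ℤ) (R : ℤ[X][X]) : ev3 u x y (C R) = evalEval u x R := by
  unfold ev3
  rw [eval₂_C, coe_eval₂RingHom, ← eval₂_evalRingHom]
  congr 1

private theorem ev3_mul_add {u x y : ℤ} {F G p q : ℤ[X][X][X]} {R : ℤ[X][X]} (h : F * p + G * q = C R)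
    (hF : ev3 u x y F = 0) (hG : ev3 u x y G = 0) : evalEval u x R = 0 := by
  rw [← ev3_C u x y, ← h]
  unfold ev3 at hF hG ⊢
  rw [eval₂_add, eval₂_mul, eval₂_mul, hF, hG, zero_mul, zero_mul, add_zero]

theorem elim3 {D : ℕ} {F G : ℤ[X][X][X]} (hF : TD D D D F) (hG : TD D D D G)
    (hirr : Irreducible (F.map (mapRingHom (algebraMap ℤ[X] (FractionRing ℤ[X])))))
    (h1 : 1 ≤ F.natDegree) (h2 : 1 ≤ (Bivariate.swap F).natDegree) (hG0 : G ≠ 0)
    (hlt : G.natDegree < F.natDegree) : ∃ R R' : ℤ[X][X], R ≠ 0 ∧ R' ≠ 0 ∧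
      BD (2 * D * D) (2 * D * D) R ∧ BD (2 * D * D) (2 * D * D) R' ∧
      ∀ u x y : ℤ, ev3 u x y F = 0 → ev3 u x y G = 0 →
        evalEval u x R = 0 ∧ evalEval u y R' = 0 := by
  have hinj : Function.Injective (mapRingHom (algebraMap ℤ[X] (FractionRing ℤ[X]))) :=
    map_injective _ (IsFractionRing.injective ℤ[X] (FractionRing ℤ[X]))
  have hnd : ¬ F.map (mapRingHom (algebraMap ℤ[X] (FractionRing ℤ[X]))) ∣
      G.map (mapRingHom (algebraMap ℤ[X] (FractionRing ℤ[X]))) := by
    intro hdvd
    have h3 : G.map (mapRingHom (algebraMap ℤ[X] (FractionRing ℤ[X]))) ≠ 0 := by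
      rw [Ne, Polynomial.map_eq_zero_iff hinj]
      exact hG0
    have h4 := natDegree_le_of_dvd hdvd h3
    rw [natDegree_map_eq_of_injective hinj, natDegree_map_eq_of_injective hinj] at h4
    omega
  have key : ∀ P Q : ℤ[X][X][X], Irreducible (P.map (mapRingHom (algebraMap ℤ[X] (FractionRing ℤ[X])))) → 1 ≤ P.natDegree →
      ¬ P.map (mapRingHom (algebraMap ℤ[X] (FractionRing ℤ[X]))) ∣ Q.map (mapRingHom (algebraMap ℤ[X] (FractionRing ℤ[X]))) →
        resultant P Q ≠ 0 := by
    intro P Q k1 k2 k3 k4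
    have h5 := res_ne _ _ k1 (by rw [natDegree_map_eq_of_injective hinj]; exact k2) k3
    apply h5
    rw [natDegree_map_eq_of_injective hinj, natDegree_map_eq_of_injective hinj, resultant_map_map, k4, map_zero]
  refine ⟨resultant F G, resultant (Bivariate.swap F) (Bivariate.swap G), key F G hirr h1 hnd, key _ _ ?_ h2 ?_, bd_res F G hF hG,
    bd_res _ _ (td_swap hF) (td_swap hG), fun u x y hu hv => ⟨?_, ?_⟩⟩
  · rw [← swap_map]
    exact (MulEquiv.irreducible_iff (Bivariate.swap (R := FractionRing ℤ[X]))).2 hirr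
  · rw [← swap_map, ← swap_map]
    intro hdvd
    exact hnd ((map_dvd_iff (Bivariate.swap (R := FractionRing ℤ[X]))).1 hdvd)
  · obtain ⟨p, q, -, -, hpq⟩ := exists_mul_add_mul_eq_C_resultant F G le_rfl le_rfl (Or.inl (by omega))
    exact ev3_mul_add hpq hu hv
  · obtain ⟨p, q, -, -, hpq⟩ := exists_mul_add_mul_eq_C_resultant (Bivariate.swap F) (Bivariate.swap G) le_rfl le_rfl
      (Or.inl (by omega))
    refine ev3_mul_add (x := y) (y := x) hpq ?_ ?_
    · rw [ev3_swap]
      exact hu
    · rw [ev3_swap]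
      exact hv

end Pool.Agent.H37.TE
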