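import Pool.Agent.H92.DivBound
import Pool.Agent.H37.TE.Hgt

/-! # [H37 TE LNF] Points on curves of degree one in `x` which are not graphs of polynomials

`1 ≤ d`. If `(T.image fst).card ≤ 2 d` trivial. `R2` from `int_height` with `e = 1`, `α = R2.coeff 1`, `β = R2.coeff 0`, `natDegree α ≥ 1` (`qP R2 = C (C c) * R1`), coefficients `≤ H`, `H ≤ c1 U^κ1`. Over `ℚ` they are coprime: a common factor `g` of positive degree gives a factor `C g` of `R1`, the cofactor has degree one, contradiction to `Irreducible R1`. `ρ = resultant α β ≠ 0` (over `ℚ`: `resultant_ne_zero`, `resultant_map_map`),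
`|ρ| ≤ (2d)! H^(2d)` (Sylvester matrix), `p α + q β = C ρ` (`exists_mul_add_mul_eq_C_resultant`). For `(u,x) ∈ T`: `α(u) x + β(u) = 0`, so `α(u) ∣ β(u)`, `α(u) ∣ ρ`. So `α(u) = ± δ`, `δ ∈ divisors |ρ|`, for each value at most `natDegree α ≤ d` numbers `u`. `divisor_bound` (`Pool/Agent/H92/DivBound.lean`) with a small `ε`: `C (c2 U^κ2)^ε ≤ C' U^(5/8) ≤ C' P`, `U^(5/8) ≤ P` since `U^5 ≤ P^8`. -/

namespace Pool.Agent.H37.TE

open Finset Polynomial

private theorem lnf_num (κ2 c2 : ℕ) : ∃ c : ℕ, ∀ U P : ℕ, Cpl U P → ∀ n : ℕ, 1 ≤ n →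
    n ≤ c2 * U ^ κ2 → n.divisors.card ≤ c * P := by
  obtain ⟨ε, hε⟩ : ∃ ε : ℝ, ε = 5 / (8 * ((κ2 : ℝ) + 1)) := ⟨_, rfl⟩
  have hε0 : 0 < ε := by
    rw [hε]
    positivity
  obtain ⟨C0, hC0, hC⟩ := Pool.Agent.H5.W.divisor_bound ε hε0
  refine ⟨⌈C0 * (c2 : ℝ) ^ ε⌉₊, ?_⟩
  intro U P hUP n hn hn2
  obtain ⟨hU, hUP⟩ := hUP
  have hεκ : (κ2 : ℝ) * ε ≤ 5 / 8 := by
    rw [hε, mul_div_assoc', div_le_div_iff₀ (by positivity) (by norm_num)]
    nlinarith [Nat.cast_nonneg (α := ℝ) κ2]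
  have hU1 : (1 : ℝ) ≤ U := by exact_mod_cast hU
  have hP0 : (0 : ℝ) ≤ P := Nat.cast_nonneg P
  have h1 : (n : ℝ) ^ ε ≤ (c2 : ℝ) ^ ε * P := by
    have h2 : (n : ℝ) ≤ (c2 : ℝ) * (U : ℝ) ^ κ2 := by exact_mod_cast hn2
    have h3 : (n : ℝ) ^ ε ≤ ((c2 : ℝ) * (U : ℝ) ^ κ2) ^ ε :=
      Real.rpow_le_rpow (Nat.cast_nonneg n) h2 hε0.le
    have h4 : ((c2 : ℝ) * (U : ℝ) ^ κ2) ^ ε = (c2 : ℝ) ^ ε * (U : ℝ) ^ ((κ2 : ℝ) * ε) := by
      rw [Real.mul_rpow (Nat.cast_nonneg _) (by positivity), ← Real.rpow_natCast (U : ℝ) κ2,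
        ← Real.rpow_mul (by positivity)]
    have h5 : (U : ℝ) ^ ((κ2 : ℝ) * ε) ≤ (U : ℝ) ^ ((5 : ℝ) / 8) :=
      Real.rpow_le_rpow_of_exponent_le hU1 hεκ
    have h6 : (U : ℝ) ^ ((5 : ℝ) / 8) ≤ P := by
      have h7 : ((U : ℝ) ^ (5 : ℕ)) ≤ (P : ℝ) ^ (8 : ℕ) := by exact_mod_cast hUP
      have h8 : (U : ℝ) ^ ((5 : ℝ) / 8) = ((U : ℝ) ^ (5 : ℕ)) ^ ((1 : ℝ) / 8) := by
        rw [← Real.rpow_natCast (U : ℝ) 5, ← Real.rpow_mul (by positivity)]
        norm_num
      have h9 : ((P : ℝ) ^ (8 : ℕ)) ^ ((1 : ℝ) / 8) = P := by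
        rw [← Real.rpow_natCast (P : ℝ) 8, ← Real.rpow_mul hP0]
        norm_num
      rw [h8, ← h9]
      exact Real.rpow_le_rpow (by positivity) h7 (by norm_num)
    calc (n : ℝ) ^ ε ≤ (c2 : ℝ) ^ ε * (U : ℝ) ^ ((κ2 : ℝ) * ε) := by rw [← h4]; exact h3
      _ ≤ (c2 : ℝ) ^ ε * P :=
        mul_le_mul_of_nonneg_left (h5.trans h6) (Real.rpow_nonneg (Nat.cast_nonneg _) _)
  have h2 : (n.divisors.card : ℝ) ≤ (⌈C0 * (c2 : ℝ) ^ ε⌉₊ : ℝ) * P := by
    calc (n.divisors.card : ℝ) ≤ C0 * (n : ℝ) ^ ε := hC n hn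
      _ ≤ C0 * ((c2 : ℝ) ^ ε * P) := mul_le_mul_of_nonneg_left h1 hC0.le
      _ = (C0 * (c2 : ℝ) ^ ε) * P := by ring
      _ ≤ (⌈C0 * (c2 : ℝ) ^ ε⌉₊ : ℝ) * P := mul_le_mul_of_nonneg_right (Nat.le_ceil _) hP0
  exact_mod_cast h2

private theorem lnf_res (f g : ℤ[X]) (d H : ℕ) (hH : 1 ≤ H) (hf : f.natDegree ≤ d)
    (hg : g.natDegree ≤ d) (h1 : ∀ i, |f.coeff i| ≤ (H : ℤ)) (h2 : ∀ i, |g.coeff i| ≤ (H : ℤ)) :
    (resultant f g).natAbs ≤ (2 * d).factorial * H ^ (2 * d) := by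
  have h3 : ∀ i j, (AbsoluteValue.abs : AbsoluteValue ℤ ℤ)
      (sylvester f g f.natDegree g.natDegree i j) ≤ (H : ℤ) := by
    intro i j
    rw [sylvester, Matrix.of_apply]
    refine Fin.addCases (fun a => ?_) (fun a => ?_) j
    · rw [Fin.addCases_left]
      split_ifs
      · exact h2 _
      · simp
    · rw [Fin.addCases_right]
      split_ifs
      · exact h1 _
      · simp
  have h4 := Matrix.det_le h3
  rw [Fintype.card_fin] at h4
  have h5 : ((resultant f g).natAbs : ℤ)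
      ≤ (f.natDegree + g.natDegree).factorial * (H : ℤ) ^ (f.natDegree + g.natDegree) := by
    rw [Int.natCast_natAbs]
    simpa [resultant, nsmul_eq_mul] using h4
  have h6 : (resultant f g).natAbs
      ≤ (f.natDegree + g.natDegree).factorial * H ^ (f.natDegree + g.natDegree) := by
    exact_mod_cast h5
  refine h6.trans (Nat.mul_le_mul (Nat.factorial_le (by omega)) (Nat.pow_le_pow_right hH (by omega)))

private theorem lnf_cop {R1 : ℚ[X][X]} (hR : Irreducible R1) (hR1 : R1.natDegree = 1) :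
    IsCoprime (R1.coeff 1) (R1.coeff 0) := by
  have hprim : R1.IsPrimitive := hR.isPrimitive (by omega)
  have h1 : IsRelPrime (R1.coeff 1) (R1.coeff 0) := by
    intro g hg1 hg0
    apply hprim g
    rw [C_dvd_iff_dvd_coeff]
    intro i
    rcases Nat.eq_zero_or_pos i with h | h
    · rw [h]
      exact hg0
    · rcases Nat.eq_or_lt_of_le h with h2 | h2
      · rw [← h2]
        exact hg1
      · rw [coeff_eq_zero_of_natDegree_lt (by omega)]
        exact dvd_zero _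
  exact h1.isCoprime

private theorem lnf_ne {α : ℤ[X]} (h : 1 ≤ α.natDegree) (a : ℤ) : α - C a ≠ 0 := by
  intro h1
  have h2 : (α - C a).natDegree = α.natDegree := natDegree_sub_C
  rw [h1, natDegree_zero] at h2
  omega

theorem count_lin (d κ : ℕ) : ∃ c : ℕ, ∀ U P : ℕ, Cpl U P → ∀ R1 : ℚ[X][X],
    Irreducible R1 → R1.natDegree = 1 → 1 ≤ (R1.coeff 1).natDegree →
    (∃ j, (R1.coeff j).natDegree = d) → BD d 1 R1 →
    ∀ T : Finset (ℤ × ℤ), (∀ t ∈ T, 0 ≤ t.1 ∧ t.1 ≤ U ∧ |t.2| ≤ ((U ^ κ : ℕ) : ℤ) ∧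
      evalEval (t.1 : ℚ) (t.2 : ℚ) R1 = 0) → (T.image Prod.fst).card ≤ c * P := by
  classical
  obtain ⟨c1, hc1⟩ := lnf_num ((d + κ) * ((d + 1) * (1 + 1)) * (2 * d))
    ((2 * d).factorial * ((d + 1) * (1 + 1)) ^ ((d + 1) * (1 + 1) * (2 * d)))
  refine ⟨2 * d + 2 * d * c1, ?_⟩
  intro U P hUP R1 hR hR1 hα1 hd hb T hT
  have hP : 1 ≤ P := by
    rcases Nat.eq_zero_or_pos P with h | h
    · obtain ⟨h1, h2⟩ := hUP
      rw [h] at h2
      have h3 : 1 ≤ U ^ 5 := Nat.one_le_pow _ _ h1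
      norm_num at h2
      omega
    · exact h
  by_cases hcard : (T.image Prod.fst).card ≤ (1 + 1) * d
  · calc (T.image Prod.fst).card ≤ (1 + 1) * d := hcard
      _ ≤ (2 * d + 2 * d * c1) * 1 := by
        rw [mul_one]
        omega
      _ ≤ (2 * d + 2 * d * c1) * P := Nat.mul_le_mul_left _ hP
  · rw [not_le] at hcard
    obtain ⟨R2, c0, hc0, hq, hdeg, hb2, hH⟩ := int_height hR hR1 le_rfl hd hb U (U ^ κ) hUP.1
      (Nat.one_le_pow _ _ hUP.1) T hT hcard
    obtain ⟨α, hα⟩ : ∃ α, α = R2.coeff 1 := ⟨_, rfl⟩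
    obtain ⟨β, hβ⟩ : ∃ β, β = R2.coeff 0 := ⟨_, rfl⟩
    have hinj : Function.Injective (Int.castRingHom ℚ) := RingHom.injective_int _
    have hco : ∀ j, (R2.coeff j).map (Int.castRingHom ℚ) = C c0 * R1.coeff j := by
      intro j
      have h1 := congrArg (fun p => Polynomial.coeff p j) hq
      simp only [qP, coeff_map, coe_mapRingHom, coeff_C_mul] at h1
      exact h1
    have hαd : α.natDegree ≤ d := by
      rw [hα]
      exact hb2.2 1
    have hβd : β.natDegree ≤ d := by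
      rw [hβ]
      exact hb2.2 0
    have hα0 : 1 ≤ α.natDegree := by
      rw [← natDegree_map_eq_of_injective hinj, hα, hco 1, natDegree_C_mul hc0]
      exact hα1
    have hcop : IsCoprime (α.map (Int.castRingHom ℚ)) (β.map (Int.castRingHom ℚ)) := by
      rw [hα, hβ, hco, hco]
      refine (isCoprime_mul_unit_left (isUnit_C.2 (isUnit_iff_ne_zero.2 hc0)) _ _).2 ?_
      exact lnf_cop hR hR1
    obtain ⟨ρ, hρ⟩ : ∃ ρ, ρ = resultant α β := ⟨_, rfl⟩
    have hρ0 : ρ ≠ 0 := by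
      have h1 := resultant_ne_zero _ _ hcop
      rw [natDegree_map_eq_of_injective hinj, natDegree_map_eq_of_injective hinj,
        resultant_map_map] at h1
      intro h2
      apply h1
      rw [← hρ, h2, map_zero]
    obtain ⟨H, hHd⟩ : ∃ H : ℕ, H = ((d + 1) * (1 + 1) * (U ^ d * (U ^ κ) ^ 1)) ^
      ((d + 1) * (1 + 1)) := ⟨_, rfl⟩
    have hU := hUP.1
    have hH1 : 1 ≤ H := by
      rw [hHd]
      exact Nat.one_le_pow _ _ (by positivity)
    have hρb : ρ.natAbs ≤ (2 * d).factorial * H ^ (2 * d) := by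
      rw [hρ]
      refine lnf_res α β d H hH1 hαd hβd (fun i => ?_) (fun i => ?_)
      · rw [hα, hHd]
        exact hH i 1
      · rw [hβ, hHd]
        exact hH i 0
    have hHc : (2 * d).factorial * H ^ (2 * d)
        = (2 * d).factorial * ((d + 1) * (1 + 1)) ^ ((d + 1) * (1 + 1) * (2 * d))
          * U ^ ((d + κ) * ((d + 1) * (1 + 1)) * (2 * d)) := by
      rw [hHd, pow_one, ← pow_add, mul_pow, mul_pow, ← pow_mul, ← pow_mul, ← pow_mul,
        mul_assoc (2 * d).factorial, mul_assoc (d + κ)]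
    have hdiv : ρ.natAbs.divisors.card ≤ c1 * P :=
      hc1 U P hUP ρ.natAbs (Int.natAbs_pos.2 hρ0) (by rw [← hHc]; exact hρb)
    obtain ⟨p, q, -, -, hpq⟩ := exists_mul_add_mul_eq_C_resultant (m := α.natDegree)
      (n := β.natDegree) α β le_rfl le_rfl (Or.inl (by omega))
    have hmaps : ∀ u ∈ T.image Prod.fst, (α.eval u).natAbs ∈ ρ.natAbs.divisors := by
      intro u hu
      rw [Finset.mem_image] at hu
      obtain ⟨t, ht, rfl⟩ := hu
      have h1 := (hT t ht).2.2.2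
      have h2 : evalEval (t.1 : ℚ) (t.2 : ℚ) (qP R2) = 0 := by
        rw [hq, evalEval_mul, h1, mul_zero]
      have h3 : evalEval t.1 t.2 R2 = 0 := by
        have h4 := map_mapRingHom_evalEval (Int.castRingHom ℚ) R2 t.1 t.2
        rw [qP] at h2
        have h5 : (Int.castRingHom ℚ) (evalEval t.1 t.2 R2) = 0 := by
          rw [← h4]
          exact h2
        exact (map_eq_zero_iff _ hinj).1 h5
      have h4 : α.eval t.1 * t.2 + β.eval t.1 = 0 := by
        have h5 := eq_X_add_C_of_natDegree_le_one hdeg.le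
        rw [h5] at h3
        rw [hα, hβ]
        simpa [evalEval] using h3
      rw [Nat.mem_divisors]
      refine ⟨Int.natAbs_dvd_natAbs.2 ?_, by simpa using hρ0⟩
      have h5 := congrArg (Polynomial.eval t.1) hpq
      rw [eval_add, eval_mul, eval_mul, eval_C, ← hρ] at h5
      rw [← h5]
      have h6 : β.eval t.1 = α.eval t.1 * (-t.2) := by linarith
      rw [h6, mul_assoc]
      exact dvd_add (dvd_mul_right _ _) (dvd_mul_right _ _)
    have hfib := Finset.card_le_mul_card_image_of_maps_to hmaps (2 * d) (fun δ _ => by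
      have hsub : (T.image Prod.fst).filter (fun u => (α.eval u).natAbs = δ)
          ⊆ (α - C (δ : ℤ)).roots.toFinset ∪ (α - C (-(δ : ℤ))).roots.toFinset := by
        intro u hu
        rw [Finset.mem_filter] at hu
        rw [Finset.mem_union, Multiset.mem_toFinset, Multiset.mem_toFinset,
          mem_roots (lnf_ne hα0 _), mem_roots (lnf_ne hα0 _), IsRoot, IsRoot, eval_sub, eval_sub,
          eval_C, eval_C]
        have h7 := hu.2
        omega
      refine (Finset.card_le_card hsub).trans ((Finset.card_union_le _ _).trans ?_)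
      have h8 := (Multiset.toFinset_card_le (α - C (δ : ℤ)).roots).trans (card_roots' _)
      have h9 := (Multiset.toFinset_card_le (α - C (-(δ : ℤ))).roots).trans (card_roots' _)
      rw [natDegree_sub_C] at h8 h9
      omega)
    calc (T.image Prod.fst).card ≤ 2 * d * ρ.natAbs.divisors.card := hfib
      _ ≤ 2 * d * (c1 * P) := Nat.mul_le_mul_left _ hdiv
      _ ≤ (2 * d + 2 * d * c1) * P := by
        rw [← mul_assoc, add_mul]
        exact Nat.le_add_left _ _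

end Pool.Agent.H37.TE
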