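import Pool.Agent.H37.TE.Fac
import Pool.Agent.H37.TE.Cnt
import Pool.Agent.H37.TE.Lnf

/-! # [H37 TE FCT] Integral points on plane curves: all but few lie on graphs of polynomials

`Lf` from `factors`. `c` larger than `2 D` times the maximum of `D`, the constants of `count_irr d e κ` (`d ≤ D`, `2 ≤ e ≤ D`), `count_lin d κ` (`d ≤ D`). `L` = the polynomials `r = - C(1/a) * g.coeff 0` for the `g ∈ Lf` with `g.natDegree = 1`, `g.coeff 1 = C a`. Let `t ∈ T`, `g ∈ Lf` with `g(t) = 0`.
`g.natDegree = 0`: `g = C q`, `q ≠ 0`, `q(t.1) = 0`, at most `D` values. `g.natDegree = 1`, `natDegree (g.coeff 1) ≥ 1`: `count_lin`, `d` = the maximum of the degrees of the coefficients. `g.natDegree = 1`, `g.coeff 1 = C a`, `a ≠ 0`: `r(t.1) = t.2` for this `r ∈ L`, excluded. `g.natDegree ≥ 2`: `count_irr`.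
`(T.image fst).card ≤ ∑_(g ∈ Lf) ((T.filter (g = 0)).image fst).card ≤ 2 D * c' * P` (`1 ≤ P`). -/

namespace Pool.Agent.H37.TE

open Finset Polynomial

private lemma exists_max {D : ℕ} {g : ℚ[X][X]} (hg : g ≠ 0) (b : BD D D g) :
    ∃ d ≤ D, (∃ j, (g.coeff j).natDegree = d) ∧ BD d g.natDegree g := by
  obtain ⟨j, hj, hj2⟩ := Finset.exists_mem_eq_sup g.support
    (Polynomial.support_nonempty.2 hg) (fun j => (g.coeff j).natDegree)
  refine ⟨(g.coeff j).natDegree, b.2 j, ⟨j, rfl⟩, le_rfl, fun i => ?_⟩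
  by_cases hi : i ∈ g.support
  · have h1 := Finset.le_sup (f := fun j => (g.coeff j).natDegree) hi
    rw [hj2] at h1
    exact h1
  · rw [Polynomial.notMem_support_iff.1 hi]
    simp

private lemma count_const {D : ℕ} {g : ℚ[X][X]} (hg : g ≠ 0) (b : BD D D g)
    (h0 : g.natDegree = 0) (T : Finset (ℤ × ℤ))
    (hT : ∀ t ∈ T, evalEval (t.1 : ℚ) (t.2 : ℚ) g = 0) : (T.image Prod.fst).card ≤ D := by
  classical
  have h1 : g = C (g.coeff 0) := Polynomial.eq_C_of_natDegree_eq_zero h0
  have hq : g.coeff 0 ≠ 0 := by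
    intro h
    rw [h, C_0] at h1
    exact hg h1
  calc (T.image Prod.fst).card ≤ (g.coeff 0).roots.toFinset.card := by
        apply Finset.card_le_card_of_injOn (fun z : ℤ => (z : ℚ))
        · intro z hz
          obtain ⟨t, ht, rfl⟩ := Finset.mem_image.1 hz
          have h2 := hT t ht
          rw [h1, evalEval, eval_C] at h2
          simp only [Finset.mem_coe, Multiset.mem_toFinset]
          rw [mem_roots hq]
          exact h2
        · intro x _ y _ hxy
          exact Int.cast_injective hxy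
    _ ≤ Multiset.card (g.coeff 0).roots := Multiset.toFinset_card_le _
    _ ≤ (g.coeff 0).natDegree := card_roots' _
    _ ≤ D := b.2 0

private lemma eval_deg_one {g : ℚ[X][X]} (h1 : g.natDegree = 1) (u x : ℚ) :
    evalEval u x g = (g.coeff 1).eval u * x + (g.coeff 0).eval u := by
  have h2 : eval (C x) g = g.coeff 0 + g.coeff 1 * C x := by
    rw [Polynomial.eval_eq_sum_range, h1]
    simp [Finset.sum_range_succ]
  rw [evalEval, h2, eval_add, eval_mul, eval_C]
  ring

theorem plane_points (D κ : ℕ) : ∃ c : ℕ, ∀ U P : ℕ, Cpl U P → ∀ R : ℚ[X][X], R ≠ 0 →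
    BD D D R → ∃ L : Finset ℚ[X], L.card ≤ 2 * D ∧ (∀ r ∈ L, r.natDegree ≤ D) ∧
    ∀ T : Finset (ℤ × ℤ), (∀ t ∈ T, 0 ≤ t.1 ∧ t.1 ≤ U ∧ |t.2| ≤ ((U ^ κ : ℕ) : ℤ) ∧
      evalEval (t.1 : ℚ) (t.2 : ℚ) R = 0 ∧ ∀ r ∈ L, r.eval (t.1 : ℚ) ≠ (t.2 : ℚ)) →
      (T.image Prod.fst).card ≤ c * P := by
  classical
  choose ci hci using fun (d e : ℕ) (he : 2 ≤ e) => count_irr d e κ he
  choose cl hcl using fun d : ℕ => count_lin d κ
  let ci' : ℕ → ℕ → ℕ := fun d e => if h : 2 ≤ e then ci d e h else 0
  let M : ℕ := D + ∑ d ∈ range (D + 1), cl d + ∑ d ∈ range (D + 1), ∑ e ∈ range (D + 1), ci' d e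
  refine ⟨2 * D * M, fun U P hUP R hR b => ?_⟩
  have hP : 1 ≤ P := by
    have h1 := hUP.2
    rcases Nat.eq_zero_or_pos P with h | h
    · rw [h] at h1
      have h2 : 0 < U ^ 5 := pow_pos hUP.1 5
      rw [show (0 : ℕ) ^ 8 = 0 by norm_num] at h1
      exact absurd h1 (not_le.2 h2)
    · exact h
  obtain ⟨Lf, hLc, hLi, hLz⟩ := factors hR b
  let L0 : Finset ℚ[X][X] := Lf.filter fun g => g.natDegree = 1 ∧ (g.coeff 1).natDegree = 0
  refine ⟨L0.image fun g => -(C ((g.coeff 1).coeff 0)⁻¹ * g.coeff 0), ?_, ?_, ?_⟩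
  · exact (Finset.card_image_le.trans (Finset.card_filter_le _ _)).trans hLc
  · intro r hr
    obtain ⟨g, hg, rfl⟩ := Finset.mem_image.1 hr
    have hg1 := (Finset.mem_filter.1 hg).1
    rw [natDegree_neg]
    exact (natDegree_C_mul_le _ _).trans ((hLi g hg1).2.2 0)
  · intro T hT
    have hsub : T.image Prod.fst ⊆ Lf.biUnion fun g =>
        (T.filter fun t => evalEval (t.1 : ℚ) (t.2 : ℚ) g = 0).image Prod.fst := by
      intro z hz
      obtain ⟨t, ht, rfl⟩ := Finset.mem_image.1 hz
      obtain ⟨g, hg, hg0⟩ := hLz _ _ (hT t ht).2.2.2.1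
      exact Finset.mem_biUnion.2 ⟨g, hg, Finset.mem_image.2
        ⟨t, Finset.mem_filter.2 ⟨ht, hg0⟩, rfl⟩⟩
    have hbd : ∀ g ∈ Lf, ((T.filter fun t => evalEval (t.1 : ℚ) (t.2 : ℚ) g = 0).image
        Prod.fst).card ≤ M * P := by
      intro g hg
      obtain ⟨hirr, hb⟩ := hLi g hg
      obtain ⟨d, hdD, hdj, hbd⟩ := exists_max hirr.ne_zero hb
      have hdr : d ∈ range (D + 1) := Finset.mem_range.2 (by omega)
      have her : g.natDegree ∈ range (D + 1) := Finset.mem_range.2 (by have := hb.1; omega)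
      have hM1 : D ≤ M := by
        show D ≤ D + _ + _
        omega
      have hM2 : cl d ≤ M := by
        have h1 : cl d ≤ ∑ d ∈ range (D + 1), cl d :=
          Finset.single_le_sum (f := cl) (fun _ _ => Nat.zero_le _) hdr
        show cl d ≤ D + _ + _
        omega
      have hM3 : ci' d g.natDegree ≤ M := by
        have h1 : ci' d g.natDegree ≤ ∑ e ∈ range (D + 1), ci' d e :=
          Finset.single_le_sum (f := ci' d) (fun _ _ => Nat.zero_le _) her
        have h2 : ∑ e ∈ range (D + 1), ci' d e ≤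
            ∑ d ∈ range (D + 1), ∑ e ∈ range (D + 1), ci' d e :=
          Finset.single_le_sum (f := fun d => ∑ e ∈ range (D + 1), ci' d e)
            (fun _ _ => Nat.zero_le _) hdr
        show ci' d g.natDegree ≤ D + _ + _
        omega
      have hT' : ∀ t ∈ T.filter fun t => evalEval (t.1 : ℚ) (t.2 : ℚ) g = 0,
          0 ≤ t.1 ∧ t.1 ≤ U ∧ |t.2| ≤ ((U ^ κ : ℕ) : ℤ) ∧
            evalEval (t.1 : ℚ) (t.2 : ℚ) g = 0 := by
        intro t ht
        obtain ⟨h1, h2⟩ := Finset.mem_filter.1 ht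
        obtain ⟨h3, h4, h5, _, _⟩ := hT t h1
        exact ⟨h3, h4, h5, h2⟩
      rcases Nat.lt_or_ge g.natDegree 2 with h2 | h2
      · rcases Nat.lt_or_ge g.natDegree 1 with h1 | h1
        · have h0 : g.natDegree = 0 := by omega
          have h3 := count_const hirr.ne_zero hb h0 _ (fun t ht => (hT' t ht).2.2.2)
          calc _ ≤ D := h3
            _ ≤ M := hM1
            _ = M * 1 := (mul_one _).symm
            _ ≤ M * P := Nat.mul_le_mul_left _ hP
        · have h1' : g.natDegree = 1 := by omega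
          rcases Nat.eq_zero_or_pos (g.coeff 1).natDegree with h3 | h3
          · -- graphs: excluded
            have hemp : (T.filter fun t => evalEval (t.1 : ℚ) (t.2 : ℚ) g = 0) = ∅ := by
              rw [Finset.filter_eq_empty_iff]
              intro t ht h0
              obtain ⟨_, _, _, _, h5⟩ := hT t ht
              apply h5 (-(C ((g.coeff 1).coeff 0)⁻¹ * g.coeff 0))
                (Finset.mem_image.2 ⟨g, Finset.mem_filter.2 ⟨hg, h1', h3⟩, rfl⟩)
              rw [eval_deg_one h1'] at h0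
              have h6 : g.coeff 1 = C ((g.coeff 1).coeff 0) :=
                Polynomial.eq_C_of_natDegree_eq_zero h3
              have h7 : (g.coeff 1).coeff 0 ≠ 0 := by
                intro h
                rw [h, C_0] at h6
                have h8 : g.leadingCoeff = 0 := by
                  rw [Polynomial.leadingCoeff, h1', h6]
                exact hirr.ne_zero (leadingCoeff_eq_zero.1 h8)
              rw [h6, eval_C] at h0
              rw [eval_neg, eval_mul, eval_C]
              field_simp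
              linarith
            rw [hemp]
            simp
          · have h4 := hcl d U P hUP g hirr h1' h3 hdj (h1' ▸ hbd) _ hT'
            exact h4.trans (Nat.mul_le_mul_right _ hM2)
      · have h4 := hci d g.natDegree h2 U P hUP g hirr rfl hdj hbd _ hT'
        have h5 : ci' d g.natDegree = ci d g.natDegree h2 := dif_pos h2
        rw [← h5] at h4
        exact h4.trans (Nat.mul_le_mul_right _ hM3)
    calc (T.image Prod.fst).card ≤ _ := Finset.card_le_card hsub
      _ ≤ ∑ g ∈ Lf, ((T.filter fun t => evalEval (t.1 : ℚ) (t.2 : ℚ) g = 0).image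
        Prod.fst).card := Finset.card_biUnion_le
      _ ≤ ∑ g ∈ Lf, M * P := Finset.sum_le_sum hbd
      _ = Lf.card * (M * P) := by rw [Finset.sum_const, smul_eq_mul]
      _ ≤ 2 * D * (M * P) := Nat.mul_le_mul_right _ hLc
      _ = 2 * D * M * P := by ring

end Pool.Agent.H37.TE
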