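import Pool.Agent.H37.TE.Fac

/-! # [H37 TE IRR] Irreducibility from the form of highest degree -/

namespace Pool.Agent.H37.TE

open Finset Polynomial

/-- the dehomogenised form of degree `n` of a polynomial in `x` (inner) and `y` (outer):
`f(1, Z)` -/
noncomputable def tpf {R : Type*} [CommRing R] (n : ℕ) (F : R[X][X]) : R[X] :=
  ∑ b ∈ range (n + 1), C ((F.coeff b).coeff (n - b)) * X ^ b

/-- `f(t; 1, Z)`, inner variable `t`, outer variable `Z` -/
noncomputable abbrev topf (n : ℕ) (F : ℤ[X][X][X]) : ℤ[X][X] := tpf n F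

theorem tpf_coeff {R : Type*} [CommRing R] (n : ℕ) (F : R[X][X]) (b : ℕ) :
    (tpf n F).coeff b = if b ≤ n then (F.coeff b).coeff (n - b) else 0 := by
  unfold tpf
  rw [finsetSum_coeff]
  simp only [coeff_C_mul, coeff_X_pow, mul_ite, mul_one, mul_zero]
  rw [Finset.sum_ite_eq]
  simp only [mem_range]
  split_ifs <;> first | rfl | omega

/-- the substitution `x = s`, `y = s Z` (inner variable `Z`, outer variable `s`) -/
noncomputable def sg (R : Type*) [CommRing R] : R[X][X] →+* R[X][X] :=
  eval₂RingHom (eval₂RingHom ((C : R[X] →+* R[X][X]).comp C) X) (X * C X)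

theorem sg_coeff {R : Type*} [CommRing R] (G : R[X][X]) (k b : ℕ) :
    ((sg R G).coeff k).coeff b = if b ≤ k then (G.coeff b).coeff (k - b) else 0 := by
  induction G using Polynomial.induction_on' with
  | add p q hp hq =>
    rw [map_add, coeff_add, coeff_add, hp, hq, coeff_add, coeff_add]
    split_ifs
    · rfl
    · rw [add_zero]
  | monomial j p =>
    induction p using Polynomial.induction_on' with
    | add p q hp hq =>
      rw [map_add, map_add, coeff_add, coeff_add, hp, hq, coeff_add, coeff_add]
      split_ifs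
      · rfl
      · rw [add_zero]
    | monomial a r =>
      have h1 : sg R (monomial j (monomial a r)) = C (C r * X ^ j) * X ^ (a + j) := by
        unfold sg
        rw [coe_eval₂RingHom, eval₂_monomial, coe_eval₂RingHom, eval₂_monomial]
        simp only [RingHom.comp_apply, map_mul, map_pow, mul_pow]
        ring
      rw [h1, coeff_C_mul, coeff_X_pow]
      by_cases hk : k = a + j
      · rw [if_pos hk, mul_one, coeff_C_mul, coeff_X_pow]
        by_cases hb : b = j
        · rw [if_pos hb, mul_one, if_pos (by omega), hb, coeff_monomial, if_pos rfl,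
            coeff_monomial, if_pos (by omega)]
        · rw [if_neg hb, mul_zero]
          split_ifs
          · rw [coeff_monomial, if_neg (by omega), coeff_zero]
          · rfl
      · rw [if_neg hk, mul_zero, coeff_zero]
        split_ifs with h2
        · by_cases hb : b = j
          · rw [hb, coeff_monomial, if_pos rfl, coeff_monomial, if_neg (by omega)]
          · rw [coeff_monomial, if_neg (by omega), coeff_zero]
        · rfl

theorem sg_lc_deg {R : Type*} [CommRing R] (G : R[X][X]) :
    (sg R G).leadingCoeff.natDegree ≤ (sg R G).natDegree := by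
  rw [natDegree_le_iff_coeff_eq_zero]
  intro b hb
  rw [leadingCoeff, sg_coeff, if_neg (by omega)]

theorem sg_const {R : Type*} [CommRing R] (G : R[X][X]) (h : (sg R G).natDegree = 0) :
    G = C (C ((G.coeff 0).coeff 0)) := by
  ext b a
  by_cases hab : a + b = 0
  · have ha : a = 0 := by omega
    have hb : b = 0 := by omega
    rw [ha, hb, coeff_C_zero, coeff_C_zero]
  · have h1 := sg_coeff G (a + b) b
    rw [if_pos (by omega), Nat.add_sub_cancel] at h1
    have h2 : (sg R G).coeff (a + b) = 0 := coeff_eq_zero_of_natDegree_lt (by rw [h]; omega)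
    rw [← h1, h2, coeff_zero]
    by_cases hb : b = 0
    · rw [hb, coeff_C_zero, coeff_C, if_neg (by omega)]
    · rw [coeff_C, if_neg hb, coeff_zero]

/-- a polynomial with irreducible form of highest degree is irreducible -/
theorem irr_of_tpf {K : Type*} [Field K] {n : ℕ} (hn : 1 ≤ n) (F : K[X][X])
    (hdeg : ∀ a b, n < a + b → (F.coeff b).coeff a = 0) (hirr : Irreducible (tpf n F))
    (hnat : (tpf n F).natDegree = n) : Irreducible F := by
  have hc : (sg K F).coeff n = tpf n F := by
    ext b
    rw [sg_coeff, tpf_coeff]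
  have hle : (sg K F).natDegree ≤ n := by
    rw [natDegree_le_iff_coeff_eq_zero]
    intro k hk
    ext b
    rw [sg_coeff, coeff_zero]
    split_ifs with hb
    · exact hdeg _ _ (by omega)
    · rfl
  have hd : (sg K F).natDegree = n := by
    refine le_antisymm hle (le_natDegree_of_ne_zero ?_)
    rw [hc]
    exact hirr.ne_zero
  have hlc : (sg K F).leadingCoeff = tpf n F := by
    rw [leadingCoeff, hd, hc]
  have key : ∀ G H : K[X][X], F = G * H → IsUnit (sg K G).leadingCoeff → IsUnit G := by
    intro G H hGH hu
    have h1 : sg K F = sg K G * sg K H := by rw [hGH, map_mul]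
    have hG0 : sg K G ≠ 0 := by
      intro h
      rw [h, zero_mul] at h1
      rw [h1, natDegree_zero] at hd
      omega
    have hH0 : sg K H ≠ 0 := by
      intro h
      rw [h, mul_zero] at h1
      rw [h1, natDegree_zero] at hd
      omega
    have h2 : n = (sg K G).natDegree + (sg K H).natDegree := by
      rw [← hd, h1, natDegree_mul hG0 hH0]
    have h3 : tpf n F = (sg K G).leadingCoeff * (sg K H).leadingCoeff := by
      rw [← hlc, h1, leadingCoeff_mul]
    have h4 : n = (sg K G).leadingCoeff.natDegree + (sg K H).leadingCoeff.natDegree := by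
      rw [← natDegree_mul (leadingCoeff_ne_zero.2 hG0) (leadingCoeff_ne_zero.2 hH0), ← h3, hnat]
    have h5 : (sg K G).leadingCoeff.natDegree = 0 := natDegree_eq_zero_of_isUnit hu
    have h6 := sg_lc_deg H
    have h7 : (sg K G).natDegree = 0 := by omega
    have h8 := sg_const G h7
    rw [h8, isUnit_C, isUnit_C, isUnit_iff_ne_zero]
    intro h9
    rw [h9, map_zero, map_zero] at h8
    rw [h8, map_zero] at hG0
    exact hG0 rfl
  constructor
  · intro hu
    have h1 : IsUnit (sg K F) := hu.map _
    have h2 := natDegree_eq_zero_of_isUnit h1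
    omega
  · intro G H hGH
    have h3 : tpf n F = (sg K G).leadingCoeff * (sg K H).leadingCoeff := by
      rw [← hlc, hGH, map_mul, leadingCoeff_mul]
    rcases hirr.isUnit_or_isUnit h3 with h | h
    · exact Or.inl (key G H hGH h)
    · exact Or.inr (key H G (by rw [hGH, mul_comm]) h)

/-- from `ℂ[t][Z]` to the fraction field of `ℤ[t]` -/
theorem irr_frac {n : ℕ} (hn : 1 ≤ n) (f : ℤ[X][X]) (hnat : f.natDegree = n)
    (hirr : Irreducible (f.map (mapRingHom (Int.castRingHom ℂ)))) :
    Irreducible (f.map (algebraMap ℤ[X] (FractionRing ℤ[X]))) := by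
  obtain ⟨φ, hφ⟩ : ∃ φ : ℤ[X] →+* FractionRing ℤ[X], φ = algebraMap ℤ[X] (FractionRing ℤ[X]) :=
    ⟨_, rfl⟩
  have hφi : Function.Injective φ := by rw [hφ]; exact IsFractionRing.injective _ _
  rw [← hφ]
  obtain ⟨ψ, hψ⟩ : ∃ ψ : ℤ[X] →+* ℂ[X], ψ = mapRingHom (Int.castRingHom ℂ) := ⟨_, rfl⟩
  have hψi : Function.Injective ψ := by
    rw [hψ]; exact map_injective _ (RingHom.injective_int _)
  rw [← hψ] at hirr
  have hprime : Prime (f.map ψ) := hirr.prime
  have hfd : (f.map φ).natDegree = n := by rw [natDegree_map_eq_of_injective hφi, hnat]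
  have hclear : ∀ g : (FractionRing ℤ[X])[X], ∃ (g' : ℤ[X][X]) (c : ℤ[X]), c ≠ 0 ∧
      g'.map φ = C (φ c) * g := by
    intro g
    obtain ⟨b, hbm, hb⟩ := IsLocalization.integerNormalization_spec (nonZeroDivisors ℤ[X]) g
    refine ⟨IsLocalization.integerNormalization (nonZeroDivisors ℤ[X]) g, b,
      nonZeroDivisors.ne_zero hbm, ?_⟩
    rw [hφ, hb, ← smul_eq_C_mul, algebraMap_smul]
  have key : ∀ g h : (FractionRing ℤ[X])[X], f.map φ = g * h → g.natDegree = 0 ∨ h.natDegree = 0 := by
    intro g h hgh
    by_contra hcon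
    push Not at hcon
    have hf0 : f.map φ ≠ 0 := by
      intro h0
      rw [h0, natDegree_zero] at hfd
      omega
    have hg0 : g ≠ 0 := by
      intro h0
      rw [h0, zero_mul] at hgh
      exact hf0 hgh
    have hh0 : h ≠ 0 := by
      intro h0
      rw [h0, mul_zero] at hgh
      exact hf0 hgh
    obtain ⟨g', c, hc, hg'⟩ := hclear g
    obtain ⟨h', d, hd, hh'⟩ := hclear h
    have h1 : C (c * d) * f = g' * h' := by
      apply map_injective φ hφi
      rw [Polynomial.map_mul, Polynomial.map_mul, hg', hh', map_C, hgh, map_mul, map_mul]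
      ring
    have hφc : φ c ≠ 0 := fun h0 => hc (hφi (by rw [h0, map_zero]))
    have hφd : φ d ≠ 0 := fun h0 => hd (hφi (by rw [h0, map_zero]))
    have dg : g'.natDegree = g.natDegree := by
      rw [← natDegree_map_eq_of_injective hφi, hg', natDegree_C_mul hφc]
    have dh : h'.natDegree = h.natDegree := by
      rw [← natDegree_map_eq_of_injective hφi, hh', natDegree_C_mul hφd]
    have dsum : g.natDegree + h.natDegree = n := by
      rw [← natDegree_mul hg0 hh0, ← hgh, hfd]
    have h2 : f.map ψ ∣ g'.map ψ * h'.map ψ := by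
      rw [← Polynomial.map_mul, ← h1, Polynomial.map_mul]
      exact Dvd.intro_left _ rfl
    have hg'0 : g'.map ψ ≠ 0 := by
      rw [Ne, Polynomial.map_eq_zero_iff hψi]
      intro h0
      rw [h0, natDegree_zero] at dg
      omega
    have hh'0 : h'.map ψ ≠ 0 := by
      rw [Ne, Polynomial.map_eq_zero_iff hψi]
      intro h0
      rw [h0, natDegree_zero] at dh
      omega
    rcases hprime.dvd_or_dvd h2 with h3 | h3
    · have h4 := natDegree_le_of_dvd h3 hg'0
      rw [natDegree_map_eq_of_injective hψi, natDegree_map_eq_of_injective hψi] at h4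
      omega
    · have h4 := natDegree_le_of_dvd h3 hh'0
      rw [natDegree_map_eq_of_injective hψi, natDegree_map_eq_of_injective hψi] at h4
      omega
  constructor
  · intro hu
    have := natDegree_eq_zero_of_isUnit hu
    omega
  · intro g h hgh
    have hf0 : f.map φ ≠ 0 := by
      intro h0
      rw [h0, natDegree_zero] at hfd
      omega
    have hunit : ∀ g : (FractionRing ℤ[X])[X], g ≠ 0 → g.natDegree = 0 → IsUnit g := by
      intro g h0 h1
      rw [eq_C_of_natDegree_eq_zero h1, isUnit_C, isUnit_iff_ne_zero]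
      intro h2
      apply h0
      rw [eq_C_of_natDegree_eq_zero h1, h2, map_zero]
    have hg0 : g ≠ 0 := by
      intro h0
      rw [h0, zero_mul] at hgh
      exact hf0 hgh
    have hh0 : h ≠ 0 := by
      intro h0
      rw [h0, mul_zero] at hgh
      exact hf0 hgh
    rcases key g h hgh with h1 | h1
    · exact Or.inl (hunit g hg0 h1)
    · exact Or.inr (hunit h hh0 h1)

/-- the conditions of `space_points` from the top form -/
theorem irr_top {n : ℕ} (hn : 2 ≤ n) (F : ℤ[X][X][X])
    (hdeg : ∀ a b, n < a + b → (F.coeff b).coeff a = 0) (hlead : (F.coeff n).coeff 0 ≠ 0)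
    (hirr : Irreducible ((topf n F).map (mapRingHom (Int.castRingHom ℂ)))) :
    Irreducible (F.map (mapRingHom (algebraMap ℤ[X] (FractionRing ℤ[X])))) ∧ F.natDegree = n ∧
      1 ≤ (Bivariate.swap F).natDegree := by
  have hnat : (topf n F).natDegree = n := by
    refine le_antisymm ?_ (le_natDegree_of_ne_zero ?_)
    · rw [natDegree_le_iff_coeff_eq_zero]
      intro b hb
      rw [tpf_coeff, if_neg (by omega)]
    · rw [tpf_coeff, if_pos le_rfl, Nat.sub_self]
      exact hlead
  have hFn : F.natDegree = n := by
    refine le_antisymm ?_ (le_natDegree_of_ne_zero ?_)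
    · rw [natDegree_le_iff_coeff_eq_zero]
      intro b hb
      ext1 a
      rw [hdeg a b (by omega), coeff_zero]
    · intro h
      rw [h, coeff_zero] at hlead
      exact hlead rfl
  refine ⟨?_, hFn, ?_⟩
  · obtain ⟨φ, hφ⟩ : ∃ φ : ℤ[X] →+* FractionRing ℤ[X], φ = algebraMap ℤ[X] (FractionRing ℤ[X]) :=
      ⟨_, rfl⟩
    have hφi : Function.Injective φ := by rw [hφ]; exact IsFractionRing.injective _ _
    rw [← hφ]
    have h1 : tpf n (F.map (mapRingHom φ)) = (topf n F).map φ := by
      ext b
      rw [tpf_coeff, coeff_map, coe_mapRingHom, coeff_map, coeff_map, tpf_coeff]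
      split_ifs
      · rfl
      · rw [map_zero]
    refine irr_of_tpf (n := n) (by omega) _ ?_ ?_ ?_
    · intro a b hab
      rw [coeff_map, coe_mapRingHom, coeff_map, hdeg a b hab, map_zero]
    · rw [h1, hφ]
      exact irr_frac (by omega) _ hnat hirr
    · rw [h1, natDegree_map_eq_of_injective hφi, hnat]
  · have h1 : ((Bivariate.swap F).coeff n).coeff 0 ≠ 0 := by
      rw [swap_coeff]
      intro h0
      -- `X` divides the form
      have h2 : (X : ℂ[X][X]) ∣ (topf n F).map (mapRingHom (Int.castRingHom ℂ)) := by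
        rw [X_dvd_iff, coeff_map, tpf_coeff, if_pos (by omega), Nat.sub_zero, h0, map_zero]
      obtain ⟨q, hq⟩ := h2
      have h3 : ((topf n F).map (mapRingHom (Int.castRingHom ℂ))).natDegree = n := by
        rw [natDegree_map_eq_of_injective (map_injective _ (RingHom.injective_int _)), hnat]
      rcases hirr.isUnit_or_isUnit hq with h4 | h4
      · exact not_isUnit_X h4
      · have h5 := natDegree_eq_zero_of_isUnit h4
        rw [hq, natDegree_mul X_ne_zero h4.ne_zero, natDegree_X, h5] at h3
        omega
    have h2 : n ≤ (Bivariate.swap F).natDegree := by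
      refine le_natDegree_of_ne_zero ?_
      intro h
      rw [h, coeff_zero] at h1
      exact h1 rfl
    omega

end Pool.Agent.H37.TE
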