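import Pool.Agent.H37.TE.Defs

/-! # [H37 TE NWT] Newton's iteration modulo powers of a prime

Induction on `K`. `K = 0`: `Φ = C x0`. Step: let `V` be an inverse of `R_x(a0, x0)` modulo `p` (`Int.exists_mul_emod_eq_one_of_coprime` or `ZMod`), `Ψ = Φ - C V * ((R.map (compRingHom (X + C a0))).eval Φ)`, so
`Ψ(τ) = Φ(τ) - V * R(τ + a0, Φ(τ))`. Let `(a, x)` be as in the statement, `q = R.map (evalRingHom a) ∈ ℤ[X]`, `q(x) = 0`, `y = Φ(a - a0)`, `e = x - y`, `p^(K+1) ∣ e`. `Polynomial.binomExpansion`: `q(y) = q(x) + q'(x)(-e) + k e^2`, so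
`x - Ψ(a - a0) = e + V q(y) = e (1 - V q'(x)) + V k e^2`. `p ∣ 1 - V q'(x)`, since `q'(x) = R_x(a, x) = R_x(a0, x0)` modulo `p`, and `p ∣ e` (`K + 1 ≥ 1`). -/

namespace Pool.Agent.H37.TE

open Finset Polynomial

private theorem nw_cong {p : ℤ} (G : ℤ[X][X]) {a a0 x x0 : ℤ} (ha : p ∣ a - a0) (hx : p ∣ x - x0) :
    p ∣ evalEval a x G - evalEval a0 x0 G := by
  have h1 : x - x0 ∣ evalEval a x G - evalEval a x0 G := by
    obtain ⟨w, hw⟩ := Polynomial.sub_dvd_eval_sub (C x) (C x0) G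
    refine ⟨w.eval a, ?_⟩
    unfold evalEval
    rw [← Polynomial.eval_sub, hw]
    simp
  have h2 : a - a0 ∣ evalEval a x0 G - evalEval a0 x0 G := Polynomial.sub_dvd_eval_sub a a0 _
  have h3 := dvd_add (hx.trans h1) (ha.trans h2)
  have h4 : evalEval a x G - evalEval a x0 G + (evalEval a x0 G - evalEval a0 x0 G) =
      evalEval a x G - evalEval a0 x0 G := by ring
  rwa [h4] at h3

private theorem nw_inv {p : ℕ} (hp : p.Prime) {c : ℤ} (h : ¬ (p : ℤ) ∣ c) : ∃ V : ℤ, (p : ℤ) ∣ 1 - V * c := by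
  have h1 : IsCoprime (p : ℤ) c := (Prime.coprime_iff_not_dvd (Nat.prime_iff_prime_int.1 hp)).2 h
  obtain ⟨u, v, huv⟩ := h1
  exact ⟨v, u, by linarith⟩

theorem newton_mod {p : ℕ} (hp : p.Prime) (R : ℤ[X][X]) (a0 x0 : ℤ)
    (h : ¬ (p : ℤ) ∣ evalEval a0 x0 (derivative R)) (K : ℕ) : ∃ Φ : ℤ[X], ∀ a x : ℤ,
      evalEval a x R = 0 → (p : ℤ) ∣ a - a0 → (p : ℤ) ∣ x - x0 →
      (p : ℤ) ^ (K + 1) ∣ x - Φ.eval (a - a0) := by
  obtain ⟨V, hV⟩ := nw_inv hp h
  have key : ∃ Φ : ℤ[X], ∀ a x : ℤ, evalEval a x R = 0 → (p : ℤ) ∣ a - a0 → (p : ℤ) ∣ x - x0 →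
      (p : ℤ) ^ (K + 1) ∣ x - Φ.eval a := by
    induction K with
    | zero => exact ⟨C x0, fun a x _ _ hx => by simpa using hx⟩
    | succ K ih =>
      obtain ⟨Φ, hΦ⟩ := ih
      refine ⟨Φ - C V * R.eval Φ, fun a x hR ha hx => ?_⟩
      have he := hΦ a x hR ha hx
      have hev : (R.eval Φ).eval a = (R.map (evalRingHom a)).eval (Φ.eval a) := by
        have h1 := Polynomial.eval₂_at_apply (p := R) (evalRingHom a) Φ
        rw [Polynomial.coe_evalRingHom] at h1
        rw [Polynomial.eval_map, h1]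
      have hq0 : (R.map (evalRingHom a)).eval x = 0 := by
        have h1 := Polynomial.eval₂_at_apply (p := R) (evalRingHom a) (C x)
        rw [Polynomial.coe_evalRingHom, Polynomial.eval_C] at h1
        rw [Polynomial.eval_map, h1]
        exact hR
      have hq1 : (derivative (R.map (evalRingHom a))).eval x = evalEval a x (derivative R) := by
        have h1 := Polynomial.eval₂_at_apply (p := derivative R) (evalRingHom a) (C x)
        rw [Polynomial.coe_evalRingHom, Polynomial.eval_C] at h1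
        rw [Polynomial.derivative_map, Polynomial.eval_map, h1]
      obtain ⟨k, hk⟩ := Polynomial.binomExpansion (R.map (evalRingHom a)) x (Φ.eval a - x)
      rw [hq0, hq1, add_sub_cancel] at hk
      rw [Polynomial.eval_sub, Polynomial.eval_mul, Polynomial.eval_C, hev, hk]
      obtain ⟨w, hw⟩ := he
      have hc := nw_cong (derivative R) ha hx
      obtain ⟨u, hu⟩ := hV
      obtain ⟨t, ht⟩ := hc
      have e1 : Φ.eval a = x - (p : ℤ) ^ (K + 1) * w := by linarith
      have e2 : evalEval a x (derivative R) = evalEval a0 x0 (derivative R) + p * t := by linarith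
      have e3 : V * evalEval a0 x0 (derivative R) = 1 - p * u := by linarith
      refine ⟨w * (u - V * t) + V * k * (p : ℤ) ^ K * w ^ 2, ?_⟩
      rw [e1, e2]
      have e4 : x - (x - (p : ℤ) ^ (K + 1) * w - V * (0 + (evalEval a0 x0 (derivative R) + p * t) *
          (x - (p : ℤ) ^ (K + 1) * w - x) + k * (x - (p : ℤ) ^ (K + 1) * w - x) ^ 2)) =
          (p : ℤ) ^ (K + 1) * w * (1 - V * evalEval a0 x0 (derivative R) - V * p * t) +
            V * k * ((p : ℤ) ^ (K + 1) * w) ^ 2 := by ring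
      rw [e4, e3]
      ring
  obtain ⟨Φ, hΦ⟩ := key
  refine ⟨Φ.comp (X + C a0), fun a x h1 h2 h3 => ?_⟩
  rw [Polynomial.eval_comp]
  simpa using hΦ a x h1 h2 h3

end Pool.Agent.H37.TE
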