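import Pool.Agent.H37.TE.Nwt
import Pool.Agent.H37.TE.Dex

/-! # [H37 TE PDT] The determinant of congruent points is divisible by a high power of the prime

`det_poly_dvd`: `(h l).eval (p * τ i) = ∑_(k < m) ((h l).coeff k * p^k) * τ i^k` (`eval_eq_sum_range'`, `m` larger than all degrees); `det_expand` with `K = Fin m`, `c l k = (h l).coeff k * p^k`, `v k i = τ i ^ k`; for an injective `κ` the product `∏ c l (κ l)` is divisible by `p^(∑ κ l)` and `∑ κ l ≥ N(N-1)/2` (`sum_inj_ge`).
`padic_det`: `M = N(N-1)/2`, `Φ` from `newton_mod` with `K = M`. `h l = (g l)(a0 + X, Φ) ∈ ℤ[X]`; `evalEval (a i) (x i) (g l) = (h l).eval (a i - a0)` modulo `p^M` (`x i = Φ(a i - a0)` modulo `p^(M+1)`, a polynomial with integral coefficients respects congruences), `a i - a0 = p τ i`.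
The determinants of matrices congruent modulo `p^M` are congruent (`Matrix.det` is the image under `Int.castRingHom (ZMod (p^M))`, `RingHom.map_det`; or `Int.ModEq`). -/

namespace Pool.Agent.H37.TE

open Finset Polynomial

theorem det_poly_dvd (p : ℤ) {N : ℕ} (h : Fin N → ℤ[X]) (τ : Fin N → ℤ) :
    p ^ (N * (N - 1) / 2) ∣ (Matrix.of fun i l => (h l).eval (p * τ i)).det := by
  classical
  obtain ⟨m, hm⟩ : ∃ m, ∀ l, (h l).natDegree < m :=
    ⟨univ.sup (fun l => (h l).natDegree) + 1, fun l =>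
      Nat.lt_succ_of_le (Finset.le_sup (f := fun l => (h l).natDegree) (mem_univ l))⟩
  have e : (Matrix.of fun i l => (h l).eval (p * τ i)) =
      (Matrix.of fun i l => ∑ k : Fin m, ((h l).coeff k * p ^ (k : ℕ)) * τ i ^ (k : ℕ)) := by
    ext i l
    simp only [Matrix.of_apply]
    rw [eval_eq_sum_range' (hm l), ← Fin.sum_univ_eq_sum_range
      (fun k => (h l).coeff k * (p * τ i) ^ k) m]
    refine Finset.sum_congr rfl fun k _ => ?_
    rw [mul_pow, mul_assoc]
  have e2 := det_expand (fun (l : Fin N) (k : Fin m) => (h l).coeff k * p ^ (k : ℕ))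
    (fun (k : Fin m) (i : Fin N) => τ i ^ (k : ℕ))
  rw [e, e2]
  refine Finset.dvd_sum fun κ hκ => ?_
  have hinj : Function.Injective κ := (mem_filter.1 hκ).2
  refine Dvd.dvd.mul_right ?_ _
  rw [Finset.prod_mul_distrib, Finset.prod_pow_eq_pow_sum]
  refine Dvd.dvd.mul_left (pow_dvd_pow p ?_) _
  exact sum_inj_ge (fun l => ((κ l : Fin m) : ℕ)) (fun a b hab => hinj (Fin.ext hab))

/-- substitution of `a0 + X` and of a polynomial -/
private theorem eval_subst (g : ℤ[X][X]) (Φ : ℤ[X]) (a0 τ : ℤ) :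
    (((g.map (compRingHom (X + C a0))).eval Φ).eval τ) = evalEval (τ + a0) (Φ.eval τ) g := by
  have e1 : (evalRingHom τ).comp (compRingHom (X + C a0)) = evalRingHom (τ + a0) := by
    ext q
    · simp
    · show ((X : ℤ[X]).comp (X + C a0)).eval τ = (X : ℤ[X]).eval (τ + a0)
      simp
  rw [eval_map, ← coe_evalRingHom, hom_eval₂, e1, eval₂_evalRingHom, coe_evalRingHom]

private theorem evalEval_dvd_sub (g : ℤ[X][X]) (a x y : ℤ) :
    x - y ∣ evalEval a x g - evalEval a y g := by
  rw [← eval₂_evalRingHom, ← eval_map, ← eval_map]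
  exact sub_dvd_eval_sub x y _

private theorem det_congr (q : ℤ) {N : ℕ} (A B : Matrix (Fin N) (Fin N) ℤ)
    (h : ∀ i j, q ∣ A i j - B i j) : q ∣ A.det - B.det := by
  have key : (Ideal.Quotient.mk (Ideal.span {q})) A.det = (Ideal.Quotient.mk (Ideal.span {q})) B.det := by
    rw [RingHom.map_det, RingHom.map_det]
    congr 1
    ext i j
    simp only [RingHom.mapMatrix_apply, Matrix.map_apply]
    rw [Ideal.Quotient.eq, Ideal.mem_span_singleton]
    exact h i j
  rw [Ideal.Quotient.eq, Ideal.mem_span_singleton] at key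
  exact key

theorem padic_det {p : ℕ} (hp : p.Prime) (R : ℤ[X][X]) {N : ℕ} (a x : Fin N → ℤ) (a0 x0 : ℤ)
    (h : ¬ (p : ℤ) ∣ evalEval a0 x0 (derivative R)) (hR : ∀ i, evalEval (a i) (x i) R = 0)
    (ha : ∀ i, (p : ℤ) ∣ a i - a0) (hx : ∀ i, (p : ℤ) ∣ x i - x0) (g : Fin N → ℤ[X][X]) :
    (p : ℤ) ^ (N * (N - 1) / 2) ∣ (Matrix.of fun i l => evalEval (a i) (x i) (g l)).det := by
  obtain ⟨Φ, hΦ⟩ := newton_mod hp R a0 x0 h (N * (N - 1) / 2)
  choose τ hτ using ha
  have h1 := det_poly_dvd (p : ℤ) (fun l => ((g l).map (compRingHom (X + C a0))).eval Φ) τ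
  have h2 : (p : ℤ) ^ (N * (N - 1) / 2) ∣
      (Matrix.of fun i l => evalEval (a i) (x i) (g l)).det -
      (Matrix.of fun i l =>
        (((g l).map (compRingHom (X + C a0))).eval Φ).eval ((p : ℤ) * τ i)).det := by
    refine det_congr _ _ _ fun i l => ?_
    simp only [Matrix.of_apply]
    rw [← hτ i, eval_subst, sub_add_cancel]
    refine dvd_trans ?_ (evalEval_dvd_sub (g l) (a i) (x i) (Φ.eval (a i - a0)))
    exact dvd_trans (pow_dvd_pow _ (Nat.le_succ _))
      (hΦ (a i) (x i) (hR i) (by rw [hτ i]; exact dvd_mul_right _ _) (hx i))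
  have := dvd_add h2 h1
  rwa [sub_add_cancel] at this

end Pool.Agent.H37.TE
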