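import Pool.Agent.H37.TE.Spq
import Pool.Agent.H37.TE.Elm

/-! # [H37 TE SPP] The result of the p-adic part

`elim3`, then `space_proj` with `2 D^2 + D` instead of `D` for `qP R`, `qP R'` (`evalEval (u : ℚ) (x : ℚ) (qP R) = ((evalEval u x R : ℤ) : ℚ)`). -/

namespace Pool.Agent.H37.TE

open Finset Polynomial

private theorem spp_qP (R : ℤ[X][X]) (u x : ℤ) :
    evalEval (u : ℚ) (x : ℚ) (qP R) = ((evalEval u x R : ℤ) : ℚ) := by
  have h1 := map_mapRingHom_evalEval (Int.castRingHom ℚ) R u x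
  simpa [qP] using h1

private theorem spp_inj : Function.Injective (mapRingHom (Int.castRingHom ℚ)) :=
  map_injective _ (RingHom.injective_int _)

private theorem spp_bd {d e D : ℕ} (R : ℤ[X][X]) (h : BD d e R) (hd : d ≤ D) (he : e ≤ D) :
    BD D D (qP R) := by
  refine ⟨?_, fun j => ?_⟩
  · exact (natDegree_map_le).trans (h.1.trans he)
  · unfold qP
    rw [coeff_map, coe_mapRingHom]
    exact (natDegree_map_le).trans ((h.2 j).trans hd)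

theorem space_points (D κ : ℕ) : ∃ c : ℕ, ∀ U P : ℕ, Cpl U P → ∀ F G : ℤ[X][X][X],
    TD D D D F → TD D D D G →
    Irreducible (F.map (mapRingHom (algebraMap ℤ[X] (FractionRing ℤ[X])))) →
    1 ≤ F.natDegree → 1 ≤ (Bivariate.swap F).natDegree → G ≠ 0 → G.natDegree < F.natDegree →
    ∀ S : Finset ℤ, (∀ u ∈ S, 0 ≤ u ∧ u ≤ U ∧ ∃ x y : ℤ, |x| ≤ ((U ^ κ : ℕ) : ℤ) ∧
      |y| ≤ ((U ^ κ : ℕ) : ℤ) ∧ ev3 u x y F = 0 ∧ ev3 u x y G = 0 ∧
      ¬ ∃ r1 r2 : ℚ[X], ev3 X r1 r2 F = 0 ∧ r1.eval (u : ℚ) = x ∧ r2.eval (u : ℚ) = y) →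
      S.card ≤ c * P := by
  obtain ⟨c, hc⟩ := space_proj (2 * D * D + D) κ
  refine ⟨c, ?_⟩
  intro U P hUP F G hF hG hirr h1 h2 hG0 hlt S hS
  obtain ⟨R, R', hR, hR', bR, bR', hz⟩ := elim3 hF hG hirr h1 h2 hG0 hlt
  have hne : ∀ Q : ℤ[X][X], Q ≠ 0 → qP Q ≠ 0 := by
    intro Q hQ h
    apply hQ
    unfold qP at h
    exact (Polynomial.map_eq_zero_iff spp_inj).1 h
  refine hc U P hUP (qP R) (qP R') (hne R hR) (hne R' hR')
    (spp_bd R bR (by omega) (by omega)) (spp_bd R' bR' (by omega) (by omega)) F ?_ S ?_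
  · refine ⟨hF.1.trans (by omega), fun k => ⟨(hF.2 k).1.trans (by omega), fun j => ?_⟩⟩
    exact ((hF.2 k).2 j).trans (by omega)
  · intro u hu
    obtain ⟨h3, h4, x, y, h5, h6, h7, h8, h9⟩ := hS u hu
    obtain ⟨h10, h11⟩ := hz u x y h7 h8
    refine ⟨h3, h4, x, y, h5, h6, ?_, ?_, h7, h9⟩
    · rw [spp_qP, h10, Int.cast_zero]
    · rw [spp_qP, h11, Int.cast_zero]

end Pool.Agent.H37.TE
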