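import Pool.Agent.H37.TE.Fct

/-! # [H37 TE SPQ] Integral points with both projections on plane curves

Choose `x u`, `y u` for `u ∈ S`. `plane_points` for `R` and for `R'`: `L`, `L'`, constants `c1` each. `S = S1 ∪ S2 ∪ S3`: `S1`: `r(u) ≠ x u` for all `r ∈ L` (apply with `T = S1.image (u, x u)`), `S2`: the same for `y u`, `L'`; `S3`: `r1(u) = x u`, `r2(u) = y u` for some `r1 ∈ L`, `r2 ∈ L'`; then `q = ev3 X r1 r2 F ∈ ℚ[X]` is not zero (last hypothesis) and
`q(u) = ev3 u (x u) (y u) F = 0` (`ev3` commutes with ring homomorphisms: `Polynomial.hom_eval₂`), `natDegree q ≤ D + D D + D D` (sum over the coefficients, `natDegree_sum_le_of_forall_le`), so at most `3 D^2 + D` numbers `u` for each of the `4 D^2` pairs. -/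

namespace Pool.Agent.H37.TE

open Finset Polynomial

theorem ev3_hom {S T : Type*} [CommRing S] [CommRing T] (φ : S →+* T) (t x y : S)
    (F : ℤ[X][X][X]) : φ (ev3 t x y F) = ev3 (φ t) (φ x) (φ y) F := by
  unfold ev3
  rw [Polynomial.hom_eval₂]
  have h1 : φ.comp (eval₂RingHom (Int.castRingHom S) t) =
      eval₂RingHom (Int.castRingHom T) (φ t) := by
    apply RingHom.ext
    intro p
    simp only [RingHom.comp_apply, coe_eval₂RingHom]
    rw [Polynomial.hom_eval₂]
    have h0 : φ.comp (Int.castRingHom S) = Int.castRingHom T := RingHom.ext_int _ _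
    rw [h0]
  have h2 : φ.comp (eval₂RingHom (eval₂RingHom (Int.castRingHom S) t) x) =
      eval₂RingHom (eval₂RingHom (Int.castRingHom T) (φ t)) (φ x) := by
    apply RingHom.ext
    intro p
    simp only [RingHom.comp_apply, coe_eval₂RingHom]
    rw [Polynomial.hom_eval₂, h1]
  rw [h2]

theorem natDegree_eval₂_le_aux {R : Type*} [CommRing R] (f : R →+* ℚ[X]) (r : ℚ[X]) (P : R[X])
    (a D e : ℕ) (ha : ∀ k, (f (P.coeff k)).natDegree ≤ a) (hr : r.natDegree ≤ D)
    (he : P.natDegree ≤ e) : (eval₂ f r P).natDegree ≤ a + e * D := by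
  rw [eval₂_eq_sum_range]
  apply natDegree_sum_le_of_forall_le
  intro k hk
  have hk' : k ≤ e := by
    have := Finset.mem_range.mp hk
    omega
  calc (f (P.coeff k) * r ^ k).natDegree ≤ (f (P.coeff k)).natDegree + (r ^ k).natDegree :=
        natDegree_mul_le
    _ ≤ a + k * r.natDegree := Nat.add_le_add (ha k) natDegree_pow_le
    _ ≤ a + e * D := Nat.add_le_add_left (Nat.mul_le_mul hk' hr) a

theorem ev3_deg {D : ℕ} {F : ℤ[X][X][X]} (hF : TD D D D F) (r1 r2 : ℚ[X]) (h1 : r1.natDegree ≤ D)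
    (h2 : r2.natDegree ≤ D) : (ev3 X r1 r2 F).natDegree ≤ D + D * D + D * D := by
  unfold ev3
  refine natDegree_eval₂_le_aux _ r2 F (D + D * D) D D ?_ h2 hF.1
  intro k
  simp only [coe_eval₂RingHom]
  refine natDegree_eval₂_le_aux _ r1 _ D D D ?_ h1 (hF.2 k).1
  intro j
  simp only [coe_eval₂RingHom]
  refine le_trans (natDegree_eval₂_le_aux _ X _ 0 1 D ?_ natDegree_X_le ((hF.2 k).2 j)) ?_
  · intro i
    have : (Int.castRingHom ℚ[X]) (((F.coeff k).coeff j).coeff i) =
        (((((F.coeff k).coeff j).coeff i : ℤ)) : ℚ[X]) := rfl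
    rw [this]
    exact le_of_eq (natDegree_intCast _)
  · omega

theorem card_roots_le_aux (q : ℚ[X]) (hq : q ≠ 0) (m : ℕ) (hm : q.natDegree ≤ m)
    (S : Finset ℤ) (hS : ∀ u ∈ S, q.eval (u : ℚ) = 0) : S.card ≤ m := by
  classical
  have h1 : (S.image (fun u : ℤ => (u : ℚ))).card = S.card :=
    Finset.card_image_of_injective S Int.cast_injective
  have h2 : S.image (fun u : ℤ => (u : ℚ)) ⊆ q.roots.toFinset := by
    intro z hz
    obtain ⟨u, hu, rfl⟩ := Finset.mem_image.mp hz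
    rw [Multiset.mem_toFinset, mem_roots hq]
    exact hS u hu
  calc S.card = (S.image (fun u : ℤ => (u : ℚ))).card := h1.symm
    _ ≤ q.roots.toFinset.card := Finset.card_le_card h2
    _ ≤ q.roots.card := Multiset.toFinset_card_le _
    _ ≤ q.natDegree := card_roots' q
    _ ≤ m := hm

theorem space_proj (D κ : ℕ) : ∃ c : ℕ, ∀ U P : ℕ, Cpl U P → ∀ R R' : ℚ[X][X], R ≠ 0 → R' ≠ 0 →
    BD D D R → BD D D R' → ∀ F : ℤ[X][X][X], TD D D D F →
    ∀ S : Finset ℤ, (∀ u ∈ S, 0 ≤ u ∧ u ≤ U ∧ ∃ x y : ℤ, |x| ≤ ((U ^ κ : ℕ) : ℤ) ∧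
      |y| ≤ ((U ^ κ : ℕ) : ℤ) ∧ evalEval (u : ℚ) (x : ℚ) R = 0 ∧
      evalEval (u : ℚ) (y : ℚ) R' = 0 ∧ ev3 u x y F = 0 ∧
      ¬ ∃ r1 r2 : ℚ[X], ev3 X r1 r2 F = 0 ∧ r1.eval (u : ℚ) = x ∧ r2.eval (u : ℚ) = y) →
      S.card ≤ c * P := by
  classical
  obtain ⟨c1, hc1⟩ := plane_points D κ
  refine ⟨c1 + c1 + (2 * D * (2 * D)) * (D + D * D + D * D), ?_⟩
  intro U P hUP R R' hR hR' bR bR' F hF S hS
  obtain ⟨L, hLc, hLd, hL⟩ := hc1 U P hUP R hR bR
  obtain ⟨L', hLc', hLd', hL'⟩ := hc1 U P hUP R' hR' bR'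
  have hP : 1 ≤ P := by
    rcases Nat.eq_zero_or_pos P with h | h
    · exfalso
      have h1 := hUP.1
      have h2 := hUP.2
      rw [h] at h2
      have h3 : 1 ≤ U ^ 5 := Nat.one_le_pow _ _ h1
      simp at h2
      omega
    · exact h
  choose! hu0 hu1 x y hx hy hRx hRy hFxy hno using hS
  -- the three sets
  set S1 : Finset ℤ := S.filter (fun u : ℤ => ∀ r ∈ L, r.eval (u : ℚ) ≠ ((x u : ℤ) : ℚ)) with hS1
  set S2 : Finset ℤ := S.filter (fun u : ℤ => ∀ r ∈ L', r.eval (u : ℚ) ≠ ((y u : ℤ) : ℚ)) with hS2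
  set S3 : Finset ℤ := (L ×ˢ L').biUnion (fun p => S.filter (fun u : ℤ =>
    p.1.eval (u : ℚ) = ((x u : ℤ) : ℚ) ∧ p.2.eval (u : ℚ) = ((y u : ℤ) : ℚ))) with hS3
  have hcov : S ⊆ (S1 ∪ S2) ∪ S3 := by
    intro u hu
    by_cases a1 : ∀ r ∈ L, r.eval (u : ℚ) ≠ ((x u : ℤ) : ℚ)
    · exact Finset.mem_union_left _ (Finset.mem_union_left _ (Finset.mem_filter.mpr ⟨hu, a1⟩))
    by_cases a2 : ∀ r ∈ L', r.eval (u : ℚ) ≠ ((y u : ℤ) : ℚ)
    · exact Finset.mem_union_left _ (Finset.mem_union_right _ (Finset.mem_filter.mpr ⟨hu, a2⟩))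
    push Not at a1 a2
    obtain ⟨r1, hr1, e1⟩ := a1
    obtain ⟨r2, hr2, e2⟩ := a2
    apply Finset.mem_union_right
    rw [hS3, Finset.mem_biUnion]
    exact ⟨(r1, r2), Finset.mem_product.mpr ⟨hr1, hr2⟩, Finset.mem_filter.mpr ⟨hu, e1, e2⟩⟩
  have c1' : S1.card ≤ c1 * P := by
    have h := hL (S1.image (fun u => (u, x u))) ?_
    · have e : ((S1.image (fun u => (u, x u))).image Prod.fst) = S1 := by
        rw [Finset.image_image]
        ext u
        simp
      rw [e] at h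
      exact h
    · intro t ht
      obtain ⟨u, hu, rfl⟩ := Finset.mem_image.mp ht
      have hu' := Finset.mem_filter.mp hu
      exact ⟨hu0 u hu'.1, hu1 u hu'.1, hx u hu'.1, hRx u hu'.1, hu'.2⟩
  have c2' : S2.card ≤ c1 * P := by
    have h := hL' (S2.image (fun u => (u, y u))) ?_
    · have e : ((S2.image (fun u => (u, y u))).image Prod.fst) = S2 := by
        rw [Finset.image_image]
        ext u
        simp
      rw [e] at h
      exact h
    · intro t ht
      obtain ⟨u, hu, rfl⟩ := Finset.mem_image.mp ht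
      have hu' := Finset.mem_filter.mp hu
      exact ⟨hu0 u hu'.1, hu1 u hu'.1, hy u hu'.1, hRy u hu'.1, hu'.2⟩
  have c3' : S3.card ≤ (2 * D * (2 * D)) * (D + D * D + D * D) := by
    calc S3.card ≤ ∑ p ∈ L ×ˢ L', (S.filter (fun u : ℤ =>
          p.1.eval (u : ℚ) = ((x u : ℤ) : ℚ) ∧ p.2.eval (u : ℚ) = ((y u : ℤ) : ℚ))).card :=
          Finset.card_biUnion_le
      _ ≤ ∑ p ∈ L ×ˢ L', (D + D * D + D * D) := by
          apply Finset.sum_le_sum
          intro p hp
          have hp' := Finset.mem_product.mp hp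
          rcases Finset.eq_empty_or_nonempty (S.filter (fun u : ℤ =>
            p.1.eval (u : ℚ) = ((x u : ℤ) : ℚ) ∧ p.2.eval (u : ℚ) = ((y u : ℤ) : ℚ))) with h | h
          · rw [h, Finset.card_empty]
            exact Nat.zero_le _
          · obtain ⟨u0, hu0'⟩ := h
            have hu0'' := Finset.mem_filter.mp hu0'
            have hq : ev3 X p.1 p.2 F ≠ 0 := by
              intro h0
              exact hno u0 hu0''.1 ⟨p.1, p.2, h0, hu0''.2.1, hu0''.2.2⟩
            refine card_roots_le_aux (ev3 X p.1 p.2 F) hq _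
              (ev3_deg hF p.1 p.2 (hLd _ hp'.1) (hLd' _ hp'.2)) _ ?_
            intro u hu
            have hu' := Finset.mem_filter.mp hu
            have e1 := ev3_hom (evalRingHom (u : ℚ)) X p.1 p.2 F
            simp only [coe_evalRingHom, eval_X] at e1
            rw [e1, hu'.2.1, hu'.2.2]
            have e2 := ev3_hom (Int.castRingHom ℚ) u (x u) (y u) F
            simp only [eq_intCast] at e2
            rw [← e2, hFxy u hu'.1]
            simp
      _ = (L.card * L'.card) * (D + D * D + D * D) := by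
          rw [Finset.sum_const, Finset.card_product, smul_eq_mul]
      _ ≤ (2 * D * (2 * D)) * (D + D * D + D * D) :=
          Nat.mul_le_mul_right _ (Nat.mul_le_mul hLc hLc')
  have hc : S.card ≤ S1.card + S2.card + S3.card := by
    calc S.card ≤ ((S1 ∪ S2) ∪ S3).card := Finset.card_le_card hcov
      _ ≤ (S1 ∪ S2).card + S3.card := Finset.card_union_le _ _
      _ ≤ S1.card + S2.card + S3.card := Nat.add_le_add_right (Finset.card_union_le _ _) _
  calc S.card ≤ S1.card + S2.card + S3.card := hc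
    _ ≤ c1 * P + c1 * P + (2 * D * (2 * D)) * (D + D * D + D * D) * 1 := by
        rw [Nat.mul_one]
        exact Nat.add_le_add (Nat.add_le_add c1' c2') c3'
    _ ≤ c1 * P + c1 * P + (2 * D * (2 * D)) * (D + D * D + D * D) * P :=
        Nat.add_le_add_left (Nat.mul_le_mul_left _ hP) _
    _ = (c1 + c1 + (2 * D * (2 * D)) * (D + D * D + D * D)) * P := by ring

end Pool.Agent.H37.TE
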