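import Pool.Agent.H37.TE.Spp
import Pool.Agent.H37.TE.Irr

/-! # [H37 TE WIN] Points in a window: the result of the p-adic part for the original polynomial -/

namespace Pool.Agent.H37.TE

open Finset Polynomial

/-- the shift `t ↦ t + A` -/
noncomputable def sh (A : ℤ) : ℤ[X][X][X] →+* ℤ[X][X][X] :=
  mapRingHom (mapRingHom (compRingHom (X + C A)))

theorem sh_coeff (A : ℤ) (F : ℤ[X][X][X]) (a b : ℕ) :
    ((sh A F).coeff b).coeff a = ((F.coeff b).coeff a).comp (X + C A) := by
  unfold sh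
  rw [coe_mapRingHom, coeff_map, coe_mapRingHom, coeff_map, coe_compRingHom_apply]

theorem ev3_sh {S : Type*} [CommRing S] (A : ℤ) (t x y : S) (F : ℤ[X][X][X]) :
    ev3 t x y (sh A F) = ev3 (t + (A : S)) x y F := by
  have h1 : ∀ (t x y : S) (F : ℤ[X][X][X]), ev3 t x y F =
      eval₂RingHom (eval₂RingHom (eval₂RingHom (Int.castRingHom S) t) x) y F := fun _ _ _ _ => rfl
  rw [h1, h1, ← RingHom.comp_apply]
  congr 1
  refine Polynomial.ringHom_ext' ?_ ?_
  · refine Polynomial.ringHom_ext' ?_ ?_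
    · refine Polynomial.ringHom_ext' (RingHom.ext_int _ _) ?_
      simp only [sh, RingHom.coe_comp, Function.comp_apply, coe_mapRingHom, map_C,
        coe_compRingHom_apply, X_comp, map_add, coe_eval₂RingHom, eval₂_C, eval₂_X, eval₂_add]
      congr 1
    · simp [sh]
  · simp [sh]

theorem shift_comp (A : ℤ) (q : ℤ[X]) : q.comp (X + C A) = 0 ↔ q = 0 := by
  constructor
  · intro h
    have h1 : (q.comp (X + C A)).comp (X - C A) = 0 := by rw [h, zero_comp]
    rw [comp_assoc] at h1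
    simpa using h1
  · intro h
    rw [h, zero_comp]

theorem shift_natDegree (A : ℤ) (q : ℤ[X]) : (q.comp (X + C A)).natDegree = q.natDegree := by
  rw [natDegree_comp, natDegree_X_add_C, mul_one]

/-- the conditions are invariant under the shift -/
theorem irr_shift {n : ℕ} (A : ℤ) (F : ℤ[X][X][X])
    (hirr : Irreducible ((topf n F).map (mapRingHom (Int.castRingHom ℂ)))) :
    Irreducible ((topf n (sh A F)).map (mapRingHom (Int.castRingHom ℂ))) := by
  have h1 : (topf n (sh A F)).map (mapRingHom (Int.castRingHom ℂ)) =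
      (mapEquiv (algEquivAevalXAddC (A : ℂ)).toRingEquiv)
        ((topf n F).map (mapRingHom (Int.castRingHom ℂ))) := by
    rw [mapEquiv_apply]
    ext1 b
    rw [coeff_map, coeff_map, coeff_map, tpf_coeff, tpf_coeff]
    split_ifs with hb
    · rw [sh_coeff]
      simp only [coe_mapRingHom]
      rw [map_comp]
      show _ = (algEquivAevalXAddC (A : ℂ)) _
      simp [aeval_def, comp, eval₂_eq_eval_map]
    · simp
  rw [h1]
  exact (MulEquiv.irreducible_iff _).2 hirr

theorem window_points (n D κ : ℕ) (hn : 2 ≤ n) (F : ℤ[X][X][X])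
    (hdeg : ∀ a b, n < a + b → (F.coeff b).coeff a = 0) (hlead : (F.coeff n).coeff 0 ≠ 0)
    (hirr : Irreducible ((topf n F).map (mapRingHom (Int.castRingHom ℂ)))) :
    ∃ c : ℕ, ∀ A : ℤ, ∀ U P : ℕ, Cpl U P → ∀ G : ℤ[X][X][X], TD D D D G → G ≠ 0 →
      G.natDegree < n → ∀ S : Finset ℤ, (∀ u ∈ S, 0 ≤ u ∧ u ≤ U ∧ ∃ x y : ℤ,
        |x| ≤ ((U ^ κ : ℕ) : ℤ) ∧ |y| ≤ ((U ^ κ : ℕ) : ℤ) ∧ ev3 (A + u) x y F = 0 ∧
        ev3 u x y G = 0 ∧ ¬ ∃ r1 r2 : ℚ[X], ev3 X r1 r2 F = 0 ∧
          r1.eval (((A + u : ℤ)) : ℚ) = x ∧ r2.eval (((A + u : ℤ)) : ℚ) = y) → S.card ≤ c * P := by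
  -- a bound for the degrees of `F`
  obtain ⟨m, hm⟩ : ∃ m, ∀ a b, ((F.coeff b).coeff a).natDegree ≤ m := by
    refine ⟨∑ b ∈ range (n + 1), ∑ a ∈ range (n + 1), ((F.coeff b).coeff a).natDegree, ?_⟩
    intro a b
    by_cases hab : n < a + b
    · rw [hdeg a b hab, natDegree_zero]
      exact Nat.zero_le _
    · have h1 : ((F.coeff b).coeff a).natDegree ≤
          ∑ a ∈ range (n + 1), ((F.coeff b).coeff a).natDegree :=
        Finset.single_le_sum (f := fun a => ((F.coeff b).coeff a).natDegree)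
          (fun _ _ => Nat.zero_le _) (mem_range.2 (by omega))
      refine h1.trans ?_
      exact Finset.single_le_sum
        (f := fun b => ∑ a ∈ range (n + 1), ((F.coeff b).coeff a).natDegree)
        (fun _ _ => Nat.zero_le _) (mem_range.2 (by omega))
  obtain ⟨c, hc⟩ := space_points (D + n + m) κ
  refine ⟨c, ?_⟩
  intro A U P hUP G hG hG0 hGn S hS
  have hdeg' : ∀ a b, n < a + b → ((sh A F).coeff b).coeff a = 0 := by
    intro a b hab
    rw [sh_coeff, hdeg a b hab, zero_comp]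
  have hlead' : ((sh A F).coeff n).coeff 0 ≠ 0 := by
    rw [sh_coeff, Ne, shift_comp]
    exact hlead
  obtain ⟨h1, h2, h3⟩ := irr_top hn (sh A F) hdeg' hlead' (irr_shift A F hirr)
  have hTD : TD (D + n + m) (D + n + m) (D + n + m) (sh A F) := by
    refine ⟨by rw [h2]; omega, fun b => ⟨?_, fun a => ?_⟩⟩
    · rw [natDegree_le_iff_coeff_eq_zero]
      intro a ha
      exact hdeg' a b (by omega)
    · rw [sh_coeff, shift_natDegree]
      have := hm a b
      omega
  have hTG : TD (D + n + m) (D + n + m) (D + n + m) G := by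
    refine ⟨hG.1.trans (by omega), fun b => ⟨(hG.2 b).1.trans (by omega), fun a => ?_⟩⟩
    exact ((hG.2 b).2 a).trans (by omega)
  refine hc U P hUP (sh A F) G hTD hTG h1 (by omega) h3 hG0 (by omega) S ?_
  intro u hu
  obtain ⟨u0, u1, x, y, hx, hy, hF0, hG00, hno⟩ := hS u hu
  refine ⟨u0, u1, x, y, hx, hy, ?_, hG00, ?_⟩
  · rw [ev3_sh, add_comm]
    exact hF0
  · rintro ⟨r1, r2, hr, e1, e2⟩
    apply hno
    have h4 : ∀ r : ℚ[X], (r.comp (X - C (A : ℚ))).eval (((A + u : ℤ)) : ℚ) = r.eval (u : ℚ) := by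
      intro r
      rw [eval_comp]
      congr 1
      simp
    refine ⟨r1.comp (X - C (A : ℚ)), r2.comp (X - C (A : ℚ)), ?_, ?_, ?_⟩
    · rw [ev3_sh] at hr
      have h5 := congrArg (compRingHom (X - C (A : ℚ))) hr
      rw [ev3_hom, map_zero] at h5
      have h6 : compRingHom (X - C (A : ℚ)) (X + ((A : ℤ) : ℚ[X])) = X := by
        rw [map_add, map_intCast, coe_compRingHom_apply, X_comp]
        simp
      rw [h6] at h5
      exact h5
    · rw [h4, e1]
    · rw [h4, e2]

end Pool.Agent.H37.TE
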